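import Pool.Agent.H.MP_ef93d4_co.P0_0
import Pool.Agent.H.MP_ef93d4_co.P1_0
import Pool.Agent.H.MP_ef93d4_co.P2_0
import Pool.Agent.H.MP_ef93d4_co.P3_0
import Pool.Agent.H.MP_ef93d4_co.P4_0
import Pool.Agent.H.MP_ef93d4_co.P5_0
import Pool.Agent.H.MP_ef93d4_co.P6_0
import Pool.Agent.H.MP_ef93d4_co.P6_1
import Pool.Agent.H.MP_ef93d4_co.P7_0
import Pool.Agent.H.MP_ef93d4_co.P7_1
import Pool.Agent.H.MP_ef93d4_co.P8_0
import Pool.Agent.H.MP_ef93d4_co.P8_1
import Pool.Agent.H.MP_ef93d4_co.P8_2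
import Pool.Agent.H.MP_ef93d4_co.P9_0
import Pool.Agent.H.MP_ef93d4_co.P9_1
import Pool.Agent.H.MP_ef93d4_co.P10_0
import Pool.Agent.H.MP_ef93d4_co.P10_1
import Pool.Agent.H.MP_ef93d4_co.P11_0
import Pool.Agent.H.MP_ef93d4_co.P11_1
import Pool.Agent.H.MP_ef93d4_co.P11_2
import Pool.Agent.H.MP_ef93d4_co.P11_3
import Pool.Agent.H.MP_ef93d4_co.P11_4
import Pool.Agent.H.MP_ef93d4_co.P12_0
import Pool.Agent.H.MP_ef93d4_co.P12_1
import Pool.Agent.H.MP_ef93d4_co.P12_2
import Pool.Agent.H.MP_ef93d4_co.P13_0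
import Pool.Agent.H.MP_ef93d4_co.P13_1
import Pool.Agent.H.MP_ef93d4_co.P13_2

/-! The fourteen refutations, put together from their verified pieces. -/

namespace Pool.Agent.OrthoChi

theorem cert0 {f : Nat → Nat} (hf : IsCol f) (h : Good f (initB init0)) : False := by
  obtain ⟨B, hB, _⟩ := piece hf p0_2 (piece hf p0_1 (piece hf p0_0 (⟨_, List.mem_singleton_self _, h⟩)))
  simp at hB

theorem cert1 {f : Nat → Nat} (hf : IsCol f) (h : Good f (initB init1)) : False := by
  obtain ⟨B, hB, _⟩ := piece hf p1_2 (piece hf p1_1 (piece hf p1_0 (⟨_, List.mem_singleton_self _, h⟩)))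
  simp at hB

theorem cert2 {f : Nat → Nat} (hf : IsCol f) (h : Good f (initB init2)) : False := by
  obtain ⟨B, hB, _⟩ := piece hf p2_2 (piece hf p2_1 (piece hf p2_0 (⟨_, List.mem_singleton_self _, h⟩)))
  simp at hB

theorem cert3 {f : Nat → Nat} (hf : IsCol f) (h : Good f (initB init3)) : False := by
  obtain ⟨B, hB, _⟩ := piece hf p3_1 (piece hf p3_0 (⟨_, List.mem_singleton_self _, h⟩))
  simp at hB

theorem cert4 {f : Nat → Nat} (hf : IsCol f) (h : Good f (initB init4)) : False := by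
  obtain ⟨B, hB, _⟩ := piece hf p4_2 (piece hf p4_1 (piece hf p4_0 (⟨_, List.mem_singleton_self _, h⟩)))
  simp at hB

theorem cert5 {f : Nat → Nat} (hf : IsCol f) (h : Good f (initB init5)) : False := by
  obtain ⟨B, hB, _⟩ := piece hf p5_2 (piece hf p5_1 (piece hf p5_0 (⟨_, List.mem_singleton_self _, h⟩)))
  simp at hB

theorem cert6 {f : Nat → Nat} (hf : IsCol f) (h : Good f (initB init6)) : False := by
  obtain ⟨B, hB, _⟩ := piece hf p6_4 (piece hf p6_3 (piece hf p6_2 (piece hf p6_1 (piece hf p6_0 (⟨_, List.mem_singleton_self _, h⟩)))))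
  simp at hB

theorem cert7 {f : Nat → Nat} (hf : IsCol f) (h : Good f (initB init7)) : False := by
  obtain ⟨B, hB, _⟩ := piece hf p7_4 (piece hf p7_3 (piece hf p7_2 (piece hf p7_1 (piece hf p7_0 (⟨_, List.mem_singleton_self _, h⟩)))))
  simp at hB

theorem cert8 {f : Nat → Nat} (hf : IsCol f) (h : Good f (initB init8)) : False := by
  obtain ⟨B, hB, _⟩ := piece hf p8_6 (piece hf p8_5 (piece hf p8_4 (piece hf p8_3 (piece hf p8_2 (piece hf p8_1 (piece hf p8_0 (⟨_, List.mem_singleton_self _, h⟩)))))))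
  simp at hB

theorem cert9 {f : Nat → Nat} (hf : IsCol f) (h : Good f (initB init9)) : False := by
  obtain ⟨B, hB, _⟩ := piece hf p9_4 (piece hf p9_3 (piece hf p9_2 (piece hf p9_1 (piece hf p9_0 (⟨_, List.mem_singleton_self _, h⟩)))))
  simp at hB

theorem cert10 {f : Nat → Nat} (hf : IsCol f) (h : Good f (initB init10)) : False := by
  obtain ⟨B, hB, _⟩ := piece hf p10_4 (piece hf p10_3 (piece hf p10_2 (piece hf p10_1 (piece hf p10_0 (⟨_, List.mem_singleton_self _, h⟩)))))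
  simp at hB

theorem cert11 {f : Nat → Nat} (hf : IsCol f) (h : Good f (initB init11)) : False := by
  obtain ⟨B, hB, _⟩ := piece hf p11_12 (piece hf p11_11 (piece hf p11_10 (piece hf p11_9 (piece hf p11_8 (piece hf p11_7 (piece hf p11_6 (piece hf p11_5 (piece hf p11_4 (piece hf p11_3 (piece hf p11_2 (piece hf p11_1 (piece hf p11_0 (⟨_, List.mem_singleton_self _, h⟩)))))))))))))
  simp at hB

theorem cert12 {f : Nat → Nat} (hf : IsCol f) (h : Good f (initB init12)) : False := by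
  obtain ⟨B, hB, _⟩ := piece hf p12_8 (piece hf p12_7 (piece hf p12_6 (piece hf p12_5 (piece hf p12_4 (piece hf p12_3 (piece hf p12_2 (piece hf p12_1 (piece hf p12_0 (⟨_, List.mem_singleton_self _, h⟩)))))))))
  simp at hB

theorem cert13 {f : Nat → Nat} (hf : IsCol f) (h : Good f (initB init13)) : False := by
  obtain ⟨B, hB, _⟩ := piece hf p13_8 (piece hf p13_7 (piece hf p13_6 (piece hf p13_5 (piece hf p13_4 (piece hf p13_3 (piece hf p13_2 (piece hf p13_1 (piece hf p13_0 (⟨_, List.mem_singleton_self _, h⟩)))))))))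
  simp at hB

end Pool.Agent.OrthoChi
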