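import Pool.Agent.H.MP_ef93d4_co.Sym
import Pool.Agent.H.MP_ef93d4_co.Certs

/-!
# The fourteen base cases
-/

namespace Pool.Agent.OrthoChi

/-- Rename the colours so that five given distinct colours become `0, 1, 2, 3, 4`. -/
theorem exists_rename (c a1 a2 a3 a4 : Nat) (hc : c < 6) (h1 : a1 < 6) (h2 : a2 < 6) (h3 : a3 < 6)
    (h4 : a4 < 6) (hd : [c, a1, a2, a3, a4].Nodup) :
    ∃ t : Nat → Nat, (∀ x, t x < 6) ∧ (∀ x < 6, ∀ y < 6, x ≠ y → t x ≠ t y) ∧
      t c = 0 ∧ t a1 = 1 ∧ t a2 = 2 ∧ t a3 = 3 ∧ t a4 = 4 := by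
  refine ⟨fun x => if x = c then 0 else if x = a1 then 1 else if x = a2 then 2 else
    if x = a3 then 3 else if x = a4 then 4 else 5, ?_, ?_, ?_, ?_, ?_, ?_, ?_⟩
  · intro x
    dsimp only
    split_ifs <;> omega
  · intro x hx y hy hxy
    by_cases hboth : x ∉ [c, a1, a2, a3, a4] ∧ y ∉ [c, a1, a2, a3, a4]
    · exfalso
      have hn : (x :: y :: [c, a1, a2, a3, a4]).Nodup := by
        refine List.nodup_cons.2 ⟨?_, List.nodup_cons.2 ⟨hboth.2, hd⟩⟩
        intro hm
        rcases List.mem_cons.1 hm with h | h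
        · exact hxy h
        · exact hboth.1 h
      have hsub : (x :: y :: [c, a1, a2, a3, a4]).toFinset ⊆ Finset.range 6 := by
        intro z hz
        rw [List.mem_toFinset] at hz
        rw [Finset.mem_range]
        simp only [List.mem_cons, List.not_mem_nil, or_false] at hz
        rcases hz with rfl | rfl | rfl | rfl | rfl | rfl | rfl <;> assumption
      have hcard := Finset.card_le_card hsub
      rw [List.toFinset_card_of_nodup hn] at hcard
      simp at hcard
    · simp only [List.mem_cons, List.not_mem_nil, or_false, not_or] at hboth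
      dsimp only
      split_ifs <;> omega
  all_goals
    simp only [List.nodup_cons, List.mem_cons, List.not_mem_nil, or_false, not_or] at hd
    dsimp only
    split_ifs <;> first | rfl | (exfalso; omega)

/-- Adjacency of two vertices as a Boolean. -/
noncomputable def ad (v u : Nat) : Bool := tb (nm v) (Nat.mul 6 u)

theorem ad_ne {f : Nat → Nat} (hf : IsCol f) {v u : Nat} (h : ad v u = true) : f v ≠ f u := by
  unfold ad at h
  rw [tb_eq] at h
  exact hf.2 v u h

/-- Conditions on the base set `S` and the clique `k1, k2, k3, k4`. -/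
noncomputable def cliqueOk (S : List Nat) (k1 k2 k3 k4 : Nat) : Bool :=
  (S.any (fun x => ad x k1) && (S.any (fun x => ad x k2) && (S.any (fun x => ad x k3) &&
    S.any (fun x => ad x k4)))) &&
  ((ad k1 k2 && (ad k1 k3 && ad k1 k4)) && ((ad k2 k3 && ad k2 k4) && ad k3 k4))

theorem ext_of_cert (S : List Nat) (k1 k2 k3 k4 : Nat) (hok : cliqueOk S k1 k2 k3 k4 = true)
    (ini : List (Nat × Nat))
    (hini : ini = S.map (fun x => (x, 0)) ++ [(k1, 1), (k2, 2), (k3, 3), (k4, 4)])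
    (cert : ∀ f : Nat → Nat, IsCol f → Good f (initB ini) → False) : Ext S := by
  intro f hf c hb hS
  unfold cliqueOk at hok
  simp only [Bool.and_eq_true, List.any_eq_true] at hok
  obtain ⟨⟨⟨x1, hx1, e1⟩, ⟨x2, hx2, e2⟩, ⟨x3, hx3, e3⟩, ⟨x4, hx4, e4⟩⟩, ⟨⟨e12, e13, e14⟩,
    ⟨⟨e23, e24⟩, e34⟩⟩⟩ := hok
  have d1 := ad_ne hf e1
  have d2 := ad_ne hf e2
  have d3 := ad_ne hf e3
  have d4 := ad_ne hf e4
  rw [hS x1 hx1] at d1
  rw [hS x2 hx2] at d2
  rw [hS x3 hx3] at d3
  rw [hS x4 hx4] at d4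
  have d12 := ad_ne hf e12
  have d13 := ad_ne hf e13
  have d14 := ad_ne hf e14
  have d23 := ad_ne hf e23
  have d24 := ad_ne hf e24
  have d34 := ad_ne hf e34
  have hc6 : c < 6 := by rw [← hS x1 hx1]; exact hf.1 x1
  obtain ⟨t, ht6, htinj, ht0, ht1, ht2, ht3, ht4⟩ := exists_rename c (f k1) (f k2) (f k3) (f k4) hc6
    (hf.1 _) (hf.1 _) (hf.1 _) (hf.1 _) (by
      simp only [List.nodup_cons, List.mem_cons, List.not_mem_nil, or_false, not_or,
        not_false_eq_true, List.nodup_nil, and_true]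
      exact ⟨⟨d1, d2, d3, d4⟩, ⟨d12, d13, d14⟩, ⟨d23, d24⟩, d34⟩)
  have hf' : IsCol (fun v => t (f v)) :=
    ⟨fun v => ht6 _, fun v u h => htinj _ (hf.1 v) _ (hf.1 u) (hf.2 v u h)⟩
  refine cert _ hf' (good_init hf' _ ?_)
  intro p hp
  rw [hini] at hp
  rcases List.mem_append.1 hp with hp | hp
  · obtain ⟨x, hx, rfl⟩ := List.mem_map.1 hp
    change t (f x) = 0
    rw [hS x hx, ht0]
  · simp only [List.mem_cons, List.not_mem_nil, or_false] at hp
    rcases hp with rfl | rfl | rfl | rfl <;> assumption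

theorem ext0 : Ext [0, 1, 3, 4, 8, 9, 10, 11, 31, 43] :=
  ext_of_cert _ 6 25 30 55 (by decide +kernel) init0 rfl
    (fun _ hf h => cert0 hf h)

theorem ext1 : Ext [0, 1, 3, 4, 8, 9, 10, 11, 31, 58] :=
  ext_of_cert _ 5 7 40 48 (by decide +kernel) init1 rfl
    (fun _ hf h => cert1 hf h)

theorem ext2 : Ext [0, 1, 3, 4, 8, 9, 10, 11, 43, 58] :=
  ext_of_cert _ 5 7 40 48 (by decide +kernel) init2 rfl
    (fun _ hf h => cert2 hf h)

theorem ext3 : Ext [0, 1, 3, 4, 9, 10, 11, 31, 43, 56] :=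
  ext_of_cert _ 19 51 52 55 (by decide +kernel) init3 rfl
    (fun _ hf h => cert3 hf h)

theorem ext4 : Ext [0, 1, 3, 4, 9, 10, 11, 31, 43, 58] :=
  ext_of_cert _ 40 45 47 51 (by decide +kernel) init4 rfl
    (fun _ hf h => cert4 hf h)

theorem ext5 : Ext [0, 1, 3, 4, 9, 10, 11, 31, 56, 58] :=
  ext_of_cert _ 14 37 45 46 (by decide +kernel) init5 rfl
    (fun _ hf h => cert5 hf h)

theorem ext6 : Ext [0, 1, 3, 5, 9, 10, 15, 26, 39, 46] :=
  ext_of_cert _ 8 34 44 59 (by decide +kernel) init6 rfl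
    (fun _ hf h => cert6 hf h)

theorem ext7 : Ext [0, 1, 3, 5, 9, 10, 15, 26, 39, 51] :=
  ext_of_cert _ 8 34 44 59 (by decide +kernel) init7 rfl
    (fun _ hf h => cert7 hf h)

theorem ext8 : Ext [0, 1, 3, 5, 9, 10, 15, 26, 39, 56] :=
  ext_of_cert _ 30 35 43 57 (by decide +kernel) init8 rfl
    (fun _ hf h => cert8 hf h)

theorem ext9 : Ext [0, 1, 3, 5, 9, 10, 15, 26, 46, 51] :=
  ext_of_cert _ 8 34 44 59 (by decide +kernel) init9 rfl
    (fun _ hf h => cert9 hf h)

theorem ext10 : Ext [0, 1, 3, 5, 9, 10, 15, 26, 51, 54] :=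
  ext_of_cert _ 8 34 44 59 (by decide +kernel) init10 rfl
    (fun _ hf h => cert10 hf h)

theorem ext11 : Ext [0, 1, 3, 5, 9, 10, 26, 39, 46, 51] :=
  ext_of_cert _ 37 45 224 239 (by decide +kernel) init11 rfl
    (fun _ hf h => cert11 hf h)

theorem ext12 : Ext [0, 1, 3, 5, 9, 10, 26, 39, 46, 56] :=
  ext_of_cert _ 6 23 36 45 (by decide +kernel) init12 rfl
    (fun _ hf h => cert12 hf h)

theorem ext13 : Ext [0, 1, 3, 5, 9, 10, 26, 51, 54, 56] :=
  ext_of_cert _ 8 16 45 57 (by decide +kernel) init13 rfl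
    (fun _ hf h => cert13 hf h)

theorem base_ext : ∀ T ∈ base, Ext T := by
  intro T hT
  unfold base at hT
  simp only [List.mem_cons, List.not_mem_nil, or_false] at hT
  rcases hT with rfl | rfl | rfl | rfl | rfl | rfl | rfl | rfl | rfl | rfl | rfl | rfl | rfl | rfl
  · exact ext13
  · exact ext12
  · exact ext11
  · exact ext10
  · exact ext9
  · exact ext8
  · exact ext7
  · exact ext6
  · exact ext5
  · exact ext4
  · exact ext3
  · exact ext2
  · exact ext1
  · exact ext0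

/-- There is no proper colouring of the 360 rays with six colours. -/
theorem no_col6 (f : Nat → Nat) (hf : IsCol f) : False := no_col base_ext f hf

end Pool.Agent.OrthoChi
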