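import Pool.Agent.H.MP_ef93d4_co.Tab

/-!
# A verified checker for refutations of 6-colourings

A state is a number `B` whose bit `6 * v + c` says that colour `c` is excluded at vertex `v`.
-/

namespace Pool.Agent.OrthoChi

/-- Evaluate `v` before applying `k`. -/
noncomputable def force {β : Type} (v : Nat) (k : Nat → β) : β :=
  @Nat.rec (fun _ => β) (k 0) (fun n _ => k (Nat.succ n)) v

theorem force_eq {β : Type} (v : Nat) (k : Nat → β) : force v k = k v := by
  cases v <;> rfl

/-- Push one new state for each colour in the bit set `av`. -/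
noncomputable def push (fuel : Nat) : Nat → Nat → Nat → List Nat → List Nat :=
  @Nat.rec (fun _ => Nat → Nat → Nat → List Nat → List Nat) (fun _ _ _ rest => rest)
    (fun _ ih avail B N rest => force avail (fun av => @Bool.rec (fun _ => List Nat)
        (ih (Nat.sub av (Nat.pow 2 (Nat.log2 av))) B N
          (List.cons (Nat.lor B (Nat.shiftLeft N (Nat.log2 av))) rest))
        rest (Nat.beq av 0))) fuel

/-- Branch on the colour of vertex `v` in the top state of the stack. -/
noncomputable def step (v : Nat) (stk : List Nat) : List Nat :=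
  @List.rec Nat (fun _ => List Nat) List.nil
    (fun B rest _ => force B (fun B =>
      push 7 (Nat.sub 63 (Nat.land (Nat.shiftRight B (Nat.mul 6 v)) 63)) B (nm v) rest)) stk

/-- Process `fuel` vertex labels packed in `s` (9 bits each). -/
noncomputable def chunk (fuel : Nat) : Nat → List Nat → List Nat :=
  @Nat.rec (fun _ => Nat → List Nat → List Nat) (fun _ stk => stk)
    (fun _ ih s stk => force (Nat.land s 511) (fun v => ih (Nat.shiftRight s 9) (step v stk))) fuel

/-- Process a list of packed labels, 64 labels in each entry. -/
noncomputable def runL (L : List Nat) : List Nat → List Nat :=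
  @List.rec Nat (fun _ => List Nat → List Nat) (fun stk => stk)
    (fun s _ ih stk => @List.rec Nat (fun _ => List Nat) List.nil
      (fun B rest _ => force B (fun B => ih (chunk 64 s (List.cons B rest)))) stk) L

/-- Equality test for lists of numbers. -/
noncomputable def eqL (L : List Nat) : List Nat → Bool :=
  @List.rec Nat (fun _ => List Nat → Bool)
    (fun M => @List.rec Nat (fun _ => Bool) true (fun _ _ _ => false) M)
    (fun a _ ih M => @List.rec Nat (fun _ => Bool) false
      (fun b M' _ => @Bool.rec (fun _ => Bool) false (ih M') (Nat.beq a b)) M) L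

/-- The state in which vertex `p.1` has received colour `p.2` for all `p` in the list. -/
noncomputable def initB (l : List (Nat × Nat)) : Nat :=
  @List.rec (Nat × Nat) (fun _ => Nat) 0
    (fun p _ ih => Nat.lor ih (Nat.shiftLeft (nm (Prod.fst p)) (Prod.snd p))) l

/-- `f` is a proper colouring with colours `0,...,5` of the graph given by `nm`. -/
def IsCol (f : Nat → Nat) : Prop :=
  (∀ v, f v < 6) ∧ ∀ v u, (nm v).testBit (6 * u) = true → f v ≠ f u

/-- No colour used by `f` is excluded in the state `B`. -/
def Good (f : Nat → Nat) (B : Nat) : Prop := ∀ u, B.testBit (6 * u + f u) = false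

/-- The number with bits exactly at the multiples of 6 below 2160. -/
def pat : Nat :=
  0x41041041041041041041041041041041041041041041041041041041041041041041041041041041041041041041041041041041041041041041041041041041041041041041041041041041041041041041041041041041041041041041041041041041041041041041041041041041041041041041041041041041041041041041041041041041041041041041041041041041041041041041041041041041041041041041041041041041041041041041041041041041041041041041041041041041041041041041041041041041041041041041041041041041041041041041041041041041041041041041041041041041041041041041041041041041041041041041041041041041041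

/-- Test used for `nm_dvd`. -/
def tabOk : Bool := tab.all (fun r => r.all (fun x => Nat.beq (Nat.land x pat) x))

theorem tabOk_true : tabOk = true := by decide +kernel

theorem nth_mem_or {α : Type} (d : α) (L : List α) (n : Nat) : nth d L n = d ∨ nth d L n ∈ L := by
  induction L generalizing n with
  | nil => left; rfl
  | cons x L ih =>
    cases n with
    | zero => right; exact List.mem_cons_self
    | succ m =>
      rcases ih m with h | h
      · left; exact h
      · right; exact List.mem_cons_of_mem _ h

theorem nm_land_pat (v : Nat) : (nm v) &&& pat = nm v := by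
  have h := tabOk_true
  unfold tabOk at h
  rw [List.all_eq_true] at h
  unfold nm
  rcases nth_mem_or List.nil tab (Nat.div v 19) with h1 | h1
  · rw [h1]
    rcases nth_mem_or 0 ([] : List Nat) (Nat.mod v 19) with h2 | h2
    · rw [h2]; simp
    · simp at h2
  · rcases nth_mem_or 0 (nth List.nil tab (Nat.div v 19)) (Nat.mod v 19) with h2 | h2
    · rw [h2]; simp
    · have h3 := h _ h1
      rw [List.all_eq_true] at h3
      have h4 := h3 _ h2
      exact Nat.eq_of_beq_eq_true h4

theorem pat_bits : ∀ p < 2160, pat.testBit p = true → p % 6 = 0 := by decide +kernel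

theorem pat_lt : pat < 2 ^ 2160 := by decide +kernel

theorem nm_dvd (v p : Nat) (h : (nm v).testBit p = true) : p % 6 = 0 := by
  rw [← nm_land_pat v, Nat.testBit_and, Bool.and_eq_true] at h
  by_cases hp : p < 2160
  · exact pat_bits p hp h.2
  · exfalso
    have : pat.testBit p = false :=
      Nat.testBit_lt_two_pow (lt_of_lt_of_le pat_lt (Nat.pow_le_pow_right (by norm_num) (by omega)))
    rw [this] at h
    simp at h

theorem good_lor {f : Nat → Nat} (hf : IsCol f) {B : Nat} (hB : Good f B) (v : Nat) :
    Good f (Nat.lor B (Nat.shiftLeft (nm v) (f v))) := by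
  intro u
  have e : Nat.lor B (Nat.shiftLeft (nm v) (f v)) = B ||| (nm v) <<< (f v) := rfl
  rw [e, Nat.testBit_or, hB u, Bool.false_or, Nat.testBit_shiftLeft]
  by_contra hcon
  rw [Bool.not_eq_false, Bool.and_eq_true] at hcon
  obtain ⟨h1, h2⟩ := hcon
  have h1' : f v ≤ 6 * u + f u := by simpa using h1
  have h3 := nm_dvd _ _ h2
  have hu := hf.1 u
  have hv := hf.1 v
  have h4 : f u = f v := by omega
  rw [h4, Nat.add_sub_cancel] at h2
  exact hf.2 v u h2 h4.symm

theorem good_init {f : Nat → Nat} (hf : IsCol f) (l : List (Nat × Nat))
    (h : ∀ p ∈ l, f p.1 = p.2) : Good f (initB l) := by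
  induction l with
  | nil => intro u; exact Nat.zero_testBit _
  | cons p l ih =>
    have h1 := good_lor hf (ih (fun q hq => h q (List.mem_cons_of_mem _ hq))) p.1
    rw [h p List.mem_cons_self] at h1
    exact h1

theorem push_mem (fuel av B N : Nat) (rest : List Nat) (hav : av < 2 ^ fuel) :
    (∀ x ∈ rest, x ∈ push fuel av B N rest) ∧
    (∀ c, av.testBit c = true → Nat.lor B (Nat.shiftLeft N c) ∈ push fuel av B N rest) := by
  induction fuel generalizing av rest with
  | zero =>
    have : av = 0 := by simpa using hav
    subst this
    refine ⟨fun x hx => hx, fun c hc => ?_⟩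
    simp at hc
  | succ fuel ih =>
    have hunf : push (fuel + 1) av B N rest = @Bool.rec (fun _ => List Nat)
        (push fuel (Nat.sub av (Nat.pow 2 (Nat.log2 av))) B N
          (List.cons (Nat.lor B (Nat.shiftLeft N (Nat.log2 av))) rest))
        rest (Nat.beq av 0) := by
      exact force_eq av (fun av => @Bool.rec (fun _ => List Nat)
        (push fuel (Nat.sub av (Nat.pow 2 (Nat.log2 av))) B N
          (List.cons (Nat.lor B (Nat.shiftLeft N (Nat.log2 av))) rest))
        rest (Nat.beq av 0))
    rcases Nat.eq_zero_or_pos av with h0 | hpos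
    · subst h0
      rw [hunf]
      refine ⟨fun x hx => hx, fun c hc => ?_⟩
      simp at hc
    · have hb : Nat.beq av 0 = false := by
        cases hb : Nat.beq av 0 with
        | false => rfl
        | true => have := Nat.eq_of_beq_eq_true hb; omega
      rw [hunf, hb]
      have hne : av ≠ 0 := by omega
      have hlog : Nat.log2 av = Nat.log2 av := rfl
      have h1 : 2 ^ Nat.log2 av ≤ av := Nat.log2_self_le hne
      have h2 : av < 2 ^ (Nat.log2 av + 1) := Nat.lt_log2_self
      have h3 : Nat.log2 av < fuel + 1 := (Nat.log2_lt hne).2 hav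
      have e1 : Nat.sub av (Nat.pow 2 (Nat.log2 av)) = av - 2 ^ Nat.log2 av := rfl
      have h4 : av - 2 ^ Nat.log2 av < 2 ^ Nat.log2 av := by
        rw [pow_succ] at h2; omega
      have h5 : av - 2 ^ Nat.log2 av < 2 ^ fuel :=
        lt_of_lt_of_le h4 (Nat.pow_le_pow_right (by norm_num) (by omega))
      have := ih (av - 2 ^ Nat.log2 av)
        (List.cons (Nat.lor B (Nat.shiftLeft N (Nat.log2 av))) rest) h5
      obtain ⟨ha, hc⟩ := this
      change (∀ x ∈ rest, x ∈ push fuel (Nat.sub av (Nat.pow 2 (Nat.log2 av))) B N
          (List.cons (Nat.lor B (Nat.shiftLeft N (Nat.log2 av))) rest)) ∧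
        (∀ c, av.testBit c = true → Nat.lor B (Nat.shiftLeft N c) ∈
          push fuel (Nat.sub av (Nat.pow 2 (Nat.log2 av))) B N
          (List.cons (Nat.lor B (Nat.shiftLeft N (Nat.log2 av))) rest))
      rw [e1]
      refine ⟨fun x hx => ha x (List.mem_cons_of_mem _ hx), fun c hcb => ?_⟩
      by_cases hcc : c = Nat.log2 av
      · subst hcc
        exact ha _ List.mem_cons_self
      · apply hc
        have hav2 : av = 2 ^ Nat.log2 av + (av - 2 ^ Nat.log2 av) := by omega
        rcases lt_or_gt_of_ne hcc with hlt | hgt
        · rw [hav2, Nat.testBit_two_pow_add_gt hlt] at hcb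
          exact hcb
        · exfalso
          have : av.testBit c = false :=
            Nat.testBit_lt_two_pow (lt_of_lt_of_le h2 (Nat.pow_le_pow_right (by norm_num) hgt))
          rw [this] at hcb
          exact absurd hcb (by simp)

theorem sub_bits : ∀ x < 64, ∀ i < 6, x.testBit i = false → (63 - x).testBit i = true := by
  decide +kernel

theorem step_good {f : Nat → Nat} (hf : IsCol f) (v : Nat) (stk : List Nat)
    (h : ∃ B ∈ stk, Good f B) : ∃ B ∈ step v stk, Good f B := by
  cases stk with
  | nil => obtain ⟨B, hB, _⟩ := h; simp at hB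
  | cons B0 rest =>
    have hunf : step v (B0 :: rest) =
        push 7 (Nat.sub 63 (Nat.land (Nat.shiftRight B0 (Nat.mul 6 v)) 63)) B0 (nm v) rest := by
      exact force_eq B0 (fun B =>
        push 7 (Nat.sub 63 (Nat.land (Nat.shiftRight B (Nat.mul 6 v)) 63)) B (nm v) rest)
    rw [hunf]
    have hlt : Nat.land (Nat.shiftRight B0 (Nat.mul 6 v)) 63 < 64 := by
      change (Nat.shiftRight B0 (Nat.mul 6 v)) &&& 63 < 64
      exact lt_of_le_of_lt Nat.and_le_right (by norm_num)
    have hlt2 : Nat.sub 63 (Nat.land (Nat.shiftRight B0 (Nat.mul 6 v)) 63) < 2 ^ 7 := by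
      have : Nat.sub 63 (Nat.land (Nat.shiftRight B0 (Nat.mul 6 v)) 63) ≤ 63 := Nat.sub_le _ _
      omega
    obtain ⟨ha, hc⟩ := push_mem 7 _ B0 (nm v) rest hlt2
    obtain ⟨B, hB, hg⟩ := h
    rcases List.mem_cons.1 hB with rfl | hB
    · refine ⟨Nat.lor B (Nat.shiftLeft (nm v) (f v)), hc (f v) ?_, good_lor hf hg v⟩
      apply sub_bits _ hlt _ (hf.1 v)
      change ((B >>> (6 * v)) &&& 63).testBit (f v) = false
      rw [Nat.testBit_and, Nat.testBit_shiftRight, hg v, Bool.false_and]
    · exact ⟨B, ha B hB, hg⟩

theorem chunk_good {f : Nat → Nat} (hf : IsCol f) (fuel : Nat) :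
    ∀ (s : Nat) (stk : List Nat), (∃ B ∈ stk, Good f B) → ∃ B ∈ chunk fuel s stk, Good f B := by
  induction fuel with
  | zero => intro s stk h; exact h
  | succ fuel ih =>
    intro s stk h
    have hunf : chunk (fuel + 1) s stk =
        chunk fuel (Nat.shiftRight s 9) (step (Nat.land s 511) stk) := by
      exact force_eq (Nat.land s 511) (fun v => chunk fuel (Nat.shiftRight s 9) (step v stk))
    rw [hunf]
    exact ih _ _ (step_good hf _ _ h)

theorem eqL_eq (L : List Nat) : ∀ M, eqL L M = true → L = M := by
  induction L with
  | nil =>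
    intro M h
    cases M with
    | nil => rfl
    | cons b M => exact absurd h (by change ¬ (false = true); simp)
  | cons a L ih =>
    intro M h
    cases M with
    | nil => exact absurd h (by change ¬ (false = true); simp)
    | cons b M =>
      change @Bool.rec (fun _ => Bool) false (eqL L M) (Nat.beq a b) = true at h
      cases hb : Nat.beq a b with
      | false => rw [hb] at h; exact absurd h (by change ¬ (false = true); simp)
      | true =>
        rw [hb] at h
        have h2 : eqL L M = true := h
        rw [Nat.eq_of_beq_eq_true hb, ih M h2]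

/-- Soundness of the checker. -/
theorem runL_good {f : Nat → Nat} (hf : IsCol f) (L : List Nat) :
    ∀ stk : List Nat, (∃ B ∈ stk, Good f B) → ∃ B ∈ runL L stk, Good f B := by
  induction L with
  | nil => intro stk h; exact h
  | cons s L ih =>
    intro stk hex
    cases stk with
    | nil => obtain ⟨B, hB, _⟩ := hex; simp at hB
    | cons B rest =>
      have hunf : runL (s :: L) (B :: rest) = runL L (chunk 64 s (B :: rest)) := by
        exact force_eq B (fun B => runL L (chunk 64 s (List.cons B rest)))
      rw [hunf]
      exact ih _ (chunk_good hf 64 s _ hex)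

/-- One verified piece of a certificate. -/
theorem piece {f : Nat → Nat} (hf : IsCol f) {L S T : List Nat} (h : eqL (runL L S) T = true)
    (hS : ∃ B ∈ S, Good f B) : ∃ B ∈ T, Good f B := by
  rw [← eqL_eq _ _ h]
  exact runL_good hf L S hS

end Pool.Agent.OrthoChi
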