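import Pool.Agent.H.MP_ef93d4_co.Sym

/-!
# Coordinates of the 360 rays

The ray with number `v` is spanned by the vector with coordinates `a + b * φ`, where `a` and `b`
are the entries of the tables `coA` and `coB` and `φ` is the golden ratio.
-/

set_option maxRecDepth 100000

namespace Pool.Agent.OrthoChi

/-- Rational parts of the coordinates. -/
def coA : List (List (List Int)) := [
[[-1, 1, 0, 0], [0, 1, -1, 0], [1, 1, 0, 0], [1, -1, 1, 1], [1, 0, -1, 0], [1, -1, 1, -1], [0, -1, -1, 0], [-1, -1, 0, 0], [0, 0, -1, -1], [2, 0, 0, 0], [1, 0, 1, 0], [0, 0, 1, -1], [0, 1, 0, -1], [1, 1, -1, -1], [0, 0, 1, 1], [-1, 0, -1, 0], [1, 1, 1, -1], [1, 1, -1, 1], [0, 0, 2, 0]],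
[[0, -1, -1, 0], [1, 1, 0, 0], [0, 0, 0, 2], [0, 1, 0, 1], [1, 0, 0, 1], [0, 0, 1, 1], [-1, 0, 0, -1], [-1, 1, 0, 0], [0, 0, -1, -1], [1, 0, 0, 1], [0, 0, -1, 1], [0, -1, 1, 0], [0, 1, 0, 1], [-1, 0, 1, 0], [0, 1, 0, -1], [-1, -1, 0, 0], [0, 0, -1, 1], [-1, 0, 0, 1], [1, -1, -1, 1]],
[[0, 2, 0, 0], [1, -1, 0, 0], [0, 1, 1, 0], [1, 0, -1, 0], [0, -1, 0, -1], [1, 1, 1, 1], [1, -1, 0, 0], [0, -1, 1, 0], [-1, 0, -1, 0], [1, 0, 0, -1], [0, 1, 0, -1], [0, 1, 0, 1], [1, -1, -1, -1], [-1, 0, 0, -1], [0, -1, 1, 0], [0, -1, -1, 0], [1, 0, 1, 0], [1, 0, 0, -1], [-1, 0, 0, 1]],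
[[-1, 0, 1, 0], [0, -1, 0, 1], [0, 0, 1, -1], [-1, 1, -1, -1], [1, 1, -1, -1], [1, 1, 1, -1], [0, 0, 2, 2], [2, 0, 0, 0], [0, 2, -2, 0], [1, -1, -1, 1], [-1, -1, -1, 1], [1, -1, -1, -1], [2, 0, 2, 0], [0, 0, 2, 0], [-1, -1, 1, -1], [0, 0, 0, -2], [2, 0, 0, -2], [-1, 1, 1, 1], [0, 0, -2, 0]],
[[0, 0, 2, -2], [2, 2, 0, 0], [2, 0, -2, 0], [1, -1, -1, 1], [-1, -1, -1, 1], [0, 2, 0, 2], [0, 2, 0, 0], [1, 1, 1, 1], [-1, 1, 1, 1], [-1, -1, -1, -1], [-1, 1, -1, -1], [-1, 1, 1, 1], [1, 1, 1, 1], [-1, -1, 1, -1], [1, 1, -1, -1], [0, 2, 0, 0], [2, 0, 0, 0], [0, 0, 0, -2], [-1, -1, -1, 1]],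
[[1, 1, -1, 1], [-1, 1, -1, 1], [2, 0, 0, 2], [0, 2, 0, -2], [1, -1, 1, 1], [-1, 1, 1, -1], [2, 0, 0, 0], [0, -2, 0, 0], [0, 2, 2, 0], [-1, 1, -1, -1], [1, 1, -1, -1], [0, 0, -2, 0], [1, -1, 1, -1], [0, 0, 0, 2], [0, -2, 0, 0], [2, -2, 0, 0], [1, 1, 1, 1], [-1, -1, 1, 1], [1, -1, -1, 1]],
[[0, 0, 2, 0], [1, -1, 1, -1], [1, -1, 1, -1], [2, 0, 0, 0], [0, 0, 0, 2], [-1, -1, 1, -1], [-1, 2, 0, -1], [1, -2, 1, 0], [2, 1, 1, 0], [1, -1, 1, 1], [1, 1, -2, 0], [-1, 1, -1, 1], [-1, 0, -1, 0], [-1, 0, 0, -1], [0, 1, -1, -2], [2, 0, 0, 0], [2, 0, 1, -1], [0, 1, 1, -2], [1, 1, 0, -2]],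
[[-1, -1, 1, 1], [1, 0, -2, -1], [-1, 1, 0, 0], [-1, -1, -1, 1], [1, 1, -1, 1], [0, 0, -2, 0], [1, 2, 1, 0], [-1, -2, 0, -1], [0, 0, 0, 2], [0, 0, -1, -1], [0, 1, 0, -1], [0, -1, 1, 0], [-1, 0, 1, -2], [2, -1, -1, 0], [1, 0, 2, 1], [1, 0, 1, 2], [1, 0, 2, -1], [1, 2, -1, 0], [0, 2, 1, 1]],
[[2, 0, -1, 1], [0, 2, 1, -1], [2, 1, -1, 0], [-1, 0, 0, 1], [-1, 0, 1, 0], [1, -1, -1, 1], [0, -2, 0, 0], [1, -2, 0, -1], [0, 1, 2, -1], [0, 0, 1, -1], [1, 1, 0, 2], [-1, -1, -1, -1], [0, 1, 1, 0], [0, -1, 0, -1], [2, 0, 1, 1], [2, 1, 0, -1], [0, -2, 1, 1], [1, -1, 0, -2], [1, -1, -1, -1]],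
[[2, -1, 0, 1], [0, -1, 2, -1], [0, -1, -2, -1], [-1, 1, -2, 0], [-1, 0, 1, 2], [2, -1, 0, -1], [-1, 1, 2, 0], [-1, -1, 0, 0], [0, 1, -1, 2], [2, 1, -1, 0], [2, 1, 0, 1], [-1, 2, 0, 1], [-1, -1, 1, -1], [1, -1, 0, 2], [-1, -1, -1, -1], [0, 1, 0, 1], [0, 1, -1, 0], [1, 0, -2, 1], [0, -2, 0, 0]],
[[0, -2, -1, -1], [1, 0, -2, -1], [-1, 1, 2, 0], [-1, 1, 1, -1], [0, 1, 1, -2], [-1, -1, 0, 0], [1, -1, -1, -1], [1, -1, 1, 1], [0, 0, 0, -2], [2, -1, 0, -1], [2, -1, 1, 0], [0, 0, 2, 0], [0, 0, -1, 1], [-1, 0, 1, 0], [-1, 0, 0, -1], [0, -1, 2, 1], [-1, -2, 0, 1], [0, 1, -1, 2], [0, 1, -2, 1]],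
[[0, 1, 1, 2], [2, -1, 0, 1], [2, 0, 1, -1], [0, 2, -1, -1], [2, 0, -1, -1], [1, -2, 0, 1], [0, -1, -1, 0], [0, -1, 0, 1], [-1, -1, 1, 1], [2, 0, 0, 0], [2, 1, 1, 0], [1, 0, -1, -2], [0, 0, 1, 1], [-1, 1, -2, 0], [1, -1, 1, -1], [-1, 0, 0, 1], [-1, 0, -1, 0], [0, 2, -1, 1], [1, -2, -1, 0]],
[[2, 0, -1, 1], [1, 1, 2, 0], [1, 1, 1, -1], [1, 2, -1, 0], [-1, 0, -1, -2], [-1, 0, -1, 2], [1, 1, 0, 2], [0, -1, -2, 1], [1, 2, 1, 0], [1, 1, 0, -2], [-1, 1, 0, 0], [1, 0, 2, 1], [-1, -1, 0, 0], [0, -1, -1, -2], [-1, 1, 0, 0], [-1, -1, -1, -1], [1, 0, 1, -2], [0, 0, -2, 0], [-1, 2, 0, 1]],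
[[0, 2, -1, -1], [0, -2, 1, -1], [1, 1, 1, -1], [0, 1, 2, 1], [-1, -1, 2, 0], [-1, 0, 1, 0], [0, 0, 0, -2], [0, 0, 1, -1], [1, 2, 1, 0], [-1, 1, 1, -1], [1, 1, -1, -1], [1, -1, -1, -1], [2, -1, -1, 0], [1, -1, 0, 2], [1, 1, -1, 1], [0, 1, -2, 1], [2, 1, -1, 0], [1, 1, 0, 2], [-1, -2, 0, 1]],
[[-1, -1, -2, 0], [1, -1, 0, -2], [0, -1, 1, 0], [2, 0, -1, -1], [-1, 0, 0, -1], [-1, 0, -1, 0], [0, -1, 0, 1], [2, 1, 0, 1], [0, 2, 1, -1], [1, -1, -2, 0], [0, -1, -1, 2], [2, 0, 0, 0], [-1, 1, -1, -1], [2, 0, 1, 1], [-1, 0, 0, 1], [-1, 0, 1, 2], [1, -2, 1, 0], [0, 2, 0, 0], [2, 0, 1, -1]],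
[[1, 0, 2, 1], [1, -2, -1, 0], [1, 0, -2, 1], [-1, 0, 1, -2], [0, 1, -2, -1], [-1, 1, -1, 1], [1, 2, 0, 1], [0, 1, -1, -2], [2, -1, 1, 0], [0, -1, 0, -1], [1, 0, 2, -1], [0, -1, -1, 0], [2, 1, 0, -1], [2, -1, 0, 1], [0, 0, 1, 1], [-1, 0, 0, -1], [0, 1, -2, -1], [0, -1, -1, 0], [1, -1, 1, 1]],
[[2, 0, -1, -1], [-1, 1, -1, 1], [0, 1, 2, 1], [-1, -2, 0, -1], [0, 1, 1, 2], [2, 0, 0, 0], [1, -1, 2, 0], [0, -1, 1, -2], [0, 0, -1, 1], [-1, -1, 1, 1], [-1, 0, 0, 1], [2, 0, 1, 1], [1, 1, 1, -1], [1, 1, -1, 1], [0, 0, 2, 0], [0, 1, 2, -1], [1, 2, 0, -1], [0, 0, 0, 2], [1, -1, 0, -2]],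
[[1, 0, -1, 2], [0, -1, 1, 2], [2, 1, 0, 1], [2, -1, 1, 0], [1, 0, -2, -1], [0, -1, 0, -1], [1, 0, -2, 1], [0, -1, 0, 1], [-1, 1, 0, 0], [-1, -1, 0, 0], [1, -1, 0, 2], [2, 1, 1, 0], [1, 0, 2, -1], [2, 1, 0, -1], [-1, 1, 1, -1], [0, 2, 0, 0], [-1, 2, 0, -1], [-1, 0, 1, 0], [-1, -1, 2, 0]],
[[0, 2, 1, 1], [1, 1, 1, 1], [2, -1, -1, 0], [1, -2, 1, 0], [-1, -1, -2, 0], [-1, 0, -1, 2], [1, 1, 0, -2], [0, 2, -1, 1], [-1, 1, 1, 1], [-1, 0, -1, -2], [1, 2, -1, 0], [1, -2, -1, 0], [0, 0, -1, -1], [2, -1, 0, -1], [-1, 0, -1, 0], [2, 0, -1, 1], [0, -2, -1, 1], [0, -1, 1, 0]]]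

/-- Coefficients of the golden ratio in the coordinates. -/
def coB : List (List (List Int)) := [
[[1, 0, 0, 1], [1, 0, 1, 0], [0, -1, -1, 0], [0, 0, 0, 0], [0, 0, 1, 1], [0, 0, 0, 0], [1, 0, 1, 0], [1, 0, 0, 1], [1, 0, 0, 1], [0, 0, 0, 0], [0, 0, -1, 1], [1, 0, 0, 1], [0, 0, -1, 1], [0, 0, 0, 0], [1, 0, 0, -1], [1, -1, 0, 0], [0, 0, 0, 0], [0, 0, 0, 0], [0, 0, 0, 0]],
[[0, 1, 0, -1], [0, -1, 1, 0], [0, 0, 0, 0], [0, 0, -1, -1], [0, 1, 0, -1], [0, 1, -1, 0], [1, 0, -1, 0], [1, 0, 0, -1], [0, 1, 1, 0], [0, -1, 0, -1], [0, 1, 1, 0], [0, 1, 0, -1], [1, -1, 0, 0], [1, 1, 0, 0], [1, -1, 0, 0], [1, 0, 0, -1], [1, 0, 0, -1], [1, 0, -1, 0], [0, 0, 0, 0]],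
[[0, 0, 0, 0], [0, 1, -1, 0], [1, 0, -1, 0], [0, 0, 1, -1], [1, 1, 0, 0], [0, 0, 0, 0], [0, 1, 1, 0], [0, 1, 0, 1], [1, 1, 0, 0], [0, -1, 0, 1], [0, 0, 1, 1], [0, 0, 1, -1], [0, 0, 0, 0], [1, 0, 1, 0], [1, 0, -1, 0], [0, 1, 0, 1], [0, 0, -1, -1], [0, 1, 0, 1], [1, 0, 1, 0]],
[[1, -1, 0, 0], [1, 1, 0, 0], [0, 1, -1, 0], [1, 1, 1, 1], [0, 0, 2, 0], [1, -1, -1, 1], [0, 0, 0, 0], [-1, 1, 1, 1], [0, 0, 0, 0], [0, 0, 2, 0], [1, 1, 1, 1], [1, 1, 1, 1], [0, 0, 0, 0], [1, 1, -1, 1], [1, 1, 1, 1], [1, 1, -1, 1], [0, 0, 0, 0], [1, -1, 1, -1], [1, -1, 1, 1]],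
[[0, 0, 0, 0], [0, 0, 0, 0], [0, 0, 0, 0], [0, 0, 0, -2], [1, 1, -1, -1], [0, 0, 0, 0], [1, -1, -1, -1], [0, 0, 0, -2], [1, 1, -1, -1], [2, 0, 0, 0], [1, -1, 1, -1], [1, -1, -1, 1], [0, -2, 0, 0], [1, -1, -1, 1], [0, 0, 0, 2], [1, -1, 1, 1], [-1, -1, -1, 1], [1, -1, 1, 1], [1, -1, 1, -1]],
[[1, -1, 1, -1], [2, 0, 0, 0], [0, 0, 0, 0], [0, 0, 0, 0], [1, 1, -1, -1], [2, 0, 0, 0], [-1, -1, 1, -1], [1, 1, 1, -1], [0, 0, 0, 0], [1, -1, -1, 1], [0, -2, 0, 0], [1, 1, 1, -1], [0, 0, 0, 2], [1, -1, -1, -1], [1, 1, -1, 1], [0, 0, 0, 0], [0, 0, -2, 0], [2, 0, 0, 0], [0, 2, 0, 0]],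
[[1, -1, -1, -1], [0, 2, 0, 0], [0, 0, -2, 0], [-1, 1, -1, -1], [1, 1, 1, -1], [1, 1, -1, -1], [1, 0, -1, 0], [0, 0, -1, 1], [0, -1, 0, -1], [0, 2, 0, 0], [0, 1, 1, 0], [1, -1, -1, -1], [1, 1, 2, 0], [2, 1, 0, 1], [1, 0, 1, 0], [-1, 1, 1, -1], [0, 1, -1, 0], [0, 1, 0, 1], [0, -1, -1, 0]],
[[1, 1, -1, 1], [0, -1, 0, 1], [2, -1, 1, 0], [2, 0, 0, 0], [0, 0, 0, -2], [1, -1, 1, -1], [0, 0, -1, 1], [1, 0, -1, 0], [1, 1, -1, -1], [0, 1, 1, 2], [1, -1, 0, 2], [0, 1, -2, -1], [1, -1, 0, 0], [0, 1, 0, 1], [1, 0, -1, 0], [0, 0, 1, -1], [0, -1, 0, 1], [1, -1, 0, 0], [1, 0, 0, -1]],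
[[0, -1, 1, 0], [0, -1, 1, 0], [-1, 0, -1, 0], [1, 0, 1, -2], [2, 0, -1, -1], [1, 1, 1, -1], [1, 1, 1, 1], [0, 1, 0, -1], [0, 0, -1, -1], [1, 0, -2, 1], [0, -1, -1, 0], [1, -1, 1, 1], [1, -2, -1, 0], [0, 2, -1, 1], [-1, 0, 0, 1], [0, 0, 1, 1], [1, 0, 0, -1], [1, 0, 0, 1], [0, 0, 2, 0]],
[[0, 0, -1, -1], [1, 1, 0, 0], [1, 1, 0, 0], [1, 0, 0, 1], [1, -1, 0, 0], [-1, -1, 0, 0], [1, 0, 0, 1], [1, 2, 0, -1], [1, 0, 1, 0], [0, -1, 0, 1], [0, 0, -1, -1], [1, 0, 1, 0], [2, 0, 0, 0], [1, 0, 0, -1], [1, 1, 1, -1], [1, -1, 0, -2], [1, -2, 1, 0], [0, -1, 0, -1], [1, 1, -1, -1]],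
[[1, 0, 0, 1], [1, 0, 1, 0], [1, 0, 0, -1], [1, -1, 1, 1], [1, 0, -1, 0], [1, 2, 0, 1], [0, 2, 0, 0], [0, 0, -2, 0], [1, 1, 1, 1], [0, 0, 1, 1], [0, 1, 0, -1], [1, -1, -1, 1], [1, 0, 2, -1], [1, 1, -2, 0], [1, 0, -1, 2], [1, 1, 0, 0], [1, 0, 1, 0], [0, 1, 0, -1], [0, 0, 1, 1]],
[[1, 0, -1, 0], [-1, -1, 0, 0], [0, -1, -1, 0], [1, 0, 0, 1], [-1, 0, 0, -1], [0, 1, 0, 1], [0, 1, 2, 1], [0, 2, 1, -1], [1, -1, -1, -1], [-1, 1, -1, 1], [-1, 0, 1, 0], [0, 0, -1, 1], [0, 1, -1, -2], [1, 0, 0, -1], [1, 1, -1, 1], [2, 1, 0, -1], [2, 0, 1, 1], [0, -1, -1, 0], [0, 0, 1, -1]],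
[[0, 1, 1, 0], [0, 1, -1, 0], [0, 0, 0, 2], [0, 0, 1, -1], [1, -1, 0, 0], [1, -1, 0, 0], [0, -1, 1, 0], [1, 1, 0, 0], [1, -1, 0, 0], [0, -1, 1, 0], [2, -1, -1, 0], [0, -1, 0, -1], [2, 1, 1, 0], [1, 0, 1, 0], [1, -2, 0, 1], [1, 1, -1, 1], [0, 0, 1, 1], [1, 1, 1, 1], [1, 0, -1, 0]],
[[0, -1, -1, 0], [1, 0, 0, 1], [0, -2, 0, 0], [1, -1, 0, 0], [1, 0, 0, -1], [2, 0, -1, 1], [1, -1, -1, 1], [0, 1, -1, 2], [0, 0, -1, -1], [1, -1, -1, -1], [1, -1, 1, 1], [0, 0, 0, 2], [-1, 0, -1, 0], [0, 1, -1, 0], [0, 0, 2, 0], [1, -1, 0, 0], [0, -1, 0, -1], [1, 0, 0, -1], [1, 0, -1, 0]],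
[[1, 0, 0, -1], [0, 1, -1, 0], [1, 2, -1, 0], [0, 1, 1, 0], [1, 0, 1, 2], [1, -1, 2, 0], [1, 1, 0, -2], [-1, 1, 0, 0], [1, 0, 0, 1], [0, -1, 1, 0], [1, 0, 1, 0], [-1, -1, 1, 1], [2, 0, 0, 0], [0, -1, -1, 0], [2, -1, 0, -1], [1, 1, 0, 0], [0, 0, -1, -1], [1, -1, 1, -1], [-1, 0, 0, -1]],
[[0, 1, 0, -1], [1, 1, 0, 0], [0, 1, 0, -1], [1, 1, 0, 0], [0, 0, 1, -1], [1, 1, 1, -1], [0, -1, 0, 1], [0, 1, 0, 1], [0, 1, 0, 1], [0, 2, 1, 1], [1, 0, -1, 0], [0, 1, 2, -1], [0, 0, -1, 1], [0, 0, 1, -1], [1, 0, -2, -1], [2, -1, 0, 1], [1, -1, 0, 0], [1, 2, 1, 0], [0, 0, 0, -2]],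
[[0, -1, 1, 0], [1, -1, 1, 1], [0, 0, -1, 1], [1, 0, 1, 0], [0, 1, 0, -1], [-1, -1, -1, -1], [0, -1, -1, 0], [1, 0, -1, 0], [0, 1, 1, -2], [1, 1, 1, -1], [1, 0, -1, -2], [0, 1, -1, 0], [0, 0, -2, 0], [0, -2, 0, 0], [1, 1, -1, -1], [1, -1, 0, 0], [0, -1, 0, -1], [1, -1, 1, -1], [0, 1, 1, 0]],
[[0, 0, -1, -1], [1, 0, -1, 0], [0, 0, 1, -1], [-1, 0, 1, 0], [0, 1, 0, 1], [1, 1, 0, 2], [1, 0, 1, 0], [0, 2, -1, -1], [1, -2, 0, -1], [2, 1, -1, 0], [0, 1, 1, 0], [0, -1, 0, 1], [0, 1, 0, 1], [-1, 1, 0, 0], [1, 1, -1, 1], [1, -1, -1, 1], [1, 0, 1, 0], [1, -1, -2, 0], [1, 0, 0, 1]],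
[[0, -1, 1, 0], [1, -1, -1, -1], [0, 1, 0, -1], [1, 1, 0, 0], [1, 0, 0, 1], [1, 1, 0, 0], [1, 0, 0, 1], [1, 0, 0, -1], [2, 0, 0, 0], [1, 1, 0, 0], [0, 0, 1, 1], [0, 0, 1, 1], [1, 0, 2, 1], [0, 0, -1, 1], [2, 0, 1, -1], [-1, 0, 0, 1], [1, 0, 0, -1], [0, 1, -2, 1]]]

/-- Rational part of coordinate `i` of vector `v`. -/
noncomputable def gA (v i : Nat) : Int :=
  nth 0 (nth List.nil (nth List.nil coA (Nat.div v 19)) (Nat.mod v 19)) i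

/-- Golden ratio part of coordinate `i` of vector `v`. -/
noncomputable def gB (v i : Nat) : Int :=
  nth 0 (nth List.nil (nth List.nil coB (Nat.div v 19)) (Nat.mod v 19)) i

/-- Rational part of the inner product. -/
noncomputable def ipA (v u : Nat) : Int :=
  (gA v 0 * gA u 0 + gB v 0 * gB u 0) + (gA v 1 * gA u 1 + gB v 1 * gB u 1) +
  (gA v 2 * gA u 2 + gB v 2 * gB u 2) + (gA v 3 * gA u 3 + gB v 3 * gB u 3)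

/-- Golden ratio part of the inner product. -/
noncomputable def ipB (v u : Nat) : Int :=
  (gA v 0 * gB u 0 + gB v 0 * gA u 0 + gB v 0 * gB u 0) +
  (gA v 1 * gB u 1 + gB v 1 * gA u 1 + gB v 1 * gB u 1) +
  (gA v 2 * gB u 2 + gB v 2 * gA u 2 + gB v 2 * gB u 2) +
  (gA v 3 * gB u 3 + gB v 3 * gA u 3 + gB v 3 * gB u 3)

/-- All adjacent pairs are orthogonal. -/
noncomputable def orthOk : Bool :=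
  allLt (fun v => allL (fun u => decide (ipA v u = 0) && decide (ipB v u = 0)) (nb v)) 360

theorem orthOk_true : orthOk = true := by decide +kernel

/-- All squared norms are positive integers. -/
noncomputable def normOk : Bool :=
  allLt (fun v => decide (0 < ipA v v) && decide (ipB v v = 0)) 360

theorem normOk_true : normOk = true := by decide +kernel

theorem orth {v u : Nat} (h : (nm v).testBit (6 * u) = true) : ipA v u = 0 ∧ ipB v u = 0 := by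
  have h2 := allLt_sound _ _ orthOk_true v (adj_lt h).1
  have h3 := allL_sound _ _ h2 _ (mem_nb h)
  rw [Bool.and_eq_true, decide_eq_true_iff, decide_eq_true_iff] at h3
  exact h3

theorem nrm {v : Nat} (h : v < 360) : 0 < ipA v v ∧ ipB v v = 0 := by
  have h2 := allLt_sound _ _ normOk_true v h
  rw [Bool.and_eq_true, decide_eq_true_iff, decide_eq_true_iff] at h2
  exact h2

end Pool.Agent.OrthoChi
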