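import Mathlib

/-!
# Distance graphs on spheres: basic facts
-/

namespace Pool.Agent.OrthoChi

/-- The graph on a set `X` of points of `ℝ^d` in which two distinct points are adjacent when their
distance is exactly `δ`. -/
def distGraph {d : ℕ} (X : Set (EuclideanSpace ℝ (Fin d))) (δ : ℝ) : SimpleGraph X where
  Adj x y := x ≠ y ∧ dist (x : EuclideanSpace ℝ (Fin d)) (y : EuclideanSpace ℝ (Fin d)) = δ
  symm := ⟨fun x y h => ⟨h.1.symm, by rw [dist_comm]; exact h.2⟩⟩
  loopless := ⟨fun x h => h.1 rfl⟩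

/-- `χ(X, δ)`: the least number of colours in a colouring of all points of `X` in which points at
distance exactly `δ` get different colours (`⊤` if no finite number suffices). -/
noncomputable def chi {d : ℕ} (X : Set (EuclideanSpace ℝ (Fin d))) (δ : ℝ) : ℕ∞ :=
  (distGraph X δ).chromaticNumber

/-- The unit sphere of `ℝ^d`. -/
abbrev S (d : ℕ) : Set (EuclideanSpace ℝ (Fin d)) := Metric.sphere 0 1

theorem norm_S {d : ℕ} (x : S d) : ‖(x : EuclideanSpace ℝ (Fin d))‖ = 1 := by
  have := x.2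
  rwa [mem_sphere_zero_iff_norm] at this

theorem dist_sq_S {d : ℕ} (x y : S d) :
    dist (x : EuclideanSpace ℝ (Fin d)) (y : EuclideanSpace ℝ (Fin d)) ^ 2 =
      2 - 2 * inner ℝ (x : EuclideanSpace ℝ (Fin d)) (y : EuclideanSpace ℝ (Fin d)) := by
  rw [dist_eq_norm, norm_sub_sq_real, norm_S x, norm_S y]
  ring

theorem adj_iff {d : ℕ} (x y : S d) : (distGraph (S d) (Real.sqrt 2)).Adj x y ↔
    inner ℝ (x : EuclideanSpace ℝ (Fin d)) (y : EuclideanSpace ℝ (Fin d)) = 0 := by
  constructor
  · rintro ⟨_, h⟩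
    have h1 := dist_sq_S x y
    rw [h, Real.sq_sqrt (by norm_num)] at h1
    linarith
  · intro h
    have h1 := dist_sq_S x y
    rw [h] at h1
    refine ⟨?_, ?_⟩
    · rintro rfl
      rw [real_inner_self_eq_norm_sq, norm_S x] at h
      norm_num at h
    · rw [← Real.sqrt_sq (dist_nonneg (x := (x : EuclideanSpace ℝ (Fin d)))
        (y := (y : EuclideanSpace ℝ (Fin d)))), h1]
      norm_num

/-- Every colouring of the graph uses at least `m` colours. -/
def LB (d m : ℕ) : Prop :=
  ∀ (C : S d → ℕ) (s : Finset ℕ), (∀ x, C x ∈ s) →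
    (∀ x y : S d, inner ℝ (x : EuclideanSpace ℝ (Fin d)) (y : EuclideanSpace ℝ (Fin d)) = 0 →
      C x ≠ C y) → m ≤ s.card

theorem LB_chi {d m : ℕ} (h : LB d m) : (m : ℕ∞) ≤ chi (S d) (Real.sqrt 2) := by
  unfold chi
  by_contra hcon
  rw [not_le] at hcon
  -- colourable with fewer colours
  have hne : (distGraph (S d) (Real.sqrt 2)).chromaticNumber ≠ ⊤ := ne_top_of_lt hcon
  obtain ⟨n, hn⟩ := ENat.ne_top_iff_exists.1 hne
  rw [← hn] at hcon
  have hnm : n < m := by exact_mod_cast hcon
  have hcol : (distGraph (S d) (Real.sqrt 2)).Colorable n := by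
    rw [← SimpleGraph.chromaticNumber_le_iff_colorable, ← hn]
  obtain ⟨C⟩ := hcol
  have := h (fun x => (C x : ℕ)) (Finset.range n) (fun x => Finset.mem_range.2 (C x).2)
    (fun x y hxy hc => C.valid ((adj_iff x y).2 hxy) (Fin.ext hc))
  rw [Finset.card_range] at this
  omega

theorem LB_zero (d : ℕ) : LB d 0 := fun _ _ _ _ => Nat.zero_le _

/-- Embedding of the first block of coordinates. -/
noncomputable def embL (a b : ℕ) (x : S a) : S (a + b) :=
  ⟨WithLp.toLp 2 (Fin.append (x : EuclideanSpace ℝ (Fin a)).ofLp (fun _ : Fin b => (0 : ℝ))), by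
    rw [mem_sphere_zero_iff_norm, EuclideanSpace.norm_eq, Fin.sum_univ_add]
    have h := norm_S x
    rw [EuclideanSpace.norm_eq] at h
    simpa using h⟩

/-- Embedding of the last block of coordinates. -/
noncomputable def embR (a b : ℕ) (x : S b) : S (a + b) :=
  ⟨WithLp.toLp 2 (Fin.append (fun _ : Fin a => (0 : ℝ)) (x : EuclideanSpace ℝ (Fin b)).ofLp), by
    rw [mem_sphere_zero_iff_norm, EuclideanSpace.norm_eq, Fin.sum_univ_add]
    have h := norm_S x
    rw [EuclideanSpace.norm_eq] at h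
    simpa using h⟩

theorem inner_LL (a b : ℕ) (x y : S a) :
    inner ℝ (embL a b x : EuclideanSpace ℝ (Fin (a + b))) (embL a b y) =
      inner ℝ (x : EuclideanSpace ℝ (Fin a)) y := by
  simp [embL, PiLp.inner_apply, Fin.sum_univ_add]

theorem inner_RR (a b : ℕ) (x y : S b) :
    inner ℝ (embR a b x : EuclideanSpace ℝ (Fin (a + b))) (embR a b y) =
      inner ℝ (x : EuclideanSpace ℝ (Fin b)) y := by
  simp [embR, PiLp.inner_apply, Fin.sum_univ_add]

theorem inner_LR (a b : ℕ) (x : S a) (y : S b) :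
    inner ℝ (embL a b x : EuclideanSpace ℝ (Fin (a + b))) (embR a b y) = 0 := by
  simp [embL, embR, PiLp.inner_apply, Fin.sum_univ_add]

theorem LB_add {a b m n : ℕ} (ha : LB a m) (hb : LB b n) : LB (a + b) (m + n) := by
  classical
  intro C s hs hC
  have h1 := ha (fun x => C (embL a b x)) (s.filter (fun c => ∃ x, C (embL a b x) = c))
    (fun x => Finset.mem_filter.2 ⟨hs _, x, rfl⟩)
    (fun x y hxy => hC _ _ (by rw [inner_LL]; exact hxy))
  have h2 := hb (fun x => C (embR a b x)) (s.filter (fun c => ∃ x, C (embR a b x) = c))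
    (fun x => Finset.mem_filter.2 ⟨hs _, x, rfl⟩)
    (fun x y hxy => hC _ _ (by rw [inner_RR]; exact hxy))
  have hd : Disjoint (s.filter (fun c => ∃ x, C (embL a b x) = c))
      (s.filter (fun c => ∃ x, C (embR a b x) = c)) := by
    rw [Finset.disjoint_left]
    intro c hc1 hc2
    obtain ⟨_, x, hx⟩ := Finset.mem_filter.1 hc1
    obtain ⟨_, y, hy⟩ := Finset.mem_filter.1 hc2
    exact hC _ _ (inner_LR a b x y) (hx.trans hy.symm)
  have h3 := Finset.card_union_of_disjoint hd
  have h4 : (s.filter (fun c => ∃ x, C (embL a b x) = c) ∪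
      s.filter (fun c => ∃ x, C (embR a b x) = c)).card ≤ s.card :=
    Finset.card_le_card (Finset.union_subset (Finset.filter_subset _ _)
      (Finset.filter_subset _ _))
  omega

theorem LB_one : LB 1 1 := by
  intro C s hs _
  have x : S 1 := ⟨EuclideanSpace.single 0 1, by simp⟩
  exact Finset.card_pos.2 ⟨_, hs x⟩

end Pool.Agent.OrthoChi
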