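import Pool.Agent.H.MP_ef93d4_co.Base
import Pool.Agent.H.MP_ef93d4_co.Coords
import Pool.Agent.H.MP_ef93d4_co.Geom

/-!
# Lower bound: the unit sphere of four-space needs seven colours
-/

namespace Pool.Agent.OrthoChi

open Real

/-- The vector spanning ray number `v`. -/
noncomputable def vec (v : ℕ) : EuclideanSpace ℝ (Fin 4) :=
  WithLp.toLp 2 (fun i => (gA v i : ℝ) + (gB v i : ℝ) * goldenRatio)

theorem inner_vec (v u : ℕ) :
    inner ℝ (vec v) (vec u) = (ipA v u : ℝ) + (ipB v u : ℝ) * goldenRatio := by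
  have h : goldenRatio * goldenRatio = goldenRatio + 1 := by
    rw [← sq]; exact goldenRatio_sq
  simp only [vec, PiLp.inner_apply, RCLike.inner_apply, conj_trivial, Fin.sum_univ_four]
  unfold ipA ipB
  push_cast
  have e0 : ((0 : Fin 4) : ℕ) = 0 := rfl
  have e1 : ((1 : Fin 4) : ℕ) = 1 := rfl
  have e2 : ((2 : Fin 4) : ℕ) = 2 := rfl
  have e3 : ((3 : Fin 4) : ℕ) = 3 := rfl
  rw [e0, e1, e2, e3]
  linear_combination ((gB v 0 : ℝ) * gB u 0 + gB v 1 * gB u 1 + gB v 2 * gB u 2 +
    gB v 3 * gB u 3) * h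

theorem vec_ne {v : ℕ} (hv : v < 360) : vec v ≠ 0 := by
  intro h0
  have h1 := inner_vec v v
  obtain ⟨h2, h3⟩ := nrm hv
  rw [h0, inner_zero_left, h3] at h1
  have h4 : (0 : ℝ) < (ipA v v : ℝ) := by exact_mod_cast h2
  simp at h1
  rw [← h1] at h4
  exact lt_irrefl _ h4

/-- The unit vector on ray number `v`. -/
noncomputable def uvec (v : ℕ) (hv : v < 360) : S 4 :=
  ⟨‖vec v‖⁻¹ • vec v, by
    rw [mem_sphere_zero_iff_norm, norm_smul, norm_inv, norm_norm]
    exact inv_mul_cancel₀ (norm_ne_zero_iff.2 (vec_ne hv))⟩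

theorem LB_four : LB 4 7 := by
  intro C s hs hC
  by_contra hcard
  -- rename the colours to 0, ..., 5
  have h6 : s.card ≤ 6 := by omega
  let e := s.equivFin
  let f : ℕ → ℕ := fun v => if hv : v < 360 then (e ⟨C (uvec v hv), hs _⟩ : ℕ) else 0
  have hpos : 0 < s.card := Finset.card_pos.2 ⟨_, hs (uvec 0 (by norm_num))⟩
  have hf : IsCol f := by
    refine ⟨fun v => ?_, fun v u h => ?_⟩
    · by_cases hv : v < 360
      · simp only [f, dif_pos hv]
        exact lt_of_lt_of_le (e _).2 h6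
      · simp only [f, dif_neg hv]
        norm_num
    · obtain ⟨hv, hu⟩ := adj_lt h
      simp only [f, dif_pos hv, dif_pos hu]
      intro heq
      have h1 : (⟨C (uvec v hv), hs _⟩ : s) = ⟨C (uvec u hu), hs _⟩ := e.injective (Fin.ext heq)
      have h2 : C (uvec v hv) = C (uvec u hu) := congrArg Subtype.val h1
      refine hC (uvec v hv) (uvec u hu) ?_ h2
      obtain ⟨ha, hb⟩ := orth h
      change inner ℝ (‖vec v‖⁻¹ • vec v) (‖vec u‖⁻¹ • vec u) = 0
      rw [inner_smul_left, inner_smul_right, inner_vec, ha, hb]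
      simp
  exact no_col6 f hf

theorem LB_general (d : ℕ) : LB d (7 * (d / 4) + d % 4) := by
  induction d using Nat.strong_induction_on with
  | _ d ih =>
    rcases Nat.lt_or_ge d 4 with h | h
    · have hq : 7 * (d / 4) + d % 4 = d := by omega
      rw [hq]
      clear hq ih
      induction d with
      | zero => exact LB_zero 0
      | succ d ihd => exact LB_add (ihd (by omega)) LB_one
    · obtain ⟨e, rfl⟩ : ∃ e, d = e + 4 := ⟨d - 4, by omega⟩
      have h1 := LB_add (ih e (by omega)) LB_four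
      have hq : 7 * (e / 4) + e % 4 + 7 = 7 * ((e + 4) / 4) + (e + 4) % 4 := by omega
      rwa [hq] at h1

end Pool.Agent.OrthoChi
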