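import Pool.Agent.H.MP_ef93d4_co.SymData
import Pool.Agent.H.MP_ef93d4_co.NbData

/-!
# Symmetry reduction

If every proper 6-colouring had a monochromatic image of one of the fourteen base sets, then
(because some colour class has at least 10 elements among the first 60 rays) it would be enough to
refute the fourteen cases. This file checks the chain of orbit representatives.
-/

set_option maxRecDepth 100000

namespace Pool.Agent.OrthoChi

/-- Apply the generator `g` to the vertex `v`. -/
noncomputable def app (g v : Nat) : Nat :=
  nth 0 (nth List.nil (nth List.nil gens g) (Nat.div v 19)) (Nat.mod v 19)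

/-- Apply a word in the generators. -/
noncomputable def act (w : List Nat) (x : Nat) : Nat :=
  @List.rec Nat (fun _ => Nat) x (fun g _ ih => force ih (fun y => app g y)) w

theorem act_nil (x : Nat) : act [] x = x := rfl

theorem act_cons (g : Nat) (w : List Nat) (x : Nat) : act (g :: w) x = app g (act w x) :=
  force_eq (act w x) (fun y => app g y)

/-- Bit test with kernel-accelerated operations. -/
noncomputable def tb (N p : Nat) : Bool := Nat.beq (Nat.land (Nat.shiftRight N p) 1) 1

theorem tb_eq (N p : Nat) : tb N p = N.testBit p := by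
  unfold tb
  change Nat.beq ((N >>> p) &&& 1) 1 = _
  rw [Nat.and_one_is_mod, Nat.testBit_eq_decide_div_mod_eq, Nat.shiftRight_eq_div_pow]
  by_cases h : N / 2 ^ p % 2 = 1
  · rw [h]; simp
  · simp only [h, decide_false]
    cases hb : Nat.beq (N / 2 ^ p % 2) 1 with
    | false => rfl
    | true => exact absurd (Nat.eq_of_beq_eq_true hb) h

/-- Bounded universal quantifier. -/
noncomputable def allLt (P : Nat → Bool) (n : Nat) : Bool :=
  @Nat.rec (fun _ => Bool) true (fun m ih => @Bool.rec (fun _ => Bool) false ih (P m)) n

theorem allLt_sound (P : Nat → Bool) (n : Nat) (h : allLt P n = true) : ∀ m < n, P m = true := by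
  induction n with
  | zero => intro m hm; omega
  | succ n ih =>
    change @Bool.rec (fun _ => Bool) false (allLt P n) (P n) = true at h
    cases hP : P n with
    | false => rw [hP] at h; exact absurd h (by change ¬ (false = true); simp)
    | true =>
      rw [hP] at h
      have h' : allLt P n = true := h
      intro m hm
      rcases Nat.lt_succ_iff_lt_or_eq.1 hm with h1 | h1
      · exact ih h' m h1
      · rw [h1]; exact hP

theorem nth_default {α : Type} (d : α) (L : List α) (n : Nat) (h : L.length ≤ n) :
    nth d L n = d := by
  induction L generalizing n with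
  | nil => rfl
  | cons x L ih =>
    cases n with
    | zero => simp at h
    | succ m =>
      have : L.length ≤ m := by simpa using h
      exact ih m this

theorem nm_big (v : Nat) (h : 360 ≤ v) : nm v = 0 := by
  have hl : tab.length = 19 := by decide +kernel
  rcases Nat.lt_or_ge v 361 with h1 | h1
  · have : v = 360 := by omega
    subst this
    have : Nat.beq (nm 360) 0 = true := by decide +kernel
    exact Nat.eq_of_beq_eq_true this
  · have h2 : nth List.nil tab (Nat.div v 19) = List.nil := by
      apply nth_default
      rw [hl]
      change 19 ≤ v / 19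
      omega
    unfold nm
    rw [h2]
    rfl

theorem adj_lt {v u : Nat} (h : (nm v).testBit (6 * u) = true) : v < 360 ∧ u < 360 := by
  constructor
  · by_contra hv
    rw [nm_big v (by omega)] at h
    simp at h
  · by_contra hu
    rw [← nm_land_pat v, Nat.testBit_and, Bool.and_eq_true] at h
    have : pat.testBit (6 * u) = false :=
      Nat.testBit_lt_two_pow (lt_of_lt_of_le pat_lt (Nat.pow_le_pow_right (by norm_num) (by omega)))
    rw [this] at h
    simp at h

/-- The list of neighbours of `v`. -/
noncomputable def nb (v : Nat) : List Nat :=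
  nth List.nil (nth List.nil nbT (Nat.div v 19)) (Nat.mod v 19)

/-- The number with bit `6 * u` set for all `u` in the list. -/
noncomputable def maskOf (l : List Nat) : Nat :=
  @List.rec Nat (fun _ => Nat) 0 (fun u _ ih => Nat.lor (Nat.shiftLeft 1 (Nat.mul 6 u)) ih) l

theorem maskOf_mem (l : List Nat) (u : Nat) (h : (maskOf l).testBit (6 * u) = true) : u ∈ l := by
  induction l with
  | nil => exact absurd h (by change ¬ ((0 : Nat).testBit (6 * u) = true); simp)
  | cons x l ih =>
    change ((1 <<< (6 * x)) ||| maskOf l).testBit (6 * u) = true at h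
    rw [Nat.testBit_or, Bool.or_eq_true] at h
    rcases h with h | h
    · rw [Nat.one_shiftLeft, Nat.testBit_two_pow, decide_eq_true_iff] at h
      have : u = x := by omega
      rw [this]
      exact List.mem_cons_self
    · exact List.mem_cons_of_mem _ (ih h)

theorem nbOk : allLt (fun v => Nat.beq (maskOf (nb v)) (nm v)) 360 = true := by decide +kernel

theorem mem_nb {v u : Nat} (h : (nm v).testBit (6 * u) = true) : u ∈ nb v := by
  have h1 := allLt_sound _ _ nbOk v (adj_lt h).1
  apply maskOf_mem
  rw [Nat.eq_of_beq_eq_true h1]
  exact h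

/-- Test a property for all entries of a list. -/
noncomputable def allL (P : Nat → Bool) (l : List Nat) : Bool :=
  @List.rec Nat (fun _ => Bool) true (fun u _ ih => @Bool.rec (fun _ => Bool) false ih (P u)) l

theorem allL_sound (P : Nat → Bool) (l : List Nat) (h : allL P l = true) :
    ∀ u ∈ l, P u = true := by
  induction l with
  | nil => intro u hu; simp at hu
  | cons x l ih =>
    change @Bool.rec (fun _ => Bool) false (allL P l) (P x) = true at h
    cases hP : P x with
    | false => rw [hP] at h; exact absurd h (by change ¬ (false = true); simp)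
    | true =>
      rw [hP] at h
      have h' : allL P l = true := h
      intro u hu
      rcases List.mem_cons.1 hu with rfl | hu
      · exact hP
      · exact ih h' u hu

/-- The generator `g` preserves adjacency. -/
noncomputable def adjOk (g : Nat) : Bool :=
  allLt (fun v => allL (fun u => force (app g u) (fun y =>
    tb (nm (app g v)) (Nat.mul 6 y))) (nb v)) 360

theorem adjOk_all : allLt adjOk 7 = true := by decide +kernel

theorem app_adj {g : Nat} (hg : g < 7) {v u : Nat} (h : (nm v).testBit (6 * u) = true) :
    (nm (app g v)).testBit (6 * app g u) = true := by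
  have h1 := allLt_sound _ _ adjOk_all g hg
  have h2 := allLt_sound _ _ h1 v (adj_lt h).1
  have h3 := allL_sound _ _ h2 _ (mem_nb h)
  simp only [force_eq, tb_eq] at h3
  exact h3

/-- The generators permute the first 60 vertices and are involutions there. -/
noncomputable def invOk (g : Nat) : Bool :=
  allLt (fun v => force (app g v) (fun y => @Bool.rec (fun _ => Bool) false
    (Nat.beq (app g y) v) (Nat.blt y 60))) 60

theorem invOk_all : allLt invOk 7 = true := by decide +kernel

theorem app_inv {g : Nat} (hg : g < 7) {v : Nat} (hv : v < 60) :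
    app g v < 60 ∧ app g (app g v) = v := by
  have h1 := allLt_sound _ _ invOk_all g hg
  have h2 := allLt_sound _ _ h1 v hv
  simp only [force_eq] at h2
  cases hb : Nat.blt (app g v) 60 with
  | false => rw [hb] at h2; exact absurd h2 (by change ¬ (false = true); simp)
  | true =>
    rw [hb] at h2
    refine ⟨?_, Nat.eq_of_beq_eq_true h2⟩
    have : Nat.ble ((app g v) + 1) 60 = true := hb
    exact Nat.le_of_ble_eq_true this

/-- The colour `c` occurs at least 10 times among the first 60 vertices. -/
def Big (f : Nat → Nat) (c : Nat) : Prop :=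
  10 ≤ ((Finset.range 60).filter (fun x => f x = c)).card

theorem col_app {f : Nat → Nat} (hf : IsCol f) {g : Nat} (hg : g < 7) :
    IsCol (fun x => f (app g x)) :=
  ⟨fun v => hf.1 _, fun v u h => hf.2 _ _ (app_adj hg h)⟩

theorem big_app {f : Nat → Nat} {c : Nat} (hb : Big f c) {g : Nat} (hg : g < 7) :
    Big (fun x => f (app g x)) c := by
  unfold Big at *
  refine le_trans hb (Finset.card_le_card_of_injOn (app g) ?_ ?_)
  · intro y hy
    rw [Finset.mem_coe, Finset.mem_filter, Finset.mem_range] at hy
    rw [Finset.mem_coe, Finset.mem_filter, Finset.mem_range]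
    obtain ⟨h1, h2⟩ := app_inv hg hy.1
    exact ⟨h1, by change f (app g (app g y)) = c; rw [h2]; exact hy.2⟩
  · intro x hx y hy hxy
    rw [Finset.mem_coe, Finset.mem_filter, Finset.mem_range] at hx hy
    have h1 := (app_inv hg hx.1).2
    have h2 := (app_inv hg hy.1).2
    have hxy' : app g x = app g y := hxy
    rw [← h1, ← h2, hxy']

theorem col_act (w : List Nat) (hw : ∀ g ∈ w, g < 7) : ∀ {f : Nat → Nat}, IsCol f →
    IsCol (fun x => f (act w x)) := by
  induction w with
  | nil => intro f hf; exact hf
  | cons g w ih =>
    intro f hf
    have h1 := ih (fun g' hg' => hw g' (List.mem_cons_of_mem _ hg'))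
      (col_app hf (hw g List.mem_cons_self))
    simpa only [act_cons] using h1

theorem big_act (w : List Nat) (hw : ∀ g ∈ w, g < 7) {c : Nat} : ∀ {f : Nat → Nat}, Big f c →
    Big (fun x => f (act w x)) c := by
  induction w with
  | nil => intro f hf; exact hf
  | cons g w ih =>
    intro f hf
    have h1 := ih (fun g' hg' => hw g' (List.mem_cons_of_mem _ hg'))
      (big_app hf (hw g List.mem_cons_self))
    simpa only [act_cons] using h1

/-- No proper colouring with a big class is constant on `S` with the colour of this class. -/
def Ext (S : List Nat) : Prop := ∀ f, IsCol f → ∀ c, Big f c → (∀ x ∈ S, f x = c) → False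

/-- Membership test. -/
noncomputable def memb (S : List Nat) (y : Nat) : Bool :=
  @List.rec Nat (fun _ => Bool) false
    (fun a _ ih => @Bool.rec (fun _ => Bool) ih true (Nat.beq a y)) S

theorem memb_sound (S : List Nat) (y : Nat) (h : memb S y = true) : y ∈ S := by
  induction S with
  | nil => exact absurd h (by change ¬ (false = true); simp)
  | cons a S ih =>
    change @Bool.rec (fun _ => Bool) (memb S y) true (Nat.beq a y) = true at h
    cases hb : Nat.beq a y with
    | false => rw [hb] at h; exact List.mem_cons_of_mem _ (ih h)
    | true => rw [Nat.eq_of_beq_eq_true hb]; exact List.mem_cons_self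

/-- Check of one entry `(v, w, j)` for the representative `S`. -/
noncomputable def entOk (K : List (List Nat)) (S : List Nat) (e : Nat × List Nat × Nat) : Bool :=
  (e.2.1).all (fun g => Nat.blt g 7) &&
  (nth List.nil K e.2.2).all (fun x => force (act e.2.1 x) (fun y => memb (e.1 :: S) y)) &&
  !(nth List.nil K e.2.2).isEmpty

/-- Check that every vertex is in `S`, adjacent to `S` or the vertex of an entry. -/
noncomputable def covOk (S : List Nat) (E : List (Nat × List Nat × Nat)) : Bool :=
  allLt (fun u => memb S u || (S.any (fun x => tb (nm x) (Nat.mul 6 u)) ||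
    E.any (fun e => Nat.beq e.1 u))) 60

/-- Check of the whole chain. -/
noncomputable def chk (R : List (List Nat × List (Nat × List Nat × Nat))) :
    List (List Nat) → Bool :=
  @List.rec _ (fun _ => List (List Nat) → Bool) (fun _ => true)
    (fun r _ ih K => Nat.blt r.1.length 10 && (r.2.all (entOk K r.1) && (covOk r.1 r.2 &&
      ih (r.1 :: K)))) R

theorem ent_sound {K : List (List Nat)} (hK : ∀ T ∈ K, Ext T) {S : List Nat}
    {e : Nat × List Nat × Nat} (h : entOk K S e = true) : Ext (e.1 :: S) := by
  unfold entOk at h
  rw [Bool.and_eq_true, Bool.and_eq_true, List.all_eq_true, List.all_eq_true] at h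
  obtain ⟨⟨h1, h2⟩, h3⟩ := h
  have hw : ∀ g ∈ e.2.1, g < 7 := fun g hg => by
    have h4 := h1 g hg
    have : Nat.ble (g + 1) 7 = true := h4
    exact Nat.le_of_ble_eq_true this
  rcases nth_mem_or List.nil K e.2.2 with hn | hn
  · rw [hn] at h3
    simp at h3
  · intro f hf c hb hS
    refine hK _ hn _ (col_act _ hw hf) c (big_act _ hw hb) (fun x hx => ?_)
    have h4 := h2 x hx
    rw [force_eq] at h4
    exact hS _ (memb_sound _ _ h4)

theorem rep_sound {K : List (List Nat)} (hK : ∀ T ∈ K, Ext T) {S : List Nat}
    {E : List (Nat × List Nat × Nat)} (h1 : Nat.blt S.length 10 = true)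
    (h2 : E.all (entOk K S) = true) (h3 : covOk S E = true) : Ext S := by
  intro f hf c hb hS
  have hlen : S.length < 10 := by
    have : Nat.ble (S.length + 1) 10 = true := h1
    exact Nat.le_of_ble_eq_true this
  have hex : ∃ v ∈ (Finset.range 60).filter (fun x => f x = c), v ∉ S.toFinset := by
    by_contra hcon
    push Not at hcon
    have := Finset.card_le_card (fun v hv => hcon v hv :
      (Finset.range 60).filter (fun x => f x = c) ⊆ S.toFinset)
    have h5 := List.toFinset_card_le S
    unfold Big at hb
    omega
  obtain ⟨v, hv, hvS⟩ := hex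
  rw [Finset.mem_filter, Finset.mem_range] at hv
  rw [List.mem_toFinset] at hvS
  have h4 := allLt_sound _ _ h3 v hv.1
  rw [Bool.or_eq_true, Bool.or_eq_true] at h4
  rcases h4 with h4 | h4 | h4
  · exact hvS (memb_sound _ _ h4)
  · rw [List.any_eq_true] at h4
    obtain ⟨x, hx, hxv⟩ := h4
    rw [tb_eq] at hxv
    have := hf.2 x v hxv
    rw [hS x hx, hv.2] at this
    exact this rfl
  · rw [List.any_eq_true] at h4
    obtain ⟨e, he, hev⟩ := h4
    rw [List.all_eq_true] at h2
    have h5 := ent_sound hK (h2 e he)
    have h6 : e.1 = v := Nat.eq_of_beq_eq_true hev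
    refine h5 f hf c hb (fun x hx => ?_)
    rcases List.mem_cons.1 hx with rfl | hx
    · rw [h6]; exact hv.2
    · exact hS x hx

theorem chk_sound (R : List (List Nat × List (Nat × List Nat × Nat))) :
    ∀ K, chk R K = true → (∀ T ∈ K, Ext T) → ∀ r ∈ R, Ext r.1 := by
  induction R with
  | nil => intro K _ _ r hr; simp at hr
  | cons r R ih =>
    intro K h hK s hs
    change (Nat.blt r.1.length 10 && (r.2.all (entOk K r.1) && (covOk r.1 r.2 &&
      chk R (r.1 :: K)))) = true at h
    rw [Bool.and_eq_true, Bool.and_eq_true, Bool.and_eq_true] at h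
    obtain ⟨h1, h2, h3, h4⟩ := h
    have hr : Ext r.1 := rep_sound hK h1 h2 h3
    rcases List.mem_cons.1 hs with rfl | hs
    · exact hr
    · refine ih _ h4 (fun T hT => ?_) s hs
      rcases List.mem_cons.1 hT with rfl | hT
      · exact hr
      · exact hK T hT

theorem chain_ok : chk chain base = true := by decide +kernel

theorem nil_mem_chain : ∃ r ∈ chain, r.1 = [] := by
  have h : (chain.any (fun r => r.1.isEmpty)) = true := by decide +kernel
  rw [List.any_eq_true] at h
  obtain ⟨r, hr, h⟩ := h
  exact ⟨r, hr, by simpa using h⟩

/-- If the fourteen base sets are excluded, there is no proper 6-colouring. -/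
theorem no_col (h : ∀ T ∈ base, Ext T) (f : Nat → Nat) (hf : IsCol f) : False := by
  obtain ⟨r, hr, hr0⟩ := nil_mem_chain
  have h1 := chk_sound chain base chain_ok h r hr
  rw [hr0] at h1
  have h2 : ∃ c ∈ Finset.range 6, 10 ≤ ((Finset.range 60).filter (fun x => f x = c)).card := by
    apply Finset.exists_le_card_fiber_of_mul_le_card_of_maps_to
    · intro a _
      exact Finset.mem_range.2 (hf.1 a)
    · exact ⟨0, by simp⟩
    · simp
  obtain ⟨c, _, hc⟩ := h2
  exact h1 f hf c hc (fun x hx => by simp at hx)

end Pool.Agent.OrthoChi
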