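import Pool.Agent.H.MP_ef93d4_co.Chk

/-!
# Data: generators of the automorphism group and the orbit chain

`gens` lists seven automorphisms (involutions) of the graph on 360 rays. `chain` lists
representatives of the orbits of independent subsets of the first 60 rays of sizes 9, 8, ..., 0.
For each representative and each vertex by which it can be extended, an entry gives this vertex,
a word in the generators and the position of an earlier representative which the word maps into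
the extended set.
-/

set_option maxRecDepth 100000

namespace Pool.Agent.OrthoChi

/-- Seven automorphisms, as tables in blocks of 19. -/
def gens : List (List (List Nat)) := [
[[28, 2, 1, 50, 22, 37, 44, 55, 45, 38, 49, 53, 41, 13, 19, 15, 16, 17, 18],
[14, 40, 21, 4, 34, 25, 24, 47, 56, 0, 51, 35, 31, 46, 33, 23, 30, 59, 5],
[9, 52, 20, 12, 58, 43, 6, 8, 32, 26, 54, 10, 3, 29, 39, 11, 48, 7, 27],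
[57, 42, 36, 309, 316, 283, 63, 163, 78, 170, 198, 158, 103, 243, 245, 133, 98, 201, 125],
[76, 77, 65, 303, 318, 97, 257, 230, 277, 123, 253, 321, 350, 218, 137, 343, 290, 256, 129],
[338, 317, 81, 73, 189, 249, 337, 157, 69, 138, 278, 313, 258, 305, 223, 110, 261, 196, 183],
[193, 136, 197, 217, 185, 141, 304, 355, 274, 85, 154, 75, 126, 195, 132, 94, 265, 284, 128],
[72, 222, 164, 115, 90, 104, 325, 315, 119, 270, 186, 299, 145, 248, 342, 306, 192, 150, 334],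
[246, 295, 124, 312, 330, 102, 68, 184, 244, 359, 179, 64, 135, 252, 308, 255, 344, 214, 66],
[282, 235, 205, 188, 175, 210, 239, 224, 162, 349, 352, 279, 113, 159, 118, 143, 238, 174, 99],
[293, 247, 149, 114, 237, 127, 112, 116, 67, 353, 358, 74, 296, 203, 254, 173, 269, 357, 323],
[234, 176, 339, 263, 292, 169, 354, 356, 117, 89, 229, 289, 314, 134, 109, 178, 294, 329, 298],
[307, 219, 83, 297, 232, 233, 209, 172, 236, 194, 187, 177, 302, 333, 280, 70, 160, 71, 152],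
[191, 146, 100, 250, 287, 165, 86, 204, 167, 93, 82, 107, 310, 311, 111, 262, 212, 291, 130],
[285, 324, 332, 206, 142, 340, 272, 273, 122, 326, 322, 84, 105, 182, 242, 351, 171, 62, 131],
[266, 345, 251, 347, 220, 92, 264, 213, 190, 225, 153, 202, 231, 227, 144, 331, 301, 240, 79],
[120, 108, 148, 228, 166, 60, 259, 260, 155, 106, 221, 140, 61, 96, 80, 319, 348, 87, 276],
[208, 267, 139, 275, 341, 328, 226, 156, 300, 268, 241, 151, 346, 336, 101, 95, 211, 271, 327],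
[147, 91, 168, 286, 335, 288, 320, 180, 88, 281, 181, 199, 215, 121, 216, 207, 200, 161]],
[[0, 48, 42, 3, 4, 12, 22, 7, 54, 25, 21, 56, 5, 52, 18, 23, 49, 34, 14],
[31, 20, 10, 6, 15, 24, 9, 37, 27, 46, 55, 30, 19, 32, 39, 17, 35, 41, 26],
[38, 33, 50, 36, 2, 43, 44, 58, 28, 59, 1, 16, 40, 51, 13, 53, 8, 29, 11],
[57, 45, 47, 60, 61, 267, 147, 228, 168, 199, 328, 215, 148, 281, 240, 211, 161, 319, 221],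
[155, 140, 156, 96, 95, 139, 286, 346, 275, 181, 260, 87, 88, 336, 208, 91, 288, 271, 207],
[80, 79, 166, 121, 301, 259, 101, 226, 151, 200, 268, 108, 276, 106, 320, 120, 241, 341, 331],
[327, 216, 348, 300, 335, 180, 110, 98, 243, 123, 217, 157, 198, 309, 197, 129, 253, 290, 223],
[133, 318, 193, 137, 136, 141, 81, 77, 138, 245, 305, 257, 218, 256, 63, 69, 321, 189, 103],
[277, 283, 183, 76, 78, 125, 158, 338, 258, 73, 185, 163, 196, 249, 97, 261, 65, 316, 170],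
[278, 313, 343, 303, 201, 337, 350, 317, 230, 119, 85, 274, 154, 222, 162, 235, 330, 224, 150],
[255, 299, 192, 135, 355, 195, 164, 128, 126, 66, 104, 175, 244, 304, 284, 205, 248, 94, 90],
[306, 210, 72, 282, 252, 214, 68, 115, 124, 145, 325, 295, 75, 184, 132, 188, 270, 102, 246],
[64, 308, 179, 265, 315, 312, 334, 186, 342, 359, 344, 239, 71, 111, 242, 122, 202, 142, 227],
[345, 206, 165, 250, 251, 213, 130, 347, 190, 146, 144, 160, 100, 86, 167, 272, 332, 266, 231],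
[264, 62, 105, 340, 225, 93, 262, 273, 182, 84, 107, 152, 171, 351, 287, 70, 212, 153, 204],
[285, 82, 280, 92, 324, 131, 291, 310, 333, 302, 220, 322, 311, 326, 191, 117, 99, 294, 174],
[203, 143, 209, 307, 229, 127, 292, 297, 233, 172, 329, 232, 169, 178, 134, 74, 109, 149, 296],
[356, 289, 219, 298, 114, 67, 314, 187, 113, 263, 293, 234, 118, 89, 176, 159, 339, 269, 112],
[236, 173, 238, 247, 83, 254, 116, 358, 177, 279, 352, 353, 354, 194, 323, 357, 349, 237]],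
[[0, 5, 2, 26, 21, 1, 16, 7, 36, 51, 10, 41, 40, 22, 14, 15, 6, 17, 35],
[19, 42, 4, 13, 57, 55, 25, 3, 47, 32, 29, 31, 30, 28, 44, 43, 18, 8, 37],
[38, 39, 12, 11, 20, 34, 33, 45, 46, 27, 50, 52, 48, 9, 49, 58, 56, 24, 54],
[23, 53, 59, 176, 169, 296, 314, 232, 349, 194, 67, 237, 356, 254, 263, 203, 354, 99, 233],
[329, 307, 323, 177, 173, 352, 247, 112, 292, 219, 293, 143, 178, 89, 209, 159, 279, 269, 229],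
[172, 174, 357, 353, 74, 298, 127, 236, 358, 238, 294, 149, 289, 134, 109, 339, 297, 83, 113],
[118, 187, 116, 117, 114, 234, 120, 121, 240, 331, 207, 301, 211, 101, 199, 300, 271, 275, 215],
[328, 108, 200, 346, 341, 335, 139, 140, 327, 281, 87, 267, 228, 260, 155, 156, 106, 226, 168],
[288, 286, 181, 147, 148, 319, 320, 91, 276, 161, 180, 336, 216, 268, 166, 241, 151, 61, 348],
[259, 95, 80, 96, 221, 60, 79, 88, 208, 162, 154, 282, 325, 192, 334, 205, 115, 188, 342],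
[265, 244, 184, 344, 66, 195, 330, 355, 304, 128, 135, 312, 295, 72, 252, 186, 255, 124, 179],
[90, 210, 126, 246, 270, 214, 132, 164, 308, 315, 85, 299, 175, 222, 359, 239, 284, 150, 274],
[145, 94, 306, 248, 64, 75, 119, 235, 102, 68, 104, 224, 122, 167, 242, 332, 191, 347, 212],
[82, 231, 302, 272, 264, 204, 340, 70, 206, 333, 322, 324, 171, 146, 311, 262, 71, 251, 190],
[266, 144, 165, 93, 213, 130, 250, 273, 227, 131, 160, 351, 326, 92, 285, 142, 182, 345, 225],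
[280, 153, 287, 152, 107, 310, 291, 84, 86, 105, 202, 62, 111, 100, 220, 129, 125, 249, 350],
[198, 305, 230, 77, 217, 309, 290, 261, 201, 343, 63, 218, 316, 317, 321, 157, 158, 318, 257],
[78, 258, 183, 278, 141, 133, 76, 196, 123, 243, 256, 185, 138, 163, 337, 338, 110, 253, 137],
[189, 313, 193, 283, 136, 245, 170, 65, 303, 277, 81, 98, 73, 197, 69, 97, 103, 223]],
[[0, 1, 47, 39, 17, 54, 35, 36, 31, 9, 10, 40, 19, 20, 42, 15, 16, 4, 59],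
[12, 13, 53, 22, 44, 45, 57, 51, 49, 50, 29, 30, 8, 32, 33, 34, 6, 7, 37],
[48, 3, 11, 41, 14, 55, 23, 24, 56, 2, 38, 27, 28, 26, 52, 21, 5, 43, 46],
[25, 58, 18, 182, 231, 62, 165, 273, 144, 287, 347, 264, 130, 70, 84, 250, 122, 351, 262],
[160, 167, 152, 227, 206, 142, 93, 322, 71, 280, 86, 204, 220, 340, 291, 212, 92, 82, 266],
[191, 225, 146, 153, 345, 100, 213, 272, 131, 242, 105, 202, 111, 190, 324, 171, 107, 332, 333],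
[311, 285, 310, 326, 302, 251, 193, 197, 73, 123, 261, 163, 290, 350, 283, 129, 69, 103, 249],
[133, 317, 278, 136, 170, 138, 230, 217, 158, 81, 338, 65, 256, 97, 223, 196, 316, 257, 198],
[78, 98, 277, 185, 183, 157, 141, 303, 76, 201, 258, 125, 253, 63, 218, 77, 189, 343, 137],
[110, 318, 321, 305, 243, 309, 337, 313, 245, 180, 199, 60, 156, 286, 155, 241, 301, 275, 168],
[108, 95, 288, 120, 319, 281, 148, 121, 151, 181, 200, 161, 106, 341, 87, 268, 80, 215, 208],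
[328, 259, 211, 91, 101, 260, 207, 216, 140, 166, 336, 88, 226, 271, 147, 240, 96, 221, 79],
[228, 335, 139, 61, 331, 346, 327, 276, 348, 320, 300, 267, 224, 186, 104, 175, 255, 179, 270],
[330, 299, 132, 72, 119, 252, 164, 306, 244, 145, 150, 162, 210, 214, 124, 75, 304, 68, 265],
[94, 239, 205, 325, 246, 222, 102, 64, 274, 188, 235, 154, 135, 355, 85, 195, 282, 128, 284],
[115, 184, 66, 192, 359, 126, 90, 342, 315, 308, 295, 312, 334, 344, 248, 238, 187, 118, 159],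
[263, 174, 254, 314, 294, 176, 116, 114, 296, 178, 307, 293, 149, 134, 172, 194, 237, 173, 83],
[353, 109, 269, 117, 234, 209, 329, 247, 232, 112, 113, 297, 229, 219, 177, 143, 339, 89, 203],
[292, 169, 298, 99, 233, 67, 236, 354, 127, 74, 352, 323, 349, 279, 356, 357, 358, 289]],
[[9, 10, 48, 46, 40, 5, 24, 23, 43, 0, 1, 17, 20, 19, 53, 15, 30, 11, 18],
[13, 12, 42, 22, 7, 6, 25, 26, 27, 28, 52, 16, 55, 37, 34, 33, 45, 44, 32],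
[47, 56, 4, 41, 21, 8, 36, 35, 3, 38, 2, 49, 50, 51, 29, 14, 54, 31, 39],
[57, 58, 59, 279, 296, 352, 173, 238, 149, 203, 99, 209, 174, 329, 323, 234, 159, 74, 229],
[172, 143, 177, 263, 247, 169, 314, 83, 353, 232, 356, 269, 292, 89, 236, 297, 339, 307, 187],
[254, 293, 127, 178, 67, 357, 298, 237, 134, 219, 358, 289, 349, 294, 118, 176, 354, 113, 112],
[114, 233, 116, 117, 109, 194, 277, 290, 303, 136, 201, 125, 197, 97, 185, 129, 305, 317, 189],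
[157, 103, 218, 123, 137, 138, 257, 253, 158, 343, 77, 316, 183, 350, 245, 243, 65, 230, 258],
[337, 313, 193, 283, 256, 133, 141, 73, 318, 261, 198, 163, 217, 321, 278, 338, 249, 81, 170],
[309, 76, 63, 69, 196, 110, 78, 98, 223, 274, 270, 355, 145, 195, 128, 186, 94, 188, 132],
[308, 306, 192, 154, 119, 184, 175, 126, 162, 246, 284, 124, 359, 66, 325, 235, 330, 248, 295],
[68, 210, 282, 334, 344, 224, 299, 265, 164, 135, 104, 342, 255, 222, 179, 214, 315, 244, 304],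
[252, 75, 150, 312, 85, 115, 72, 205, 90, 102, 64, 239, 260, 241, 336, 148, 226, 147, 199],
[80, 207, 168, 327, 319, 228, 140, 95, 221, 156, 139, 151, 259, 240, 161, 335, 79, 328, 216],
[301, 267, 276, 87, 181, 271, 320, 300, 180, 275, 268, 120, 166, 60, 331, 286, 211, 155, 200],
[346, 281, 341, 288, 106, 121, 348, 88, 96, 108, 208, 61, 91, 101, 215, 273, 266, 324, 122],
[227, 130, 191, 93, 190, 171, 310, 311, 231, 153, 82, 225, 144, 131, 160, 251, 272, 165, 322],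
[71, 302, 204, 326, 250, 264, 70, 206, 280, 333, 332, 212, 262, 242, 152, 167, 92, 340, 287],
[220, 142, 213, 347, 285, 345, 291, 107, 146, 351, 62, 84, 111, 182, 86, 100, 105, 202]],
[[44, 45, 8, 38, 32, 5, 28, 27, 2, 50, 49, 29, 12, 13, 34, 31, 21, 18, 17],
[23, 24, 16, 46, 19, 20, 40, 26, 7, 6, 11, 30, 15, 4, 33, 14, 35, 36, 37],
[3, 39, 25, 41, 54, 43, 0, 1, 22, 47, 58, 10, 9, 53, 52, 51, 42, 56, 55],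
[57, 48, 59, 158, 133, 253, 77, 350, 65, 337, 198, 309, 81, 261, 245, 316, 73, 218, 317],
[76, 63, 78, 157, 141, 69, 278, 185, 277, 343, 283, 129, 163, 201, 313, 123, 258, 249, 321],
[138, 125, 103, 98, 189, 256, 170, 303, 97, 338, 257, 137, 290, 136, 197, 110, 243, 217, 193],
[183, 305, 223, 196, 230, 318, 120, 121, 241, 91, 341, 96, 328, 215, 320, 87, 267, 276, 348],
[61, 180, 331, 108, 106, 95, 148, 147, 80, 240, 216, 268, 319, 259, 140, 139, 207, 301, 166],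
[275, 260, 327, 155, 156, 79, 60, 200, 288, 161, 346, 88, 300, 271, 151, 281, 168, 211, 101],
[286, 208, 181, 226, 336, 199, 228, 221, 335, 134, 173, 293, 114, 358, 83, 356, 187, 329, 99],
[279, 263, 357, 113, 194, 354, 117, 109, 67, 176, 159, 89, 254, 203, 296, 352, 292, 149, 172],
[219, 353, 169, 247, 269, 339, 127, 143, 112, 74, 209, 297, 178, 349, 116, 314, 294, 174, 298],
[177, 234, 118, 289, 236, 233, 229, 323, 232, 237, 238, 307, 142, 122, 242, 111, 347, 71, 326],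
[212, 310, 93, 273, 251, 340, 62, 202, 351, 100, 105, 92, 146, 153, 70, 262, 191, 266, 324],
[264, 130, 144, 213, 302, 165, 272, 250, 333, 152, 131, 84, 82, 190, 280, 167, 345, 86, 322],
[291, 171, 287, 160, 231, 107, 285, 206, 182, 225, 311, 204, 220, 227, 332, 164, 150, 270, 102],
[304, 115, 325, 239, 334, 68, 248, 295, 312, 90, 224, 342, 72, 75, 119, 145, 128, 94, 284],
[235, 265, 306, 246, 154, 126, 188, 330, 135, 299, 274, 308, 179, 175, 66, 104, 214, 252, 124],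
[315, 85, 344, 282, 162, 244, 132, 222, 64, 255, 205, 210, 195, 355, 186, 192, 184, 359]],
[[12, 13, 31, 48, 18, 34, 50, 49, 8, 35, 36, 25, 0, 1, 54, 47, 26, 17, 4],
[44, 45, 51, 43, 23, 24, 11, 16, 27, 28, 57, 30, 2, 59, 33, 5, 9, 10, 37],
[38, 58, 40, 41, 42, 22, 19, 20, 55, 15, 3, 7, 6, 21, 52, 53, 14, 46, 56],
[29, 39, 32, 292, 289, 238, 354, 149, 352, 177, 74, 173, 314, 203, 234, 127, 356, 67, 134],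
[357, 349, 329, 298, 293, 307, 236, 83, 229, 169, 237, 296, 294, 89, 174, 247, 233, 232, 176],
[263, 297, 323, 339, 99, 194, 254, 159, 353, 143, 187, 269, 219, 279, 109, 358, 209, 116, 113],
[114, 178, 112, 118, 117, 172, 274, 265, 186, 330, 124, 334, 175, 72, 128, 312, 224, 210, 135],
[359, 75, 132, 355, 325, 304, 246, 248, 315, 239, 104, 205, 145, 235, 299, 270, 64, 150, 255],
[188, 214, 179, 284, 295, 344, 342, 102, 192, 252, 162, 308, 164, 195, 244, 222, 282, 85, 306],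
[184, 119, 68, 90, 126, 94, 66, 115, 154, 262, 264, 206, 311, 171, 322, 122, 105, 152, 345],
[190, 191, 160, 333, 100, 165, 302, 324, 351, 266, 272, 340, 213, 70, 204, 144, 182, 273, 251],
[111, 131, 280, 212, 202, 153, 250, 242, 310, 347, 107, 225, 285, 167, 332, 130, 220, 291, 227],
[287, 84, 326, 231, 93, 92, 71, 146, 82, 86, 62, 142, 267, 241, 216, 328, 166, 327, 139],
[91, 140, 331, 215, 208, 161, 300, 101, 151, 319, 301, 346, 276, 260, 341, 180, 95, 181, 121],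
[199, 240, 268, 106, 148, 281, 200, 207, 120, 275, 259, 335, 348, 108, 211, 271, 168, 320, 155],
[221, 286, 228, 288, 61, 336, 226, 60, 80, 88, 156, 87, 96, 79, 147, 253, 257, 196, 303],
[138, 313, 170, 81, 163, 321, 217, 183, 129, 305, 69, 141, 350, 317, 318, 256, 283, 309, 185],
[97, 197, 137, 230, 245, 243, 78, 123, 249, 223, 193, 125, 277, 290, 337, 338, 98, 201, 261],
[158, 343, 157, 189, 258, 218, 278, 77, 316, 198, 65, 103, 63, 136, 73, 76, 110, 133]]]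

/-- The fourteen base sets, last one first. -/
def base : List (List Nat) := [
[0, 1, 3, 5, 9, 10, 26, 51, 54, 56],
[0, 1, 3, 5, 9, 10, 26, 39, 46, 56],
[0, 1, 3, 5, 9, 10, 26, 39, 46, 51],
[0, 1, 3, 5, 9, 10, 15, 26, 51, 54],
[0, 1, 3, 5, 9, 10, 15, 26, 46, 51],
[0, 1, 3, 5, 9, 10, 15, 26, 39, 56],
[0, 1, 3, 5, 9, 10, 15, 26, 39, 51],
[0, 1, 3, 5, 9, 10, 15, 26, 39, 46],
[0, 1, 3, 4, 9, 10, 11, 31, 56, 58],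
[0, 1, 3, 4, 9, 10, 11, 31, 43, 58],
[0, 1, 3, 4, 9, 10, 11, 31, 43, 56],
[0, 1, 3, 4, 8, 9, 10, 11, 43, 58],
[0, 1, 3, 4, 8, 9, 10, 11, 31, 58],
[0, 1, 3, 4, 8, 9, 10, 11, 31, 43]]

/-- Part 0 of the chain. -/
def chain0 : List (List Nat × List (Nat × List Nat × Nat)) := [
([3, 5, 6, 11, 12, 14, 18, 20, 22], [(44, [5, 1, 2, 4, 5, 0], 4), (51, [5, 2, 0, 4, 6, 1], 3), (56, [5, 1, 2, 3, 2, 0, 1], 3), (57, [1, 6, 3, 2, 4, 5, 0], 6)]),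
([3, 5, 6, 12, 14, 18, 20, 22, 24], [(51, [2, 6, 0, 2, 4, 3, 0], 12), (57, [2, 6, 4, 0, 4, 0], 13)]),
([3, 8, 12, 13, 14, 21, 22, 23, 24], [(47, [4, 2, 1, 0, 3], 15), (48, [6, 0, 4, 1, 0, 2, 0], 14)]),
([1, 3, 4, 6, 8, 10, 18, 24, 27], [(43, [1, 0, 2, 5, 3, 0, 1, 0], 16), (52, [5, 0, 3], 13), (54, [5, 0, 4], 12)]),
([1, 3, 4, 6, 8, 14, 18, 24, 27], [(43, [6, 3, 1, 2, 1, 0], 14), (52, [6, 0, 1, 2, 5, 2], 15), (54, [0, 4, 2, 5, 0, 1, 2, 0], 13)]),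
([1, 3, 4, 8, 13, 14, 18, 24, 27], [(30, [4, 1, 6, 5, 2, 0, 1, 0], 9), (48, [2, 0, 4, 1, 0], 12), (52, [0, 4, 3, 2, 1, 0], 12), (54, [0, 6, 4, 1, 0, 1], 11)]),
([1, 3, 6, 8, 10, 15, 18, 24, 27], [(43, [2, 5, 4, 5, 3, 2], 7), (46, [2, 5, 4, 5, 0, 3, 0], 7), (51, [2, 5, 0, 2, 1, 4, 1, 0], 7), (52, [5, 0, 3], 19), (54, [0, 4, 6, 5, 4, 0], 11)]),
([3, 4, 6, 8, 14, 18, 22, 24, 27], [(43, [5, 3, 2, 0, 1], 18), (54, [5, 1, 2, 3, 2, 0, 1], 19)]),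
([3, 4, 8, 13, 14, 18, 22, 24, 27], [(48, [4, 1, 6, 4, 0, 1], 20), (54, [5, 1, 2, 0, 4], 20)]),
([3, 4, 8, 13, 14, 21, 22, 24, 27], [(47, [5, 1, 4, 0, 2], 20), (48, [5, 1, 3, 2, 4, 0], 18), (54, [5, 1, 0, 4], 17)]),
([7, 8, 11, 17, 21, 22, 23, 25, 28], [(42, [5, 3, 0, 2, 5, 0], 13), (43, [5, 2, 6, 0, 6, 0], 13), (49, [1, 6, 4, 5], 16), (51, [2, 0, 6, 4, 5, 0], 16)]),
([8, 11, 12, 17, 21, 22, 23, 25, 28], [(35, [0, 4, 2, 6, 2, 1], 19), (49, [6, 1, 4, 0, 2, 5], 20), (51, [5, 1, 2, 3, 1, 2, 0], 23)]),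
([3, 8, 14, 21, 22, 23, 24, 27, 28], [(43, [4, 5, 4, 3, 5], 19), (47, [2, 4, 1, 0, 4, 3, 1], 23), (48, [4, 3, 1, 6, 4, 2, 1], 17), (51, [3, 5, 3, 2], 15), (54, [3, 5, 2, 4, 2, 3], 15)]),
([1, 3, 4, 8, 13, 14, 18, 24, 30], [(27, [4, 1, 6, 5, 2, 0, 1, 0], 17), (48, [1, 0, 1, 0, 4, 6], 20), (52, [4, 1, 6, 5, 2, 0, 1, 0], 20), (54, [1, 2, 3, 2, 0, 1, 0], 17)]),
([3, 8, 12, 13, 14, 21, 23, 24, 30], [(33, [3, 2, 1, 4, 6], 15), (47, [1, 0, 6, 5, 4, 0], 15), (48, [4, 6, 5, 4, 3, 2], 20), (58, [4, 6, 5, 4, 3, 2], 16)]),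
([0, 3, 4, 7, 10, 19, 21, 26, 30], [(31, [1, 0, 4, 3, 0, 1], 24), (37, [6, 5, 4, 0, 1, 0], 27), (45, [4, 5, 0, 4, 1, 0], 24), (54, [4, 0, 2, 4, 3, 0], 27)]),
([1, 3, 4, 8, 13, 14, 18, 27, 30], [(24, [4, 1, 6, 5, 2, 0, 1, 0], 20), (48, [2, 0, 4, 1, 0], 18), (52, [0, 4, 3, 2, 1, 0], 18), (54, [1, 2, 4, 5, 3], 18)]),
([3, 4, 7, 10, 19, 21, 26, 27, 30], [(31, [1, 4, 6, 1, 3, 0], 23), (37, [3, 0, 1, 6, 4], 23), (47, [5, 1, 2, 6, 0], 24), (54, [4, 0, 2, 4, 0, 1], 29), (59, [3, 5, 4, 1, 3, 1, 0], 22)]),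
([3, 4, 7, 10, 19, 21, 26, 27, 31], [(30, [1, 4, 6, 1, 3, 0], 24), (37, [4, 1, 0, 3, 0, 3, 0], 25), (47, [4, 6, 1, 0, 3], 25), (59, [5, 2, 6, 4, 0], 24)]),
([0, 3, 4, 7, 10, 19, 21, 30, 31], [(26, [1, 0, 4, 3, 0, 1], 28), (37, [0, 4, 3, 0, 1], 28), (45, [4, 0, 2, 6, 0], 28), (58, [1, 4, 0, 2, 6, 0], 28)]),
([3, 4, 7, 10, 19, 21, 26, 30, 31], [(0, [1, 0, 4, 3, 0, 1], 29), (27, [1, 4, 6, 1, 3, 0], 26), (37, [4, 6, 1, 0, 3, 2], 25), (45, [3, 5, 4, 6, 0, 3, 0], 29), (47, [2, 1, 4, 6, 1, 3, 0], 26), (59, [4, 1, 0, 3, 2], 25)]),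
([3, 8, 12, 13, 14, 21, 23, 30, 33], [(24, [3, 2, 1, 4, 6], 22), (47, [1, 0, 6, 4, 0, 4, 1], 23), (48, [4, 2, 6, 5, 0, 2, 0], 28), (58, [4, 2, 6, 5, 0, 2, 0], 23)]),
([3, 12, 13, 14, 21, 23, 24, 30, 33], [(8, [3, 2, 1, 4, 6], 23), (47, [1, 6, 5, 4, 5, 1], 22), (48, [6, 4, 3, 5, 4, 5], 25), (58, [2, 5, 1, 3, 2, 1], 24)]),
([8, 11, 12, 17, 21, 22, 23, 25, 35], [(28, [0, 4, 2, 6, 2, 1], 31), (49, [5, 1, 2, 3, 1, 2, 0], 33)]),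
([8, 12, 13, 17, 21, 22, 23, 25, 35], []),
([8, 11, 12, 17, 21, 22, 25, 28, 35], [(23, [0, 4, 2, 6, 2, 1], 33), (49, [3, 2, 6, 4, 2, 5, 0], 33)]),
([4, 7, 8, 13, 17, 21, 22, 25, 36], []),
([8, 12, 13, 17, 21, 22, 25, 35, 36], []),
([0, 3, 4, 7, 8, 9, 10, 11, 37], [(31, [1, 2, 0, 3, 0], 39), (58, [0, 1, 4, 5, 3, 2, 0], 41)]),
([0, 4, 7, 8, 9, 10, 11, 17, 37], [(31, [3, 2, 6, 1, 2], 39), (58, [6, 4, 1, 0, 1, 0], 39)])]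

/-- Part 1 of the chain. -/
def chain1 : List (List Nat × List (Nat × List Nat × Nat)) := [
([0, 4, 7, 8, 10, 11, 17, 21, 37], [(31, [1, 3, 2, 4], 41), (58, [5, 3, 0, 2, 5, 0], 41)]),
([0, 4, 7, 8, 9, 11, 17, 25, 37], []),
([0, 3, 4, 7, 11, 19, 21, 25, 37], []),
([0, 3, 8, 11, 12, 21, 23, 25, 37], [(28, [1, 3, 2, 4, 3], 40), (33, [6, 1, 4, 2, 3], 40), (48, [6, 1, 2, 0, 3, 0], 36), (51, [6, 1, 4, 3], 36)]),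
([0, 3, 4, 7, 19, 21, 25, 26, 37], []),
([0, 3, 7, 19, 21, 23, 25, 26, 37], []),
([3, 6, 7, 8, 9, 10, 11, 31, 37], [(4, [5, 0, 2, 4], 39), (47, [5, 0, 2], 39), (52, [2, 1, 3, 2, 5, 3, 0], 39), (58, [5, 0, 2, 4, 3], 39)]),
([0, 7, 8, 10, 15, 30, 31, 36, 37], []),
([0, 1, 3, 4, 8, 9, 10, 11], [(31, [1, 3, 5, 0, 1, 2], 35), (43, [1, 0, 3, 0], 9), (58, [5, 0, 3, 1, 2, 0, 1], 36)]),
([1, 3, 4, 6, 8, 9, 10, 11], [(31, [4, 6, 4, 2, 3, 2, 1, 0], 34), (43, [2, 6, 1, 6, 2], 9), (52, [2, 1, 6, 1, 2], 10), (58, [1, 2, 4, 6, 1, 0], 35)]),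
([3, 4, 6, 7, 8, 9, 10, 11], [(31, [1, 3, 5, 0, 1, 2], 27), (37, [4, 1, 0, 2, 5, 2], 17), (43, [2, 6, 1, 6, 2], 11), (47, [0, 1, 4, 6, 5, 0, 1, 0], 18), (52, [3, 1, 0], 17), (58, [4, 5, 4, 3, 5, 3, 0], 33)]),
([1, 3, 4, 6, 8, 9, 11, 14], [(31, [6, 5, 2, 3, 0, 2], 31), (43, [2, 1, 6, 2], 10), (52, [4, 6, 0, 3, 2], 17), (58, [3, 5, 4, 1, 3, 1, 0], 36)]),
([0, 1, 4, 8, 9, 10, 11, 17], [(31, [1, 3, 5, 0, 1, 2], 27), (40, [1, 3, 5, 0, 1, 2], 19), (43, [2, 5, 1, 2, 0, 3], 19), (55, [2, 5, 4, 0, 1, 2], 25), (58, [5, 0, 3, 1, 2, 0, 1], 41)]),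
([1, 3, 4, 6, 8, 10, 11, 18], [(43, [0, 6, 2, 4, 2, 3], 18), (52, [4, 6, 3, 0, 3, 2, 0], 18)]),
([1, 3, 4, 6, 8, 11, 14, 18], [(43, [5, 0, 4, 1, 2, 1], 12), (52, [4, 6, 0, 3, 2], 19)]),
([1, 3, 4, 6, 9, 11, 14, 20], [(31, [1, 2, 6, 4, 5, 0, 1, 0], 27), (43, [5, 1, 0, 4], 11), (44, [2, 5, 1, 3, 1], 26), (52, [6, 4, 5, 3, 1, 0, 1], 37), (56, [3, 2, 6, 2, 3, 0], 34), (58, [0, 1, 4, 6, 5, 0, 1, 0], 32)]),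
([1, 3, 5, 6, 9, 11, 14, 20], [(31, [2, 1, 6, 1], 30), (33, [2, 1, 6, 1, 2], 30), (44, [1, 2, 6, 4, 5, 0, 1, 0], 26), (51, [5, 4, 2, 5, 3, 1, 0], 34), (52, [5, 0, 4, 6, 4, 3], 37), (56, [6, 1, 4, 0, 6, 0, 2, 0], 34)]),
([1, 3, 4, 6, 11, 14, 18, 20], [(43, [5, 4, 2, 5, 2], 16), (44, [4, 6, 4, 1, 0, 1], 39), (52, [2, 1, 6, 1, 2], 14), (56, [4, 6, 4, 1, 0], 39)]),
([1, 3, 5, 6, 11, 14, 18, 20], [(44, [4, 6, 4, 1, 0, 1], 39), (51, [6, 2, 1, 6, 4, 0], 40), (52, [2, 1, 6, 1, 2], 13), (56, [1, 6, 1, 6, 2, 4, 0], 40)]),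
([3, 5, 6, 11, 12, 14, 18, 20], [(22, [], 48), (44, [1, 3, 0, 3, 5, 1], 43), (51, [4, 6, 0], 38), (56, [1, 2, 3, 0, 6, 3], 15), (57, [3, 0, 1, 4, 3, 2, 1, 0], 30)]),
([3, 4, 6, 8, 11, 14, 18, 22], [(43, [6, 1, 3, 2, 6, 0], 25)]),
([3, 6, 8, 11, 12, 14, 18, 22], [(51, [1, 6, 2, 1, 6, 2], 23)]),
([3, 5, 6, 11, 12, 14, 20, 22], [(18, [], 51), (28, [2, 5, 1, 0, 3, 1], 47), (44, [2, 5, 1, 0, 3, 1], 46), (47, [4, 2, 0, 6, 3], 47), (51, [2, 4, 3, 2, 1, 0], 39), (56, [6, 0, 6, 1, 4, 1], 39), (57, [4, 3, 2, 5, 4, 1], 31)]),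
([3, 5, 6, 11, 12, 18, 20, 22], [(14, [], 52), (44, [1, 3, 0, 3, 5, 1], 39), (51, [4, 5, 4], 52), (56, [6, 1, 4, 3, 1, 0], 40), (57, [2, 6, 0, 1, 3, 2, 0], 35), (59, [2, 0, 3, 0, 2], 51)]),
([3, 4, 6, 11, 14, 18, 20, 22], [(43, [6, 1, 3, 2, 6, 0], 30), (44, [4, 6, 4, 1, 0, 1], 49), (56, [4, 6, 0, 4], 42), (57, [2, 0, 4, 2, 0, 1, 0], 46)]),
([3, 5, 11, 12, 14, 18, 20, 22], [(6, [], 54), (44, [4, 2, 5, 1, 3, 1, 2, 0], 41), (51, [6, 0, 2, 5, 4, 3], 21), (56, [2, 3, 0, 6, 3], 21), (57, [4, 2, 5, 1, 3, 1, 2, 0], 49)]),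
([3, 6, 11, 12, 14, 18, 20, 22], [(5, [], 55), (44, [1, 3, 5, 3, 1], 55), (51, [2, 4, 5, 4, 2], 19), (56, [6, 4, 1, 6, 4, 3, 0], 45), (57, [4, 0, 2, 1, 3, 1], 45)]),
([3, 4, 6, 11, 18, 19, 20, 22], [(43, [0, 6, 2, 4, 2, 3], 54), (44, [2, 3, 2, 1, 0], 53), (56, [6, 4, 0, 4, 2, 1, 0], 41), (57, [2, 0, 4, 2, 0, 1, 0], 52), (59, [0, 6, 4, 5, 4, 2, 0], 55)]),
([3, 6, 11, 12, 18, 19, 20, 22], [(44, [4, 0, 4, 6, 0, 4], 56), (56, [6, 4, 1, 6, 4, 0], 46), (57, [0, 6, 2, 4, 2, 3], 48), (59, [4, 0, 2], 32)]),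
([3, 8, 12, 13, 14, 21, 22, 23], [(24, [], 56), (47, [6, 1, 2, 1, 0, 3, 0], 56), (48, [3, 0, 1, 0], 50)])]

/-- Part 2 of the chain. -/
def chain2 : List (List Nat × List (Nat × List Nat × Nat)) := [
([1, 3, 4, 6, 8, 10, 18, 24], [(27, [], 56), (43, [4, 0, 4, 6], 31), (52, [6, 2, 0, 6, 5, 1, 0], 36), (54, [1, 6, 1, 6, 0, 2, 0], 50)]),
([1, 3, 4, 6, 8, 14, 18, 24], [(27, [], 56), (43, [5, 0, 4, 1, 2, 1], 31), (52, [4, 0, 4, 6], 30), (54, [0, 2, 0, 6, 0, 2, 0], 56)]),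
([1, 3, 6, 8, 10, 15, 18, 24], [(27, [], 55), (43, [2, 4, 6, 1, 0, 1, 0], 40), (46, [0, 6, 4, 2, 3, 2, 0], 47), (51, [0, 4, 5, 1, 0], 47), (52, [0, 6, 4, 2, 3, 2, 0], 59), (54, [6, 5, 2, 3, 0, 2], 44)]),
([1, 3, 4, 6, 14, 18, 20, 24], [(43, [2, 3, 1, 6, 0, 2, 0], 38), (52, [4, 1, 0], 30)]),
([1, 3, 5, 6, 14, 18, 20, 24], [(51, [4, 0, 1, 2, 4, 6, 0], 31), (52, [4, 6, 5, 4, 3], 28)]),
([3, 5, 6, 12, 14, 18, 20, 24], [(22, [], 63), (51, [6, 1, 4, 6, 4, 0], 57), (57, [4, 6, 1, 4, 1, 0], 56)]),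
([1, 3, 4, 13, 14, 18, 20, 24], [(30, [4, 6, 4, 1, 0], 64), (48, [5, 1, 3, 1, 2, 0], 35), (52, [4, 6, 0, 4, 3, 0], 58)]),
([3, 4, 6, 8, 14, 18, 22, 24], [(27, [], 59), (43, [5, 0, 4], 38), (54, [4, 6, 1, 0, 6, 2, 0], 64)]),
([3, 8, 12, 13, 14, 18, 22, 24], [(48, [5, 1, 2, 3, 2, 0], 33)]),
([3, 12, 13, 14, 18, 20, 22, 24], [(48, [4, 6, 5, 4, 3, 1], 33), (57, [4, 6, 5, 4, 3, 1], 34)]),
([8, 12, 13, 14, 21, 22, 23, 24], [(3, [], 67), (47, [4, 6, 1, 2, 1, 3, 1], 66), (48, [2, 3, 0, 3, 2, 0], 58), (55, [2, 3, 0, 3, 2, 0], 46)]),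
([2, 8, 12, 13, 17, 18, 22, 25], [(35, [3, 0, 2], 49), (36, [3, 0, 2], 56), (39, [4, 6, 2, 1, 0, 3, 1], 65), (40, [4, 6, 2, 1, 0, 3, 1], 54), (46, [6, 3, 0, 1, 2, 4], 49)]),
([3, 4, 11, 18, 19, 20, 22, 25], [(43, [2, 0, 6, 5, 3], 57), (44, [2, 3, 2, 1, 0], 65), (45, [2, 1, 3, 0, 6, 5, 1], 65), (48, [1, 2, 5, 3, 1, 2, 1, 0], 57), (56, [6, 1, 6, 0, 2, 0], 51), (57, [6, 5, 0, 3, 2, 1], 68), (59, [2, 0, 4, 0, 1, 0], 68)]),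
([4, 7, 8, 13, 17, 21, 22, 25], [(36, [], 46)]),
([7, 8, 11, 17, 21, 22, 23, 25], [(28, [], 63), (42, [1, 4, 5, 2, 3], 51), (43, [2, 3, 1, 0, 3, 2, 0], 51), (49, [3, 2, 1, 3, 1], 59), (51, [2, 3, 0, 3, 2, 0], 59)]),
([1, 3, 4, 6, 8, 18, 24, 27], [(10, [], 71), (14, [], 70), (43, [3, 0, 6, 0, 3], 71), (52, [3, 0, 6, 0, 3], 70), (54, [1, 4, 1, 3, 0], 55)]),
([1, 3, 4, 8, 13, 18, 24, 27], [(14, [], 70), (30, [2, 1, 3, 1, 2], 62), (48, [0, 4, 0, 1], 62), (52, [3, 0, 6, 0, 3], 70), (54, [1, 2, 0, 3, 5, 3], 57)]),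
([1, 4, 6, 8, 14, 18, 24, 27], [(3, [], 72), (40, [1, 2, 6, 4, 5, 0, 1, 0], 67), (43, [0, 6, 1, 6, 0], 72), (52, [6, 3, 1, 2, 4], 67), (54, [5, 4, 0, 1, 3, 1], 57)]),
([3, 4, 6, 8, 14, 18, 24, 27], [(1, [], 73), (22, [], 70), (43, [2, 6, 4, 5, 4, 2], 73), (52, [2, 6, 4, 5, 4, 2], 70), (54, [5, 0, 1, 0, 4, 6, 0], 62)]),
([1, 4, 8, 13, 14, 18, 24, 27], [(3, [], 73), (30, [0, 3, 5, 3, 0], 73), (40, [1, 6, 1], 70), (48, [1, 2, 1, 3, 1, 0], 60), (52, [1, 2, 0], 61), (54, [1, 2, 0, 3, 5, 3], 61)]),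
([3, 4, 8, 13, 14, 22, 24, 27], [(18, [], 71), (21, [], 70), (47, [2, 1, 3, 1, 2], 72), (48, [5, 0, 4, 1, 2], 64), (54, [2, 6, 2, 1], 68)]),
([3, 8, 13, 14, 18, 22, 24, 27], [(4, [], 72), (48, [4, 0, 6, 5, 2, 3, 0], 72), (54, [6, 1, 6], 72)]),
([4, 8, 13, 14, 21, 22, 24, 27], [(3, [], 72), (36, [2, 6, 2, 3, 1], 71), (47, [5, 4, 5, 2, 4, 2], 69), (48, [5, 0, 4, 1], 61), (50, [3, 2, 5, 2, 0, 1], 64), (54, [2, 6, 2, 3, 1], 70), (55, [0, 4, 3, 0, 1, 3], 71)]),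
([8, 12, 17, 21, 22, 23, 24, 28], [(51, [6, 0, 4, 2, 0, 1, 0], 48), (55, [6, 1, 6, 0, 2], 50)]),
([3, 8, 14, 22, 23, 24, 27, 28], [(21, [], 71), (43, [4, 5, 2, 3, 1, 0, 1, 0], 50), (47, [4, 6, 3, 0, 2, 1], 53), (48, [1, 4, 1], 71), (51, [6, 3, 0], 47), (54, [3, 5, 4, 1, 0, 3, 0], 50)]),
([1, 3, 4, 8, 13, 14, 18, 30], [(24, [], 71), (27, [], 68), (48, [0, 6, 0, 2, 5], 63), (52, [4, 6, 4, 2], 63), (54, [0, 2, 0, 6, 0, 2, 0], 68)]),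
([3, 8, 12, 13, 14, 18, 24, 30], [(48, [5, 4, 5, 1, 4, 5, 0], 48)]),
([1, 4, 13, 17, 18, 20, 24, 30], [(32, [1, 4, 5, 0, 2, 4, 1, 0], 72), (41, [2, 4, 5, 4, 1], 65), (45, [0, 4, 2, 0], 72), (52, [4, 1, 0, 1], 68), (59, [2, 3, 0, 2, 0], 65)]),
([0, 4, 7, 10, 19, 21, 26, 30], [(3, [], 72), (31, [2], 68), (34, [1, 0, 2, 6, 4, 1, 0], 69), (37, [1, 2, 1], 72), (41, [6, 0, 2, 3, 1, 0], 70), (45, [1, 6, 5, 3, 1], 67), (53, [1, 6, 5, 3, 2, 1], 67), (54, [6, 0, 3, 2, 1, 0], 70)]),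
([2, 6, 7, 8, 9, 10, 15, 31], [(37, [6, 1, 4, 6, 5, 0], 65), (43, [2, 4, 3, 1, 0, 1], 64), (47, [1, 2, 5, 4, 6, 5], 59), (52, [3, 5, 1, 3, 2, 4, 0], 65)])]

/-- Part 3 of the chain. -/
def chain3 : List (List Nat × List (Nat × List Nat × Nat)) := [
([3, 6, 7, 8, 9, 10, 15, 31], [(37, [2, 5, 4, 5, 1], 59), (43, [1, 4, 3, 0, 6, 5], 58), (47, [1, 2, 5, 4, 6, 5], 59), (52, [6, 4, 5, 4, 2, 3, 1], 59)]),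
([3, 4, 6, 7, 8, 11, 22, 31], [(43, [0, 6, 1, 6, 3, 0], 56), (47, [2, 5, 4, 5, 1, 2], 53)]),
([3, 4, 8, 11, 14, 21, 22, 31], [(43, [1, 6, 4, 0, 4, 1, 0], 56), (47, [0, 2, 0, 6, 5, 3, 0], 56)]),
([1, 3, 6, 8, 10, 15, 27, 31], [(43, [6, 3, 0, 6, 5], 65), (52, [2, 6, 4, 1, 0, 1], 68)]),
([2, 6, 7, 8, 10, 15, 27, 31], [(37, [1, 4, 0, 2, 3, 0], 63), (43, [6, 1, 2, 3, 5], 69), (47, [1, 2, 5, 4, 6, 5], 65), (52, [6, 4, 5, 4, 2, 3, 1], 65)]),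
([3, 4, 7, 10, 19, 21, 27, 31], [(26, [], 76), (30, [4, 6, 4], 76), (37, [1], 76), (43, [1, 2, 6, 1, 6, 1], 57), (47, [1, 4, 6, 4, 1], 76), (59, [3, 2, 6, 2, 3], 76)]),
([2, 6, 7, 8, 15, 27, 28, 31], [(37, [1, 4, 0, 2, 3, 0], 66), (43, [1, 4, 0, 2, 3, 0], 64), (47, [4, 2, 5, 3, 0, 2, 0], 66), (52, [2, 1, 3, 0, 1, 4, 0], 66)]),
([3, 6, 7, 8, 22, 27, 28, 31], [(43, [6, 1, 2, 5, 0, 2], 64), (47, [5, 0, 2, 4, 5, 4, 0], 64)]),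
([0, 4, 7, 10, 19, 21, 30, 31], [(3, [], 78), (26, [2], 78), (37, [1, 2, 1], 78), (45, [1, 6, 5, 3, 1], 78), (53, [6, 5, 3, 2], 78), (58, [6, 5, 3], 78)]),
([2, 7, 8, 10, 15, 27, 30, 31], [(36, [3, 0, 3, 5, 1, 4], 77), (37, [5, 3, 1, 0, 6, 1], 65), (47, [4, 6, 1, 3, 0, 1], 77), (49, [3, 0, 3, 5, 1, 4], 76), (52, [4, 6, 1, 3, 0, 1], 76)]),
([12, 13, 14, 21, 23, 24, 30, 33], [(3, [], 77), (8, [1, 0, 2, 0, 1], 77), (41, [1, 6, 1, 0], 72), (47, [5, 4, 5], 77), (48, [4, 6, 2, 5, 2, 0], 63), (58, [6, 5, 3], 77)]),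
([8, 11, 12, 17, 21, 22, 25, 35], [(23, [], 77), (28, [], 75), (49, [4, 6, 4], 77)]),
([0, 1, 3, 4, 8, 9, 10], [(11, [], 63), (31, [5, 1, 2, 3, 2, 0, 1], 34), (43, [4, 2, 5, 3, 1], 7), (54, [5, 1, 2, 3, 2, 0, 1], 51), (58, [6, 2, 4, 1, 6, 0, 1], 35)]),
([1, 3, 4, 6, 8, 9, 10], [(11, [], 63), (31, [5, 1, 2, 3, 2, 0, 1], 41), (43, [0, 4, 6, 4, 3, 0], 6), (52, [6, 5, 2, 1, 0, 1, 0], 8), (54, [5, 1, 2, 3, 2, 0, 1], 58), (58, [3, 0, 2, 0, 3], 63)]),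
([0, 3, 4, 7, 8, 9, 10], [(11, [2, 1, 6, 1, 2], 64), (31, [0, 4, 1, 2, 5, 3, 0], 49), (37, [4, 1, 2, 5, 1, 0], 36), (43, [4, 2, 5, 3, 1], 14), (54, [0, 4, 1, 2, 5, 3, 0], 53), (58, [2, 4, 1, 0, 4, 1], 33)]),
([3, 4, 6, 7, 8, 9, 10], [(11, [], 64), (31, [1, 3, 5, 0, 1, 2], 20), (37, [0, 1, 3, 1, 0], 5), (43, [1, 6, 4, 1, 0, 1, 0], 10), (47, [2, 5, 4, 6, 5, 1], 5), (52, [3, 2, 6, 4, 2, 3, 0], 4), (54, [1, 2, 4, 6, 1, 0], 11), (58, [3, 0, 2, 0, 3], 64)]),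
([0, 1, 3, 4, 8, 9, 11], [(10, [], 67), (31, [3, 1, 6, 4, 1, 3, 0], 46), (43, [6, 2, 4, 0], 38), (58, [5, 0, 3, 1, 2, 0], 40)]),
([1, 3, 4, 6, 8, 9, 11], [(10, [], 67), (14, [], 65), (31, [4, 6, 4, 2, 3, 2, 1, 0], 29), (43, [6, 2, 4, 0], 45), (52, [6, 2, 4, 0], 46), (58, [6, 2, 4, 0], 31)]),
([0, 3, 4, 7, 8, 9, 11], [(10, [2, 1, 6, 1, 2], 68), (25, [2, 1, 6, 1, 2], 64), (31, [4, 1, 0, 6, 3, 0], 66), (37, [3, 5, 2, 0, 3, 2, 0], 13), (43, [3, 5, 2, 0, 3, 2, 0], 18), (58, [0, 3, 1, 4], 47)]),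
([3, 4, 6, 7, 8, 9, 11], [(10, [], 68), (31, [4, 1, 0, 6, 3, 0], 63), (37, [0, 1, 3, 5, 1, 0], 9), (43, [0, 2, 4, 1, 3], 41), (47, [4, 6, 3, 0, 3, 2], 21), (52, [6, 5, 2, 0, 6, 2], 34), (58, [0, 3, 1, 4], 46)]),
([0, 1, 3, 4, 9, 10, 11], [(8, [], 71), (31, [1, 3, 5, 0, 1, 2], 39), (43, [4, 5, 0], 49), (56, [1, 4, 6, 4, 2, 0], 8), (58, [5, 2, 0, 6, 2, 1, 0], 51)]),
([0, 1, 3, 5, 9, 10, 11], [(31, [2, 4, 6, 5, 2], 60), (51, [5, 1, 2, 3, 2, 0], 59), (56, [0, 4, 6, 4, 1, 3, 0], 17)]),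
([1, 3, 4, 6, 9, 10, 11], [(8, [], 72), (31, [3, 5, 1, 0, 2, 0, 1, 0], 33), (43, [6, 4, 0], 50), (52, [3, 5, 1, 0, 2, 0, 1, 0], 44), (56, [1, 4, 0, 1, 3, 5], 45), (58, [3, 1, 2, 6], 54)]),
([1, 3, 5, 6, 9, 10, 11], [(31, [1, 3, 5, 0, 1, 2], 29), (51, [2, 6, 5, 2], 62), (52, [5, 0, 4, 6, 4, 3], 44), (56, [1, 4, 0, 1, 3, 5], 49)]),
([3, 4, 6, 7, 9, 10, 11], [(8, [], 73), (31, [5, 4, 1, 0, 3, 5], 31), (37, [1, 6, 5, 2, 1, 0], 39), (43, [6, 4, 0], 53), (47, [6, 4, 0], 51), (52, [2, 3, 0, 3, 5], 39), (56, [4, 6, 2, 3, 2, 0], 43), (58, [6, 5, 1, 2, 6], 41)]),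
([0, 1, 4, 8, 9, 10, 11], [(3, [], 76), (17, [], 72), (31, [3, 5, 0], 52), (40, [2, 1, 6, 1, 2], 72), (43, [0, 6, 1, 6, 0], 74), (55, [5, 0, 1, 0, 4, 6, 1, 0], 29), (58, [1, 3, 0, 2, 6, 3, 0], 61)]),
([0, 3, 4, 8, 9, 10, 11], [(1, [], 77), (7, [2, 1, 6, 1, 2], 76), (31, [2, 4, 6, 2], 58), (37, [1, 0, 3, 0], 77), (43, [1, 2, 0, 3, 0], 76), (58, [5, 2, 0, 6, 2, 0], 58)]),
([1, 4, 6, 8, 9, 10, 11], [(3, [], 77), (31, [4, 6, 4, 2, 3, 2, 1, 0], 41), (40, [3, 5, 4, 1, 3, 0, 1, 0], 77), (43, [0, 6, 1, 6, 0], 77), (52, [1, 6, 1, 6, 1], 77), (58, [1, 2, 4, 6, 1, 0], 41)]),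
([3, 4, 6, 8, 9, 10, 11], [(1, [], 78), (7, [], 77), (31, [6, 4, 1, 6, 3], 65), (37, [1, 0, 3, 0], 75), (43, [2, 6, 2], 78), (47, [4, 5, 4, 2, 5, 2], 46), (52, [2, 6, 2], 77), (58, [2, 4, 6, 0, 2, 4, 0], 45)]),
([1, 3, 4, 6, 8, 11, 14], [(9, [], 77), (18, [], 74), (31, [0, 2, 0, 6, 0, 2, 0], 77), (43, [6, 3, 1, 2, 5, 1], 28), (52, [4, 5, 1, 2, 0, 1, 0], 29), (58, [0, 2, 4, 5, 3, 0, 1, 0], 57)])]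

/-- Part 4 of the chain. -/
def chain4 : List (List Nat × List (Nat × List Nat × Nat)) := [
([1, 3, 4, 6, 9, 11, 14], [(8, [], 78), (20, [], 74), (31, [6, 5, 2, 3, 0, 2], 37), (43, [4, 6, 5, 3, 0, 2], 35), (44, [3, 5, 1, 4, 6, 4, 1], 70), (52, [1, 4, 2, 5, 3, 0, 1, 0], 65), (56, [2, 6, 1, 2, 5, 1, 2], 63), (58, [5, 3, 1, 2, 5, 1], 67)]),
([1, 3, 5, 6, 9, 11, 14], [(20, [], 74), (31, [0, 6, 1, 4, 2], 40), (33, [1, 4, 3, 1, 6, 5, 1, 0], 40), (44, [6, 0, 6, 5, 0, 3, 1, 0], 43), (51, [2, 6, 5, 2], 66), (52, [5, 0, 4, 6, 4, 3], 39), (56, [2, 6, 1, 2, 5, 1, 2], 66)]),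
([1, 3, 4, 8, 9, 11, 14], [(6, [], 80), (31, [4, 6, 0, 2, 4, 3, 0], 63), (43, [6, 1, 3, 1, 2, 0], 55), (52, [4, 6, 1, 3, 5, 4, 0], 20), (58, [3, 1, 2, 6, 0, 1, 0], 67)]),
([1, 3, 6, 8, 9, 11, 14], [(4, [], 81), (31, [0, 2, 6, 0, 1, 4, 0], 42), (33, [4, 6, 4, 0, 6, 0], 74), (43, [4, 6, 4, 0, 6, 0], 75), (51, [5, 4, 2, 5, 3, 1, 0], 39), (52, [0, 6, 2, 3, 2, 1, 0], 68), (58, [1, 0, 6], 44)]),
([1, 4, 6, 8, 9, 11, 14], [(3, [], 82), (31, [1, 0, 1], 46), (40, [3, 5, 4, 1, 3, 0, 1, 0], 82), (43, [0, 6, 1, 6, 0], 82), (52, [1, 6, 1, 6, 1], 82), (58, [1, 0, 6, 1, 6, 1], 46)]),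
([3, 4, 6, 8, 9, 11, 14], [(1, [], 83), (31, [6, 5, 2, 3, 0, 2], 44), (43, [6, 4, 3, 5, 1, 3, 0], 58), (47, [0, 1, 4, 6, 5, 0, 1, 0], 65), (52, [4, 6, 4, 0, 4, 2], 54), (58, [6, 5, 1, 4, 2, 6], 67)]),
([0, 1, 3, 5, 9, 10, 15], [(26, [5, 2, 0, 4, 6, 1], 72), (31, [4, 6, 4, 1, 0, 1, 0], 59), (39, [5, 0, 1, 0, 4, 6, 1, 0], 80), (46, [4, 6, 5, 0, 2, 0, 1, 0], 70), (51, [5, 1, 2, 3, 2, 0], 69), (54, [5, 2, 0, 4, 6, 1], 76), (56, [3, 5, 3], 41)]),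
([1, 3, 5, 6, 9, 10, 15], [(31, [5, 1, 2, 3, 2, 0, 1], 62), (46, [6, 2, 0, 2, 5, 2], 61), (51, [1, 0, 1, 4, 6, 0], 60), (52, [2, 3, 5, 2, 4, 5, 2, 0], 57), (54, [5, 1, 2, 3, 2, 0, 1], 78), (56, [1, 4, 0, 1, 3, 5], 79)]),
([0, 1, 3, 8, 9, 10, 15], [(31, [2, 1, 3, 0, 6, 5, 1, 0], 64), (39, [5, 0, 1, 0, 4, 6, 1, 0], 80), (43, [1, 6, 2, 4, 2, 5, 1, 0], 38), (46, [2, 1, 3, 0, 6, 5, 1, 0], 66), (51, [5, 1, 2, 3, 2, 0], 73), (54, [5, 1, 2, 3, 2, 0, 1], 73)]),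
([1, 3, 6, 8, 9, 10, 15], [(31, [5, 1, 2, 3, 2, 0, 1], 65), (43, [4, 3, 5, 0], 34), (46, [4, 6, 4, 1, 0, 1, 0], 61), (51, [4, 6, 4, 0, 1, 0], 61), (52, [5, 2, 6, 0, 4, 0], 31), (54, [5, 1, 2, 3, 2, 0, 1], 81)]),
([2, 6, 7, 8, 9, 10, 15], [(31, [], 40), (37, [0, 1, 3, 1, 0], 40), (43, [0, 4, 3], 35), (46, [4, 5, 4, 3, 5, 3, 0], 39), (47, [3, 5, 3], 33), (51, [0, 3, 1, 4], 35), (52, [1, 4, 1], 40), (54, [0, 4, 5, 3], 35)]),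
([1, 5, 6, 9, 10, 11, 16], [(35, [0, 3, 5, 0, 2], 67), (41, [6, 4, 3, 5, 2, 1, 0], 37), (51, [0, 4, 6, 0, 4, 0], 37), (56, [2, 6, 1, 2, 5, 1, 2], 67)]),
([1, 5, 6, 9, 11, 14, 16], [(20, [0, 3, 5, 0, 2], 86), (33, [2, 1, 0, 6, 2, 3, 1, 0], 86), (35, [0, 3, 5, 0, 2], 84), (41, [1, 6, 0, 6, 1, 4], 47), (42, [2, 6, 1, 2, 5, 1, 2], 86), (44, [5, 1, 2, 4], 86), (51, [0, 6, 4, 2], 47), (56, [2, 6, 1, 2, 5, 1, 2], 84)]),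
([0, 1, 4, 8, 9, 10, 17], [(11, [], 90), (31, [5, 1, 2, 6, 4, 5, 1, 0], 45), (40, [1, 4, 6, 4, 0], 58), (43, [1, 0, 1, 3, 5, 0], 33), (55, [2, 6, 4, 0, 4, 1, 0], 61), (58, [5, 4, 1, 2], 83)]),
([0, 1, 4, 8, 9, 11, 17], [(10, [], 91), (31, [6, 1, 3, 1], 62), (40, [6, 3, 2, 1, 6, 2], 34), (43, [1, 0, 1, 3, 0], 34), (55, [4, 0, 2, 6, 3, 1], 48), (58, [5, 0, 3, 1, 2, 0, 1], 78)]),
([0, 1, 4, 9, 10, 11, 17], [(8, [], 92), (31, [5, 2, 0, 4, 1, 6], 60), (40, [6, 5, 1, 4, 6, 3, 0], 34), (41, [5, 2, 0, 6, 2, 1, 0], 83), (43, [6, 2, 3, 0, 3], 60), (55, [1, 2, 5, 0, 2, 1, 0], 92), (58, [5, 2, 0, 6, 2, 1, 0], 78)]),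
([0, 1, 5, 9, 10, 11, 17], [(31, [2, 4, 6, 5, 2], 84), (41, [6, 1, 2, 6], 62), (51, [5, 4, 5, 3, 1], 62), (55, [6, 5, 2, 3, 0, 1, 0], 84)]),
([1, 3, 4, 6, 8, 11, 18], [(10, [], 93), (14, [], 92), (43, [2, 5, 2], 92), (52, [2, 5, 2], 93)]),
([1, 3, 4, 6, 10, 11, 18], [(8, [], 94), (43, [6, 4, 0], 74), (52, [6, 2, 3, 0, 3, 5, 0], 74), (56, [5, 0, 4, 1, 2, 5, 1, 0], 73), (59, [6, 4, 0], 73)]),
([1, 3, 4, 8, 10, 11, 18], [(6, [], 95), (43, [4, 1, 2, 3, 5, 1], 88), (52, [3, 2, 5, 0, 1, 2], 88)]),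
([1, 3, 6, 8, 10, 11, 18], [(4, [], 96), (43, [0, 1, 0, 2, 0, 3, 1, 0], 46), (51, [6, 2, 1, 6, 4, 0], 88), (52, [3, 1, 2, 0, 1], 89)]),
([3, 6, 8, 10, 11, 12, 18], [(37, [1, 6, 1, 6], 67), (51, [2, 6, 3, 1, 4, 0, 1, 0], 67)]),
([1, 3, 4, 6, 11, 14, 18], [(8, [], 97), (20, [], 94), (43, [4, 5, 1, 0, 1, 0], 51), (44, [5, 2, 6, 4, 3, 0], 75), (52, [5, 2, 6, 4, 3, 0], 78), (56, [3, 5, 0, 1, 0, 2, 0], 75)]),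
([1, 3, 5, 6, 11, 14, 18], [(20, [], 94), (44, [4, 2, 3, 1, 2, 0], 83), (51, [6, 2, 1, 6, 4, 0], 75), (52, [1, 4, 3, 1, 6, 5, 1, 0], 74), (56, [1, 6, 1, 6, 2, 4, 0], 75)]),
([1, 3, 4, 8, 11, 14, 18], [(6, [], 99), (43, [1, 6, 1], 99), (48, [3, 0, 1, 4, 3, 2, 1, 0], 50), (52, [3, 5, 1, 4, 6, 3, 1], 50)]),
([1, 3, 6, 8, 11, 14, 18], [(4, [], 100), (43, [4, 6, 4, 0, 6, 0], 100), (51, [0, 2, 0, 6, 0, 2, 0], 94), (52, [0, 6, 2, 3, 2, 1, 0], 94)]),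
([3, 6, 8, 11, 12, 14, 18], [(22, [], 94), (51, [0, 2, 0, 6, 0, 2, 0], 94)]),
([1, 3, 5, 6, 10, 15, 18], [(24, [1, 4, 0, 1, 3, 5], 89), (46, [5, 0, 4, 1, 2, 5, 1, 0], 71), (51, [0, 4, 5, 1, 0], 76), (52, [4, 1, 0, 3, 0, 3, 0], 81), (54, [5, 1, 2, 3, 2, 0, 1], 100), (56, [1, 4, 0, 1, 3, 5], 92), (59, [3, 5, 3], 68)]),
([0, 3, 4, 7, 10, 11, 19], [(21, [2, 1, 6, 1, 2], 102), (31, [4, 5, 2, 4, 2, 0], 68), (37, [1, 2, 6, 3, 2, 0, 1, 0], 82), (43, [0, 4, 1, 6, 4, 1, 0], 92), (45, [1, 4, 5, 0, 1], 71), (56, [1, 2, 6, 3, 2, 0, 1, 0], 98), (58, [4, 1, 6, 4, 5], 94)]),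
([1, 3, 5, 6, 11, 14, 20], [(9, [], 102), (18, [], 100), (31, [1, 6, 1, 6, 2, 4, 0], 68), (33, [6, 2, 1, 6, 4, 0], 68), (44, [1, 0, 4, 0, 1], 102), (51, [0, 4, 3, 5, 1], 68), (52, [1, 0, 4, 0, 1], 100), (56, [0, 4, 3, 2, 5, 1], 68)])]

/-- Part 5 of the chain. -/
def chain5 : List (List Nat × List (Nat × List Nat × Nat)) := [
([1, 3, 5, 9, 11, 14, 20], [(6, [], 103), (31, [5, 4, 1, 3, 0, 1, 0], 92), (33, [5, 4, 1, 3], 92), (44, [6, 4, 2, 0], 72), (51, [5, 4, 1, 3, 0, 1, 0], 91), (52, [5, 1, 2, 3, 2, 0], 90), (56, [3, 2, 5, 4, 1], 91)]),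
([1, 3, 6, 9, 11, 14, 20], [(4, [], 105), (5, [], 104), (31, [2, 1, 6, 1], 62), (33, [4, 6, 4, 0, 6, 0], 104), (43, [4, 6, 4, 0, 6, 0], 105), (44, [2, 5, 2, 0, 3, 0], 62), (51, [4, 2, 0, 2, 5, 1], 70), (52, [5, 0, 4, 6, 4, 3], 70), (56, [4, 2, 0, 2, 5, 1], 68), (58, [5, 0, 4, 6, 4, 3], 68)]),
([1, 4, 6, 9, 11, 14, 20], [(3, [], 106), (31, [6, 1, 3, 1, 0], 72), (41, [6, 5, 1, 2, 6], 60), (43, [3, 2, 5, 4], 102), (44, [1, 2, 6, 4, 5, 0, 1, 0], 56), (52, [1, 6, 2, 5, 2], 103), (56, [1, 6, 2, 5, 2], 102), (58, [6, 5, 3], 106)]),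
([3, 4, 6, 9, 11, 14, 20], [(1, [], 107), (31, [1, 0, 4, 3, 5, 1, 0], 64), (43, [4, 2, 0, 4, 3, 0], 103), (44, [6, 4, 1, 3, 1, 0], 73), (47, [6, 4, 1, 3, 1, 0], 75), (52, [6, 4, 5, 3, 1, 0, 1], 74), (56, [4, 6, 4, 0, 4, 2], 70), (57, [5, 2, 6, 3, 0, 1], 72), (58, [1, 2, 5, 2, 1], 100)]),
([3, 5, 6, 9, 11, 14, 20], [(1, [], 107), (28, [5, 0, 4, 6, 4, 3], 74), (31, [1, 2, 6, 4, 5, 0, 1, 0], 65), (33, [1, 3, 1, 2, 5], 65), (44, [2, 5, 2, 0, 3, 0], 55), (47, [1, 0, 2, 0, 6, 2, 1, 0], 74), (51, [1, 2, 5, 2, 1], 107), (52, [5, 3, 1, 0, 6, 3], 74), (56, [2, 3, 2], 107), (57, [4, 3, 2, 1, 0, 4, 0], 65)]),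
([1, 3, 5, 11, 14, 18, 20], [(6, [], 106), (44, [0, 6, 2, 0, 2, 6, 0], 73), (51, [6, 5, 2, 1, 4, 1], 89), (52, [0, 6, 2, 0, 2, 6, 0], 86), (56, [6, 5, 2, 1, 4], 89)]),
([3, 5, 11, 12, 14, 18, 20], [(6, [], 106), (22, [], 100), (44, [1, 3, 0, 3, 5, 1], 79), (51, [6, 5, 2, 1, 4, 1], 106), (56, [6, 5, 2, 1, 4, 1], 100), (57, [5, 2, 3, 0, 3, 2], 79)]),
([3, 6, 11, 12, 14, 18, 20], [(5, [], 107), (22, [], 100), (44, [1, 3, 5, 3, 1], 107), (51, [0, 2, 0, 6, 0, 2, 0], 100), (56, [3, 2, 0, 1, 4, 0], 107), (57, [0, 2, 0, 6, 0, 2, 0], 107)]),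
([3, 4, 6, 7, 11, 19, 20], [(22, [6, 5, 1, 2, 6], 104), (31, [4, 5, 2, 4, 2, 0], 75), (43, [0, 1, 2, 5, 2, 0], 99), (47, [0, 1, 2, 5, 2, 0], 104), (56, [4, 5, 2, 4, 0], 75), (57, [0, 1, 2, 5, 2, 0], 101), (58, [6, 5, 1, 2, 6], 99), (59, [0, 4, 1, 6, 0], 101)]),
([2, 6, 12, 16, 18, 19, 20], [(44, [1, 3, 0, 3, 5, 1], 94), (46, [5], 75), (53, [3, 0, 2, 0, 3], 75), (56, [2, 6, 1, 0], 94)]),
([3, 4, 6, 7, 8, 11, 22], [(31, [], 68), (43, [0, 6, 4], 91), (47, [0, 6, 4], 73)]),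
([3, 4, 6, 8, 11, 18, 22], [(14, [], 110), (43, [2, 5, 2], 110)]),
([3, 6, 8, 11, 12, 18, 22], [(14, [], 110), (51, [4, 5, 4], 110)]),
([3, 8, 12, 13, 14, 18, 22], [(24, [], 94), (48, [1, 3, 5, 3, 1], 94)]),
([2, 8, 12, 13, 17, 18, 22], [(25, [], 92), (35, [2, 3, 0, 6, 4], 78), (36, [2, 0, 3], 76), (39, [4, 6, 1, 6, 4, 0], 87), (40, [4, 6, 1, 6, 0, 1], 78), (46, [1, 3, 5, 3, 1], 92)]),
([3, 5, 6, 11, 12, 20, 22], [(14, [], 112), (18, [], 111), (28, [6, 2, 1, 6, 3], 107), (44, [4, 2, 6, 0, 6, 3], 88), (47, [4, 2, 6, 0, 6, 3], 89), (51, [2, 6, 2], 111), (56, [2, 6, 2], 112), (57, [1, 3, 1, 2, 0, 1, 0], 76), (59, [6, 1, 6, 3], 107)]),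
([3, 5, 11, 12, 14, 20, 22], [(6, [], 113), (18, [], 110), (28, [2, 5, 1, 0, 3, 1], 104), (44, [4, 0, 2, 3, 0], 110), (47, [4, 2, 5, 1, 3, 1, 2, 0], 104), (51, [6, 1, 0, 6, 5, 1], 81), (56, [6, 0, 6], 81), (57, [4, 0, 2, 3, 0], 113)]),
([3, 4, 11, 14, 18, 20, 22], [(6, [], 112), (43, [2, 5, 1, 0, 2, 3], 106), (44, [0, 6, 2, 5, 2, 1, 0], 109), (48, [1, 4, 6, 4, 1, 0], 99), (56, [2, 0, 2, 6, 0, 6, 0], 86), (57, [4, 0, 4, 2, 6, 5, 0], 101)]),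
([6, 11, 12, 14, 18, 20, 22], [(3, [], 111), (5, [2, 0, 3, 0, 2], 111), (44, [0, 6, 0], 111), (51, [3, 2, 0, 4, 0], 111), (56, [3, 2, 4, 0, 4, 0], 111), (57, [3, 2, 0, 4, 6, 0], 111)]),
([3, 4, 13, 14, 18, 20, 22], [(24, [4, 6, 4, 1, 0, 1], 104), (48, [3, 2, 0, 4, 1, 0], 71), (56, [1, 6, 4, 5, 4, 2, 0], 85), (57, [1, 2, 0, 3, 5, 2, 1, 0], 99)]),
([3, 12, 13, 14, 18, 20, 22], [(24, [], 100), (48, [1, 3, 5, 3, 1], 100), (56, [2, 6, 1, 6], 78), (57, [3, 2, 0, 4, 1, 0], 78)]),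
([2, 12, 13, 17, 18, 20, 22], [(25, [3, 0, 2], 111), (36, [2, 4, 2, 0], 111), (39, [0, 1, 3, 5, 1], 89), (46, [0, 6, 1, 6, 1], 111)]),
([3, 6, 11, 12, 19, 20, 22], [(18, [], 113), (44, [4, 0, 4, 6, 0, 4], 106), (47, [4, 5, 0, 4, 0, 1], 106), (56, [5, 4, 6, 5, 1, 2, 0], 91), (57, [1, 4, 6, 1, 6, 3, 0], 91), (59, [6, 1, 6, 3], 113)]),
([3, 4, 11, 18, 19, 20, 22], [(6, [], 115), (25, [], 100), (43, [2, 5, 1, 0, 2, 3], 110), (44, [0, 4, 0], 100), (45, [5, 3, 1, 0, 4, 1], 110), (48, [6, 0, 3, 2, 5, 3], 85), (56, [5, 1, 4, 2, 5, 1], 84), (57, [0, 2, 3, 0, 1, 0], 97), (59, [0, 4, 0], 115)]),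
([2, 6, 12, 18, 19, 20, 22], [(44, [4, 0, 4, 6, 0, 4], 104), (46, [4, 0, 4, 0, 1], 109), (53, [4, 5, 2, 4], 81), (56, [6, 4, 5, 1, 4, 0], 90)]),
([3, 8, 12, 13, 14, 21, 23], [(22, [], 115), (24, [0, 4, 0, 2, 0, 6, 0], 112), (30, [2, 0, 3], 103), (33, [2, 0, 3, 2, 0], 87), (47, [4, 2, 1, 6, 5], 112), (48, [5, 3, 1, 6, 5], 95), (58, [2, 6, 1, 2, 1, 0], 103)]),
([1, 3, 5, 14, 18, 20, 24], [(6, [], 111), (30, [4, 6, 4, 1, 0, 1], 106), (51, [4, 0, 6, 5, 2, 3, 0], 111), (52, [0, 6, 2, 0, 2, 6, 0], 106)]),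
([3, 6, 12, 14, 18, 20, 24], [(5, [], 111), (22, [0, 1, 4, 6, 4], 110), (51, [5, 2, 4, 0, 4, 2], 110), (57, [0, 2, 0, 6, 0, 2, 0], 111)]),
([3, 12, 13, 14, 18, 20, 24], [(22, [], 108), (30, [0, 4, 0], 109), (48, [5, 2, 4, 0, 4, 2], 108), (57, [4, 6, 1, 4, 1, 0], 109)]),
([1, 4, 6, 8, 18, 24, 27], [(3, [], 103), (10, [3, 0, 2, 0, 3], 103), (14, [], 101), (40, [3, 0, 2, 0, 3], 101), (43, [0, 6, 1, 6, 0], 103), (52, [3, 0, 6, 0, 3], 101), (54, [5, 4, 5, 2, 4, 2, 0], 80)])]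

/-- Part 6 of the chain. -/
def chain6 : List (List Nat × List (Nat × List Nat × Nat)) := [
([1, 3, 8, 13, 18, 24, 27], [(4, [], 103), (14, [1, 6, 1], 103), (30, [0, 1, 3, 1, 0], 103), (46, [2, 1, 3, 1, 2], 93), (48, [4, 0, 6, 5, 2, 3, 0], 103), (52, [1, 0, 2, 0, 1], 103), (54, [2, 3, 5, 3, 0], 84)]),
([1, 4, 8, 13, 18, 24, 27], [(3, [], 104), (14, [], 101), (30, [0, 3, 5, 3, 0], 104), (40, [1, 6, 1], 99), (48, [6], 104), (52, [3, 0, 6, 0, 3], 101), (54, [6], 101)]),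
([8, 17, 21, 22, 23, 24, 28], [(12, [], 98), (43, [3, 0], 90), (51, [6, 5, 3, 0, 2], 90), (55, [0, 1, 3, 1, 0], 98)]),
([3, 8, 22, 23, 24, 27, 28], [(14, [], 98), (21, [2, 1, 6, 1, 2], 98), (43, [0, 1, 4, 3, 1, 0], 98), (46, [3, 5, 4, 5, 0], 92), (47, [6, 3, 0], 92), (48, [0, 1, 3, 1, 0], 98), (51, [4, 5, 4], 98), (54, [6, 0, 6, 1, 6, 0], 98)]),
([3, 8, 12, 13, 14, 18, 30], [(24, [], 97), (48, [1, 3, 5, 3, 1], 97)]),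
([12, 13, 16, 19, 21, 23, 30], [(33, [1, 2, 6, 4, 1, 0], 95), (41, [0, 3, 0, 3, 1, 0], 91), (47, [1, 3, 2, 5, 4, 0], 95), (48, [0, 2, 4, 6, 3, 2, 0], 83), (58, [2, 3], 83), (59, [4, 2, 5, 1, 3, 0], 91)]),
([3, 8, 12, 13, 14, 24, 30], [(18, [], 99), (21, [0, 2, 4, 0], 98), (23, [1, 2, 6, 4, 5, 0, 1, 0], 98), (33, [1, 6, 1, 6], 98), (47, [1, 0, 2, 0, 6, 1], 98), (48, [1, 6, 1, 6, 4, 1, 0], 90), (58, [1, 6, 1], 98)]),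
([4, 7, 10, 19, 21, 26, 30], [(0, [], 98), (3, [6, 0, 2, 3, 1, 0], 98), (27, [6, 0, 3, 2, 1, 0], 98), (31, [1, 6, 5, 3, 1], 98), (34, [2, 0, 6, 5, 3, 0], 91), (37, [6, 4, 0, 2, 1, 0], 98), (41, [5, 1, 4, 5, 1], 98), (45, [4, 6, 4], 98), (47, [2], 91), (53, [0, 1, 3, 1, 0], 98), (54, [4, 0, 2, 3, 0], 98), (59, [6, 0, 1, 0], 98)]),
([0, 1, 3, 4, 8, 9], [(10, [], 85), (11, [], 81), (31, [3, 0, 6, 0, 3], 81), (43, [3, 0, 6, 0, 3], 85), (54, [5, 1, 2, 3, 2, 0, 1], 26), (58, [6, 3, 0, 1, 0], 10)]),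
([1, 3, 4, 6, 8, 9], [(10, [], 85), (11, [], 81), (14, [1, 0, 2, 6, 5, 0], 80), (31, [3, 0, 6, 0, 3], 81), (43, [3, 0, 6, 0, 3], 85), (52, [3, 1, 2, 5, 4], 80), (54, [5, 1, 2, 3, 2, 0, 1], 51), (58, [3, 0, 2, 0, 3], 71)]),
([0, 3, 4, 7, 8, 9], [(10, [], 85), (11, [], 81), (25, [2, 1, 6, 1, 2], 49), (31, [4, 1, 0, 6, 3, 0], 67), (37, [0, 1, 4, 5, 3, 2, 0], 87), (43, [3, 2, 6, 4, 2, 3, 0], 4), (54, [4, 2, 1, 3, 2, 1], 78), (58, [0, 1, 4, 5, 3, 2, 0], 79)]),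
([3, 4, 6, 7, 8, 9], [(10, [], 85), (11, [], 81), (31, [5, 4, 3, 0], 64), (37, [6, 1, 6, 4, 0, 4, 0], 56), (43, [0, 6, 2, 1, 0, 3], 88), (47, [0, 6, 2, 1, 0, 3], 57), (52, [6, 1, 6, 4, 0, 4, 0], 55), (54, [5, 4, 3, 0], 79), (58, [0, 6, 2, 1, 0, 3], 75)]),
([0, 1, 3, 4, 8, 10], [(9, [], 89), (11, [2, 1, 6, 1, 2], 85), (24, [3, 2, 5, 0, 1, 2], 22), (30, [6, 5, 3, 0, 2], 13), (31, [4, 6, 2, 3, 1, 0, 1, 0], 48), (43, [6, 3, 1, 6, 0], 62), (54, [0, 3, 0, 2, 5, 1, 0], 78), (58, [0, 3, 0, 2, 5, 1, 0], 64)]),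
([1, 3, 4, 6, 8, 10], [(9, [], 89), (11, [2, 1, 6, 1, 2], 84), (18, [5, 1, 2, 6, 0], 84), (24, [4, 1, 3, 0], 84), (27, [1, 2, 4, 6, 1, 0], 89), (31, [3, 0, 1, 4, 3, 2, 1, 0], 73), (43, [0, 2, 6, 5, 2, 0], 62), (52, [6, 3, 1, 6, 0], 62), (54, [5, 1, 2, 3, 2, 0, 1], 73), (58, [2, 4, 0, 4, 2, 0], 84)]),
([0, 3, 4, 7, 8, 10], [(9, [], 89), (11, [2, 1, 6, 1, 2], 86), (21, [2, 1, 6, 1, 2], 70), (30, [1, 4, 5, 0, 2, 4, 1, 0], 38), (31, [4, 6, 2, 3, 1, 0, 1, 0], 72), (37, [4, 6, 3, 0, 6, 0], 26), (43, [1, 6, 3, 2, 1, 6, 2, 0], 65), (54, [2, 0, 4, 6, 4, 3, 0], 80), (58, [0, 3, 0, 2, 5, 1, 0], 46)]),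
([3, 4, 6, 7, 8, 10], [(9, [], 89), (11, [2, 1, 6, 1, 2], 85), (27, [1, 2, 4, 6, 1, 0], 65), (31, [1, 0, 1, 4, 0, 4, 1], 62), (37, [5, 3, 2, 4, 5], 85), (43, [3, 2, 1, 0, 1, 3], 65), (47, [5, 2, 0, 3, 5, 0], 85), (52, [0, 6, 5, 3, 0], 89), (54, [1, 0, 1, 4, 0, 4, 1], 63), (58, [2, 4, 0, 4, 2, 0], 85)]),
([1, 3, 4, 6, 9, 10], [(8, [], 92), (11, [], 83), (31, [4, 5, 1, 0, 1, 0], 83), (43, [4, 5, 1, 0, 1, 0], 92), (52, [0, 3, 1, 6, 2, 3, 0], 93), (54, [5, 1, 2, 3, 2, 0, 1], 50), (56, [3, 0, 2, 0, 3], 93), (58, [2, 4, 0, 4, 2, 0], 79)]),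
([0, 3, 4, 7, 9, 10], [(8, [], 92), (11, [2, 1, 6, 1, 2], 84), (26, [2, 1, 6, 1, 2], 83), (31, [5, 1, 2, 1, 3, 1], 73), (37, [2, 4, 5, 4, 2, 1], 53), (43, [1, 4, 6, 3, 0, 6, 0], 77), (54, [2, 4, 5, 4, 2, 1], 51), (56, [2, 4, 5, 4, 2, 1], 54), (58, [1, 4, 6, 3, 0, 6, 0], 71)]),
([3, 4, 6, 7, 9, 10], [(8, [], 92), (11, [], 83), (31, [4, 5, 1, 0, 1, 0], 77), (37, [6, 4, 5], 64), (43, [3, 2, 5, 4, 6, 1], 89), (47, [3, 2, 5, 4, 6, 1], 88), (52, [0, 2, 6, 4, 5, 4, 0], 62), (54, [6, 4, 0], 57), (56, [3, 0, 2, 0, 3], 93), (58, [2, 4, 0, 4, 2, 0], 79)]),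
([0, 1, 3, 8, 9, 10], [(4, [], 96), (11, [2, 1, 6, 1, 2], 96), (15, [], 70), (31, [5, 0], 69), (39, [3, 5, 1, 2, 1, 3, 1], 69), (43, [6, 0, 4, 1, 6], 68), (46, [5, 0], 95), (51, [4, 1, 6, 5, 2, 1, 0], 94), (54, [5, 4, 2, 3, 0, 3], 94), (58, [2, 1, 3, 0, 6, 5, 1, 0], 56)]),
([0, 3, 4, 8, 9, 10], [(1, [], 97), (7, [], 95), (11, [], 83), (31, [0, 4, 1, 2, 5, 3, 0], 32), (37, [1, 0, 3, 0], 93), (43, [1, 0, 3, 0], 91), (54, [1, 2, 0, 3, 0], 60), (58, [3, 2, 4, 6, 2, 1], 74)]),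
([3, 4, 6, 8, 9, 10], [(1, [], 97), (7, [], 95), (11, [], 82), (31, [4, 6, 1, 0, 6, 2, 0], 34), (37, [1, 0, 3, 0], 66), (43, [2, 6, 2], 97), (47, [4, 2, 1, 6, 1, 3, 1], 66), (52, [2, 6, 2], 95), (54, [5, 1, 2, 3, 2, 0, 1], 56), (58, [3, 0, 2, 0, 3], 82)]),
([0, 4, 7, 8, 9, 10], [(3, [], 97), (11, [2, 1, 6, 1, 2], 84), (17, [1, 6, 2, 1, 6], 89), (31, [3, 1, 0, 1, 4], 54), (36, [1, 3, 1, 0, 3, 0], 24), (37, [2, 6, 1, 2], 89), (43, [0, 6, 1, 6, 0], 97), (54, [0, 4, 1, 2, 5, 3, 0], 40), (58, [4, 2, 3, 5, 1, 0], 54)]),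
([3, 6, 7, 8, 9, 10], [(4, [], 97), (11, [2, 1, 6, 1, 2], 97), (15, [1, 4, 2, 5, 0, 2, 1], 72), (31, [6, 1, 2, 6, 0], 19), (37, [5, 4, 3, 5], 97), (43, [0, 4, 6], 72), (46, [1, 2, 6, 4, 5, 0, 1, 0], 17), (47, [2, 3, 0, 1, 0, 2], 97), (51, [6, 5, 2, 0, 4, 1, 0], 17), (52, [1, 0, 2, 0, 1], 97), (54, [3, 5, 4, 1, 0, 3, 0], 17), (58, [2, 3, 2], 97)]),
([0, 1, 3, 4, 8, 11], [(9, [], 97), (10, [2, 1, 6, 1, 2], 97), (31, [4, 0, 2, 3, 1, 0], 32), (43, [1, 6, 1], 60), (48, [3, 1, 6, 4, 1, 3, 0], 40), (58, [1, 6, 1], 48)]),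
([1, 3, 4, 6, 8, 11], [(9, [], 97), (10, [2, 1, 6, 1, 2], 96), (14, [], 85), (18, [], 67), (31, [0, 2, 0, 6, 0, 2, 0], 80), (43, [2, 5, 2], 85), (52, [2, 1, 6, 3, 1, 2], 96), (58, [2, 5, 2], 97)]),
([3, 4, 6, 7, 8, 11], [(9, [], 96), (10, [2, 1, 6, 1, 2], 96), (22, [], 45), (31, [6, 4, 2, 1, 3], 53), (37, [1, 3, 2, 0, 2, 0], 72), (43, [2, 6, 4, 5, 4, 2], 62), (47, [0, 6, 4], 19), (52, [2, 0, 2, 4, 1, 3, 0], 72), (58, [6, 1, 3, 2, 6, 0], 30)]),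
([0, 1, 3, 4, 9, 11], [(8, [], 100), (10, [], 96), (31, [2, 3, 5, 4, 2], 81), (43, [6, 5, 2, 4], 39), (44, [2, 6, 4, 5, 0, 2, 0], 29), (56, [2, 3, 5, 4, 2], 84), (58, [5, 3, 1, 2, 5, 1], 34)]),
([0, 1, 3, 5, 9, 11], [(10, [], 96), (31, [2, 5, 4, 2], 62), (33, [1, 2, 5, 0, 3, 2, 0], 68), (44, [6, 5, 3, 0, 1, 0], 70), (51, [6, 5, 3, 0, 1, 0], 67), (56, [2, 5, 4, 2], 63)]),
([1, 3, 4, 6, 9, 11], [(8, [], 101), (10, [], 96), (14, [], 88), (20, [2, 1, 6, 1, 2], 60), (31, [2, 3, 5, 4, 2], 55), (43, [0, 4, 1, 6, 4, 0], 42), (44, [3, 5, 1, 4, 6, 4, 1], 52), (52, [1, 4, 2, 5, 3, 0, 1, 0], 41), (56, [5, 1, 4, 5, 3, 2, 0], 82), (58, [5, 3, 1, 2, 5, 1], 43)])]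

/-- Part 7 of the chain. -/
def chain7 : List (List Nat × List (Nat × List Nat × Nat)) := [
([0, 3, 4, 7, 9, 11], [(8, [], 101), (10, [2, 1, 6, 1, 2], 97), (25, [2, 1, 6, 1, 2], 71), (31, [4, 1, 0, 6, 3, 0], 86), (37, [6, 4, 5, 1, 0, 1], 80), (43, [6, 4, 5, 1, 0, 1], 81), (56, [4, 5, 2, 3, 2, 1, 0], 82), (57, [6, 5, 1, 2, 6], 40), (58, [6, 4, 1, 2, 3, 2], 42)]),
([3, 4, 6, 7, 9, 11], [(8, [], 101), (10, [], 96), (20, [0, 6, 2, 5, 1], 63), (31, [4, 1, 0, 6, 3, 0], 59), (37, [5, 2, 0, 2, 5, 0], 101), (43, [0, 2, 6, 4, 1, 3, 0], 43), (47, [4, 0, 2, 6, 3, 0], 37), (52, [5, 2, 0, 2, 5, 0], 96), (56, [4, 5, 2, 3, 2, 1, 0], 63), (57, [6, 5, 1, 2, 6], 43), (58, [6, 5, 1, 2, 6], 37)]),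
([0, 1, 4, 8, 9, 11], [(3, [], 105), (10, [], 96), (17, [], 77), (31, [3, 1, 6, 4, 1, 3, 0], 36), (40, [2, 6, 1, 2], 78), (43, [0, 6, 1, 6, 0], 102), (55, [5, 1, 4, 2, 0, 2, 0], 47), (58, [2, 1, 3, 2], 63)]),
([1, 3, 4, 8, 9, 11], [(0, [], 106), (6, [], 105), (10, [2, 1, 6, 1, 2], 96), (14, [], 90), (31, [2, 3, 5, 2, 0, 1, 0], 62), (43, [6, 0, 3, 1, 4, 2, 1, 0], 100), (52, [6, 0, 3, 1, 4, 2, 1, 0], 102), (58, [1, 3, 5, 1, 2, 1, 0], 65)]),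
([1, 4, 6, 8, 9, 11], [(3, [], 106), (10, [], 96), (14, [], 89), (31, [1, 0, 1], 34), (40, [3, 5, 4, 1, 3, 0, 1, 0], 106), (43, [0, 6, 1, 6, 0], 106), (52, [1, 6, 1, 6, 1], 106), (58, [1, 0, 6, 1, 6, 1], 34)]),
([3, 4, 6, 8, 9, 11], [(1, [], 107), (7, [], 105), (10, [], 96), (14, [], 89), (31, [4, 1, 0, 6, 3, 0], 61), (37, [1, 0, 3, 0], 81), (43, [2, 6, 2], 102), (47, [0, 1, 4, 6, 5, 0, 1, 0], 39), (52, [2, 6, 2], 100), (58, [2, 4, 6, 0, 2, 1, 0], 41)]),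
([0, 1, 3, 5, 10, 11], [(9, [], 104), (31, [2, 5, 4, 5, 2], 76), (45, [6, 5, 4, 2, 3, 2, 1, 0], 54), (51, [5, 1, 2, 3, 2, 0], 53), (56, [2, 5, 4, 5, 2], 75)]),
([1, 3, 5, 6, 10, 11], [(9, [], 103), (18, [5, 2, 0, 4, 6, 1], 103), (31, [3, 1, 4, 6, 1], 42), (51, [2, 4, 5, 4, 5, 2], 77), (52, [6, 3, 0, 6, 5, 2, 0], 38), (56, [2, 4, 5, 4, 5, 2], 78), (59, [3, 1, 2, 1, 0], 42)]),
([0, 1, 4, 9, 10, 11], [(3, [], 107), (8, [], 102), (17, [], 82), (31, [3, 5, 4, 6], 103), (40, [2, 1, 6, 1, 2], 82), (41, [1, 3, 0, 2, 6, 3, 0], 55), (43, [0, 6, 1, 6, 0], 103), (55, [1, 2, 5, 0, 2, 1, 0], 102), (56, [1, 2, 5, 0, 2, 1, 0], 107), (58, [6, 5, 3], 59)]),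
([0, 1, 5, 9, 10, 11], [(3, [], 107), (17, [], 82), (31, [4, 5, 1, 0, 2, 0, 1, 0], 78), (41, [2, 3, 5, 4, 5, 2], 77), (51, [2, 5, 3, 0, 1, 4], 82), (55, [2, 4, 5, 3, 0, 1], 107), (56, [2, 3, 5, 4, 5, 2], 78)]),
([0, 3, 5, 9, 10, 11], [(1, [], 108), (31, [2, 4, 6, 2], 58), (51, [5, 3, 1, 2, 1, 3, 0], 73), (56, [2, 3, 2], 108)]),
([1, 3, 5, 9, 10, 11], [(0, [], 109), (6, [], 107), (31, [2, 4, 2], 107), (51, [2, 4, 2], 109), (52, [5, 0, 4, 6, 4, 3], 57), (56, [2, 4, 1, 6, 5, 0], 89)]),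
([1, 5, 6, 9, 10, 11], [(3, [], 108), (16, [], 90), (31, [2, 4, 6, 5, 0, 3], 62), (35, [3, 1, 2, 6], 83), (41, [5, 2, 0, 4, 6, 1], 81), (51, [3, 2, 1, 6, 5, 1, 0], 81), (52, [1, 6, 1, 6, 1], 108), (56, [6, 0, 4, 2, 5, 3, 0], 83)]),
([3, 5, 6, 9, 10, 11], [(1, [], 109), (31, [6, 1, 2, 6, 0], 40), (47, [2, 6, 5, 2], 62), (51, [2, 6, 2], 61), (52, [2, 6, 2], 62), (56, [2, 3, 2], 109)]),
([0, 4, 8, 9, 10, 11], [(1, [], 108), (3, [], 107), (7, [2, 1, 6, 1, 2], 106), (17, [1, 0, 3, 0], 105), (31, [2, 4, 6, 2], 50), (37, [1, 2, 1], 107), (40, [1, 2, 1], 108), (43, [6, 4, 5, 4], 105), (55, [0, 6, 2, 3, 5, 1, 0], 59), (58, [4, 1, 6], 58)]),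
([0, 3, 5, 10, 11, 12], [(21, [0, 2, 0, 3, 1], 83), (51, [4, 0, 6, 4, 2, 3, 0], 83), (56, [2, 5, 4, 5, 2], 83)]),
([3, 6, 8, 10, 11, 12], [(18, [], 84), (37, [1, 0, 3, 0], 89), (47, [1, 4, 3, 1], 79), (51, [2, 6, 2], 84), (58, [1, 4, 3, 1], 63)]),
([1, 3, 4, 6, 11, 14], [(8, [], 107), (9, [], 106), (18, [], 84), (20, [2, 5, 0, 3, 0], 94), (31, [0, 2, 0, 6, 0, 2, 0], 106), (43, [2, 1, 6, 4, 1, 0, 1], 43), (44, [2, 5, 2, 4, 1, 0, 1], 100), (52, [0, 4, 2, 5, 0, 1, 2, 0], 98), (56, [0, 4, 2, 5, 0, 1, 2, 0], 100), (58, [5, 3, 1, 2, 5, 1], 60)]),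
([1, 3, 5, 6, 11, 14], [(9, [], 106), (18, [], 84), (20, [], 78), (31, [1, 4, 2, 5, 3, 1], 55), (33, [6, 5, 3, 0, 3, 2, 0], 55), (44, [1, 0, 4, 0, 1], 77), (51, [2, 6, 5, 2], 60), (52, [1, 0, 4, 0, 1], 72), (56, [2, 6, 1, 2, 5, 1, 2], 60)]),
([1, 3, 4, 8, 11, 14], [(6, [], 109), (9, [], 106), (18, [], 84), (31, [0, 2, 0, 6, 0, 2, 0], 106), (43, [1, 6, 1], 86), (48, [1, 4, 0, 2, 4, 5], 97), (52, [1, 4, 6, 0, 2, 4], 43), (58, [2, 6, 1, 3, 2, 4, 1, 0], 100)]),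
([1, 3, 4, 9, 11, 14], [(6, [], 109), (8, [], 107), (20, [0, 1, 6, 4, 5, 0, 1, 0], 103), (31, [5, 4, 1, 3, 0, 1, 0], 71), (43, [5, 2, 6, 1, 2, 1, 0], 103), (44, [2, 6, 4, 5, 0, 2, 0], 72), (52, [2, 3, 5, 3, 2], 107), (56, [5, 3, 1, 2, 5, 1], 61), (58, [2, 3, 5, 3, 2], 109)]),
([1, 3, 5, 9, 11, 14], [(6, [], 109), (20, [], 80), (31, [2, 4, 6, 5, 2], 105), (33, [6, 2, 1, 0, 6, 0], 105), (44, [1, 2, 6, 3, 0, 2, 1, 0], 106), (51, [3, 5, 4, 2, 1], 108), (52, [6, 5, 2, 0, 4, 0], 59), (56, [1, 2, 6, 3, 0, 2, 1, 0], 108)]),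
([1, 3, 6, 9, 11, 14], [(4, [], 111), (5, [], 110), (8, [], 108), (20, [], 80), (31, [2, 4, 5, 4, 2], 80), (33, [4, 6, 4, 0, 6, 0], 82), (43, [2, 0, 3, 0, 2], 99), (44, [0, 6, 2, 3, 2, 1, 0], 78), (51, [2, 4, 5, 4, 2], 108), (52, [2, 4, 5, 4, 2], 110), (56, [2, 4, 5, 4, 2], 111), (58, [2, 6, 5, 2], 78)]),
([1, 4, 6, 9, 11, 14], [(3, [], 112), (8, [], 108), (20, [], 80), (31, [3, 5, 4, 6], 79), (40, [3, 5, 4, 1, 3, 0, 1, 0], 109), (41, [3, 2, 6, 0], 50), (43, [0, 6, 1, 6, 0], 112), (44, [0, 6, 1, 6, 0], 80), (52, [1, 6, 1, 6, 1], 109), (56, [1, 6, 2, 5, 2], 75), (58, [6, 5, 3], 79)]),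
([3, 4, 6, 9, 11, 14], [(1, [], 113), (8, [], 108), (20, [], 80), (31, [2, 3, 2, 0, 1, 0], 82), (43, [5, 1, 3, 2, 0, 1], 107), (44, [0, 3, 5, 2, 1, 4, 0], 85), (47, [0, 1, 6, 0], 83), (52, [6, 5, 3, 0, 3, 1], 86), (56, [5, 2, 0, 2, 5, 0], 75), (57, [1, 4, 2, 5, 3], 61), (58, [4, 2, 0, 4, 3, 0], 68)]),
([3, 5, 6, 9, 11, 14], [(1, [], 113), (20, [], 80), (28, [6, 4, 1, 0, 3, 2, 0], 86), (31, [6, 5, 1, 4, 6], 81), (33, [6, 5, 1, 4, 2, 6], 81), (44, [6, 5, 3, 1, 0], 55), (47, [1, 2, 5, 4, 6, 0, 1, 0], 86), (51, [5, 1, 3, 2, 0, 1], 87), (52, [6, 5, 3, 1, 0], 53), (56, [5, 3, 0, 6, 1], 87), (57, [1, 4, 2, 5, 3], 69)]),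
([1, 3, 8, 9, 11, 14], [(4, [], 113), (6, [], 112), (23, [4, 6, 0, 2, 4, 3, 0], 61), (31, [6, 1, 2, 1, 3, 2], 63), (33, [1, 4, 0, 2, 4, 5], 108), (43, [6, 3, 2, 1, 0, 3], 108), (51, [4, 2, 0, 6, 3, 1, 0], 61), (52, [3, 1, 4, 5, 3, 0, 1, 0], 113), (58, [3, 1, 4, 5, 3, 0, 1, 0], 112)]),
([3, 6, 8, 9, 11, 14], [(1, [], 113), (4, [], 111), (28, [0, 3, 1, 4], 109), (31, [6, 3, 0, 3, 5, 0], 87), (33, [1, 3, 5, 3, 1], 113), (43, [1, 6, 5, 4, 5, 2, 0], 109), (47, [1, 3, 5, 3, 1], 111), (51, [4, 2, 1, 0, 6, 5], 77), (52, [1, 6, 5, 4, 5, 2, 0], 89), (58, [0, 3, 1, 4], 89)]),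
([3, 6, 8, 11, 12, 14], [(18, [], 91), (22, [5, 4, 5, 3, 2, 0], 97), (28, [1, 4, 5, 3, 1], 100), (33, [1, 3, 5, 3, 1], 92), (47, [3, 2, 0, 1, 4, 0], 92), (51, [3, 1, 0, 3, 0, 2, 0], 97), (58, [1, 4, 5, 3, 1], 76)]),
([1, 3, 5, 6, 9, 15], [(10, [], 111), (31, [4, 2, 5, 1, 0, 1, 0], 100), (33, [6, 1, 3, 2, 5, 2], 100), (44, [1, 4, 0, 1, 3, 5], 101), (46, [6, 2, 0, 2, 5, 2], 61), (51, [6, 0, 6, 5, 0, 3, 1, 0], 96), (52, [2, 5, 4, 2], 62), (54, [2, 0, 3, 0, 2], 111), (56, [1, 4, 0, 1, 3, 5], 96)])]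

/-- Part 8 of the chain. -/
def chain8 : List (List Nat × List (Nat × List Nat × Nat)) := [
([0, 3, 5, 9, 10, 15], [(1, [], 113), (26, [6, 5, 1, 3, 0, 6], 91), (31, [5, 3, 1, 2, 1, 3, 0], 62), (39, [0, 1, 0, 2, 6, 3, 0], 91), (46, [5, 3, 0, 6, 1], 83), (51, [5, 3, 1, 2, 1, 3, 0], 82), (54, [6, 1, 6, 5, 4, 0], 83), (56, [2, 3, 2], 113)]),
([1, 3, 5, 9, 10, 15], [(0, [], 114), (6, [], 113), (26, [5, 1, 4, 5, 2, 0, 1], 92), (31, [2, 4, 2], 113), (39, [5, 0, 1, 0, 4, 6, 1, 0], 88), (46, [5, 1, 0, 1, 4, 6], 92), (51, [2, 4, 2], 114), (52, [2, 3, 5, 2, 4, 5, 2, 0], 70), (54, [6, 3, 1, 4, 3, 0], 88), (56, [2, 4, 1, 6, 5, 0], 108)]),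
([3, 5, 6, 9, 10, 15], [(1, [], 114), (31, [5, 1, 2, 3, 2, 0, 1], 65), (46, [2, 5, 0, 1, 4, 3], 86), (47, [1, 0, 1, 4, 6, 0], 63), (51, [6, 1, 6, 5, 4, 0], 64), (52, [2, 5, 4, 2, 1], 63), (54, [5, 1, 2, 3, 2, 0, 1], 86), (56, [2, 3, 2], 114)]),
([0, 1, 4, 8, 9, 17], [(10, [], 109), (11, [], 108), (31, [6, 1, 3, 1], 78), (40, [4, 1, 2, 1], 109), (43, [4, 1, 2, 1], 108), (55, [2, 6, 4, 0, 4, 1, 0], 78), (58, [1, 6], 86)]),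
([0, 1, 4, 9, 10, 17], [(8, [], 110), (11, [], 108), (31, [3], 110), (40, [3], 108), (41, [1, 2, 6, 4, 5, 4], 97), (43, [4, 2, 1, 6, 1, 2], 110), (55, [1, 2, 5, 0, 2, 1, 0], 110), (58, [1, 2, 6, 4, 5, 4], 86)]),
([0, 1, 9, 10, 11, 17], [(4, [], 109), (5, [], 108), (8, [1, 6, 1, 6, 1], 109), (31, [4, 3, 1, 2, 1, 3], 109), (40, [4], 109), (41, [3, 1, 2, 1, 3], 108), (43, [4, 1, 6, 1, 6, 1], 109), (51, [1, 2, 5, 0, 2, 1, 0], 108), (55, [3, 1, 2, 1, 3], 109), (58, [1, 6, 4, 5, 4, 1], 76)]),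
([1, 4, 8, 9, 13, 17], [(40, [3, 5, 4, 1, 3, 0, 1, 0], 85), (52, [4, 0, 2, 6, 3, 1], 82), (55, [1, 6, 4, 2, 5, 2, 0], 61), (58, [3, 1, 2, 6, 0, 1, 0], 85)]),
([2, 7, 8, 9, 13, 17], [(25, [6, 3, 1, 0, 1], 109), (36, [5, 4, 2, 1, 3], 109), (42, [2, 5, 4, 6, 0, 1], 109), (46, [6, 5, 1, 3, 1, 0], 109), (52, [3, 1, 2, 0, 4, 1, 0], 109), (58, [6, 0, 6, 0, 3], 109)]),
([2, 8, 12, 13, 17, 18], [(22, [], 83), (25, [1, 6, 5, 3, 1], 83), (30, [2, 3, 0, 6, 4], 63), (35, [1, 3, 1], 83), (36, [3, 0, 2], 61), (39, [4, 6, 1, 6, 4, 0], 67), (40, [1, 6, 1], 83), (46, [5], 83)]),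
([0, 4, 7, 10, 11, 19], [(3, [], 100), (21, [2, 1, 6, 1, 2], 96), (31, [4, 5, 2, 4, 2, 0], 67), (37, [0, 2, 3, 1, 4, 2, 0], 93), (41, [5, 2, 0, 6, 2, 1, 0], 88), (43, [0, 2, 3, 1, 4, 2, 0], 92), (45, [1, 4, 5, 0, 1], 68), (56, [2, 3, 1, 0, 3, 0], 92), (58, [6, 5, 3], 100)]),
([3, 5, 6, 11, 14, 20], [(1, [], 100), (9, [], 95), (12, [4, 3, 0, 2, 4, 0], 96), (18, [5, 2, 6, 3, 1], 97), (22, [1, 2, 5, 2, 1], 96), (28, [4, 2, 1, 3, 5], 96), (31, [4, 2, 1, 3, 5], 98), (33, [1, 3, 5, 2, 3, 1], 98), (44, [1, 0, 4, 0, 1], 95), (47, [1, 3, 5, 2, 3, 1], 96), (51, [1, 2, 5, 2, 1], 98), (52, [4, 5, 4, 2, 3], 97), (56, [4, 3, 0, 2, 4, 0], 98), (57, [4, 3, 2, 5, 4, 1], 62)]),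
([3, 5, 9, 11, 14, 20], [(1, [], 100), (6, [], 96), (28, [5, 3, 2, 1, 0, 4], 75), (31, [3, 2, 5, 4, 1, 0, 1, 0], 77), (33, [5, 4, 1, 2, 3], 77), (44, [3, 0, 1, 2, 3, 1], 71), (47, [5, 3, 1, 2, 1, 3, 0], 75), (51, [1, 2, 5, 2, 1], 100), (52, [5, 1, 2, 3, 2, 0], 75), (56, [2, 3, 2], 100), (57, [3, 2, 5, 4, 1], 77)]),
([2, 7, 9, 13, 16, 20], [(32, [5, 4, 2, 3, 5], 76), (34, [0, 2, 4, 3, 2, 0], 70), (36, [6, 2, 4, 5, 2, 0], 87), (42, [1, 3, 0, 2, 0, 1, 0], 80), (46, [6, 5, 1, 4, 6, 0, 1, 0], 76), (47, [2, 6, 1, 0, 2, 1], 87), (56, [1, 3, 0, 2, 0, 1, 0], 87), (58, [2, 0, 4, 1, 0], 76)]),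
([1, 4, 9, 11, 17, 20], [(31, [5, 4, 1, 3, 0, 1, 0], 92), (32, [6, 0, 3, 1, 0, 2], 74), (41, [4, 6, 0, 3, 0], 89), (43, [3, 1, 4, 0, 6, 2, 0], 92), (52, [1, 2, 6, 3, 2], 74), (58, [5, 2, 0, 6, 2, 1, 0], 82)]),
([2, 6, 12, 16, 18, 20], [(19, [], 94), (44, [4, 0, 4, 6, 0, 4], 84), (46, [4, 5, 3, 0, 3, 1], 79), (51, [0, 2, 0, 6, 0, 2, 0], 79), (53, [0, 6, 1, 6, 1, 2], 84), (56, [0, 2, 4, 5], 77)]),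
([5, 11, 12, 17, 18, 20], [(22, [2, 0, 3, 0, 2], 84), (41, [2, 0, 3, 0, 2], 85), (49, [3, 2, 1, 4, 6, 5], 85), (51, [6, 0], 72), (57, [3, 2, 1, 4, 6, 5], 84), (59, [0, 2, 5, 1, 2], 78)]),
([2, 6, 16, 18, 19, 20], [(12, [], 96), (43, [6, 1, 6, 0, 1], 85), (44, [6, 1, 0, 1], 81), (46, [5], 73), (53, [3, 0, 2, 0, 3], 73), (56, [6, 2, 0, 4, 6, 1], 81)]),
([3, 5, 6, 12, 20, 22], [(11, [], 91), (14, [2, 0, 3, 0, 2], 91), (18, [4, 5, 4], 91), (24, [0, 2, 6, 4, 5, 4, 0], 83), (28, [6, 2, 1, 6, 3], 83), (38, [5, 4, 6, 5, 1, 2, 0], 70), (44, [1, 6, 4, 1, 6, 1, 0], 76), (46, [0, 6, 4, 5, 2, 3, 0], 83), (47, [1, 6, 1, 6, 3], 83), (51, [6, 1, 2, 1, 0, 3, 0], 91), (56, [1], 91), (57, [4, 6, 5, 4, 3, 2], 69), (59, [6, 1, 6, 3], 83)]),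
([0, 1, 3, 4, 8], [(9, [], 69), (10, [], 65), (11, [], 53), (24, [3, 0, 1, 3, 1], 2), (30, [1, 3, 2, 6, 2, 0], 4), (31, [3, 0, 6, 0, 3], 53), (43, [3, 0, 6, 0, 3], 65), (48, [6, 5, 2, 0], 4), (54, [6, 3, 2, 0, 6, 3], 34), (58, [6, 3, 2, 0, 6, 3], 15)]),
([1, 3, 4, 6, 8], [(9, [], 69), (10, [], 65), (11, [], 53), (14, [3, 0, 1, 4, 3, 2, 1, 0], 65), (18, [5, 1, 2, 3, 2, 0, 1], 69), (24, [0, 4, 2, 6], 53), (27, [6, 2, 4, 0], 69), (31, [3, 0, 6, 0, 3], 53), (43, [3, 0, 6, 0, 3], 65), (52, [2, 5, 2], 65), (54, [5, 1, 2, 3, 2, 0, 1], 53), (58, [2, 5, 2], 69)]),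
([0, 3, 4, 7, 8], [(9, [], 69), (10, [], 65), (11, [2, 1, 6, 1, 2], 54), (21, [0, 1, 4, 5, 3, 2, 0], 62), (25, [2, 0, 4, 6, 4, 3, 0], 51), (30, [2, 1, 3, 1, 2], 55), (31, [4, 6, 2, 3, 1, 0, 1, 0], 28), (37, [0, 1, 4, 5, 3, 2, 0], 59), (43, [5, 2, 1, 6, 5, 1], 30), (54, [2, 0, 4, 6, 4, 3, 0], 38), (58, [5, 2, 1, 6, 5, 1], 46)]),
([3, 4, 6, 7, 8], [(9, [], 69), (10, [], 65), (11, [], 54), (22, [6, 1, 6, 4, 0, 4, 0], 7), (27, [2, 0, 2, 4, 1, 3, 0], 68), (31, [5, 4, 3, 0], 19), (37, [6, 2, 4, 5], 48), (43, [0, 6, 2, 1, 0, 3], 68), (47, [0, 6, 5, 3, 0], 54), (52, [0, 6, 5, 3, 0], 69), (54, [5, 4, 3, 0], 39), (58, [6, 5, 4, 2, 5, 4, 2], 48)]),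
([0, 1, 3, 4, 9], [(8, [], 73), (10, [2, 1, 6, 4, 0, 1, 0], 71), (11, [], 54), (26, [2, 1, 6, 1, 2], 45), (31, [2, 1, 6, 4, 0, 1, 0], 61), (43, [3, 0, 6, 0, 3], 61), (44, [0, 4, 3, 0], 73), (54, [4, 0, 4, 0, 2], 45), (56, [3, 0, 6, 0, 3], 71), (58, [0, 4, 3, 0], 54)]),
([0, 1, 3, 5, 9], [(10, [0, 4, 3, 5], 71), (11, [], 54), (15, [5, 3, 1, 4, 6, 4, 0], 53), (26, [3, 5, 3, 0, 1, 3], 38), (31, [2, 0, 4, 2, 5], 66), (33, [3, 0, 2, 5], 62), (39, [0, 4, 3, 5], 47), (44, [0, 4, 3, 5], 73), (46, [5, 3, 0, 1], 19), (51, [2, 0, 4, 2, 5], 64), (54, [3, 5, 3, 0, 1, 3], 50), (56, [3, 0, 2, 5], 61)]),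
([1, 3, 5, 6, 9], [(10, [5, 0, 1, 2, 0, 3, 0], 71), (11, [2, 1, 4, 1, 0, 1, 0], 69), (14, [0, 1, 0, 2, 0, 3, 1, 0], 69), (15, [], 24), (20, [3, 0, 3, 5, 4, 1, 0], 61), (31, [0, 3, 5, 4, 2, 0], 53), (33, [3, 1, 2, 5, 3], 53), (44, [6, 5, 3, 0, 1, 0], 74), (46, [5, 3, 0, 1], 75), (51, [5, 3, 0, 1], 64), (52, [2, 0, 4, 3, 2, 5], 21), (54, [5, 2, 1, 0, 4, 1], 71), (56, [5, 2, 1, 0, 4, 1], 64)]),
([0, 3, 4, 7, 9], [(8, [], 74), (10, [], 67), (11, [], 54), (25, [2, 1, 3, 2, 5, 0], 42), (26, [2, 1, 6, 1, 2], 47), (31, [4, 1, 0, 6, 3, 0], 28), (37, [0, 1, 4, 5, 3, 2, 0], 72), (43, [1, 4, 6, 3, 0, 6, 0], 35), (54, [4, 2, 1, 3, 2, 1], 56), (56, [0, 2, 5, 4, 5, 1], 25), (57, [6, 0, 6, 1, 4, 0], 10), (58, [4, 2, 1, 3, 2, 1], 57)]),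
([3, 4, 6, 7, 9], [(8, [], 74), (10, [], 67), (11, [], 54), (20, [3, 2, 5, 4, 6, 1], 52), (31, [4, 5, 1, 0, 1, 0], 31), (37, [6, 1, 6, 4, 0, 4, 0], 53), (43, [0, 6, 2, 1, 0, 3], 65), (47, [3, 2, 5, 4, 6, 1], 50), (52, [6, 1, 6, 4, 0, 4, 0], 47), (54, [5, 4, 3, 0], 49), (56, [3, 0, 2, 0, 3], 63), (57, [6, 1, 6, 4, 0, 4, 0], 58), (58, [0, 6, 2, 1, 0, 3], 41)]),
([0, 1, 4, 8, 9], [(3, [], 78), (10, [3, 0, 1, 2, 6, 0], 75), (11, [], 54), (17, [], 23), (31, [3, 0, 6, 0, 3], 54), (40, [2, 6, 1, 2], 22), (43, [0, 6, 1, 6, 0], 75), (54, [5, 4, 6, 5, 0], 46), (55, [3, 0, 6, 0, 3], 23), (58, [5, 4, 6, 5, 0], 26)]),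
([1, 3, 4, 8, 9], [(0, [], 79), (6, [], 78), (10, [3, 0, 2, 0, 3], 71), (11, [], 54), (13, [0, 3, 0, 2, 1], 47), (14, [1, 0, 2, 6, 5, 0], 77), (31, [3, 0, 6, 0, 3], 54), (43, [6, 0, 3, 1, 4, 2, 1, 0], 71), (52, [3, 1, 2, 5, 4], 77), (54, [2, 3, 0, 3, 2, 5], 29), (58, [3, 1, 2, 5, 4], 65)]),
([1, 4, 6, 8, 9], [(3, [], 79), (10, [3, 0, 2, 0, 3], 79), (11, [], 54), (14, [4, 6, 3, 0, 2, 4, 1, 0], 63), (31, [3, 0, 6, 0, 3], 54), (40, [3, 5, 4, 1, 3, 0, 1, 0], 63), (43, [0, 6, 1, 6, 0], 79), (52, [1, 6, 1, 6, 1], 63), (54, [2, 6, 4, 0, 4, 3, 1, 0], 21), (58, [3, 0, 2, 0, 3], 54)])]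

/-- Part 9 of the chain. -/
def chain9 : List (List Nat × List (Nat × List Nat × Nat)) := [
([0, 3, 7, 8, 9], [(4, [], 79), (10, [5, 2, 1, 6, 1, 2, 0], 70), (11, [2, 1, 6, 1, 2], 76), (15, [0, 3, 5, 2, 0, 3, 1, 0], 74), (23, [4, 3, 0, 6, 5], 71), (25, [0, 4, 6, 1, 4, 1], 71), (28, [0, 2, 4, 1, 0, 4, 1, 0], 68), (31, [1, 0, 6, 5, 4, 3, 0], 40), (37, [0, 1, 4, 5, 3, 2, 0], 70), (43, [4, 1, 0, 1, 4], 66), (46, [4, 1, 0, 1, 4], 78), (51, [5, 3, 1, 2, 1, 3, 0], 42), (54, [6, 4, 3, 0, 2, 1], 78), (58, [2, 3, 2], 79)]),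
([3, 4, 7, 8, 9], [(0, [], 80), (6, [], 79), (10, [3, 0, 2, 0, 3], 72), (11, [5, 3, 0, 2, 5, 0], 72), (13, [2, 1, 6, 1, 2], 44), (25, [6, 5, 4, 2, 5, 4, 2], 51), (31, [4, 0, 6, 5, 1, 3, 0], 40), (37, [2, 6, 1, 6, 2], 79), (43, [2, 6, 1, 6, 2], 80), (47, [0, 6, 2, 1, 0, 3], 26), (52, [0, 6, 1, 6, 1, 2, 1, 0], 25), (54, [4, 2, 1, 3, 2, 1], 51), (58, [0, 6, 2, 1, 0, 3], 52)]),
([2, 6, 7, 8, 9], [(10, [1, 6, 3, 2, 4, 2, 1, 0], 72), (15, [0, 6, 1, 3, 2, 4, 0], 78), (28, [2, 3, 0, 1, 0, 2], 72), (31, [0, 6, 1, 4, 0, 2], 61), (37, [3, 1, 6, 0, 2, 1, 0], 71), (42, [0, 2, 5, 2, 4, 2], 79), (43, [2, 1, 0, 6, 3, 1], 61), (46, [5, 4, 3, 0], 74), (47, [0, 6, 1, 3, 2, 4, 0], 75), (51, [1, 2, 6, 1, 3, 1, 0], 71), (52, [5, 0, 4, 3, 5, 0], 74), (54, [0, 2, 5, 3, 0, 2, 0], 75), (58, [5, 1, 3, 2, 1, 6],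 79)]),
([1, 3, 5, 6, 10], [(9, [5, 0, 1, 2, 0, 3, 0], 80), (11, [], 55), (15, [4, 1, 3, 0], 35), (18, [5, 0, 1, 2, 0, 3, 0], 78), (24, [5, 1, 2, 1, 0], 65), (31, [1, 4, 0, 4, 0, 1], 18), (46, [5, 3, 0, 1], 59), (51, [5, 0, 1, 2, 0, 3, 0], 72), (52, [0, 6, 5, 3, 0], 30), (54, [5, 1, 2, 3, 2, 0, 1], 44), (56, [5, 1, 2, 1, 0], 62), (59, [4, 1, 3, 0], 36)]),
([0, 3, 4, 7, 10], [(8, [], 79), (9, [], 76), (11, [2, 1, 6, 1, 2], 64), (19, [0, 4, 1, 2, 5, 3, 0], 39), (21, [2, 1, 6, 1, 2], 41), (26, [2, 1, 6, 4, 1, 0, 1, 0], 79), (30, [4, 5, 0, 2, 4, 1, 0], 45), (31, [2, 0, 4, 6, 4, 3, 0], 41), (37, [2, 4, 5, 4, 2, 1], 45), (43, [1, 4, 6, 3, 0, 6, 0], 46), (45, [2, 0, 4, 6, 4, 3, 0], 64), (54, [2, 1, 6, 4, 1, 0, 1, 0], 76), (56, [2, 4, 5, 4, 2, 1], 46), (58, [1, 4, 6, 3, 0, 6, 0], 39)]),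
([3, 4, 6, 7, 10], [(8, [], 79), (9, [], 76), (11, [2, 1, 6, 1, 2], 63), (19, [2, 4, 0, 4, 2, 0], 37), (27, [5, 2, 0, 2, 4, 5, 0], 64), (31, [4, 5, 1, 0, 1, 0], 42), (37, [5, 3, 2, 4, 5], 59), (43, [3, 2, 5, 4, 6, 1], 64), (47, [3, 2, 5, 4, 6, 1], 63), (52, [0, 6, 5, 3, 0], 76), (54, [1, 0, 1, 4, 0, 4, 1], 52), (56, [3, 0, 2, 0, 3], 80), (58, [2, 4, 0, 4, 2, 0], 59), (59, [2, 6, 0, 1, 0, 2], 80)]),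
([0, 4, 7, 8, 10], [(3, [], 81), (9, [], 73), (11, [2, 1, 6, 1, 2], 61), (17, [1, 6, 2, 1, 6], 66), (21, [2, 6, 1, 2], 42), (30, [1, 2, 1], 26), (31, [4, 6, 2, 3, 1, 0, 1, 0], 40), (36, [2, 4, 3, 0, 6, 5], 35), (37, [2, 6, 1, 2], 66), (43, [0, 6, 1, 6, 0], 81), (53, [0, 6, 1, 6, 1, 2, 1, 0], 26), (54, [2, 0, 4, 6, 4, 3, 0], 52), (58, [0, 1, 3, 5, 2, 0, 1], 40)]),
([0, 4, 7, 9, 10], [(3, [], 79), (8, [], 74), (11, [1, 2, 1], 74), (17, [0, 6, 1, 6, 1, 2, 1, 0], 79), (26, [2, 1, 6, 1, 2], 54), (31, [3, 1, 0, 3, 0], 39), (34, [6, 4, 5, 4], 54), (36, [4, 0, 6, 5], 37), (37, [1, 2, 1], 79), (41, [1, 4, 6, 3, 0, 6, 0], 38), (43, [0, 6, 1, 6, 0], 79), (54, [5, 2, 4, 5], 38), (56, [4, 2, 3, 5, 1, 0], 37), (58, [5, 2, 4, 5], 39)]),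
([3, 4, 7, 9, 10], [(0, [], 80), (6, [], 79), (8, [3, 0, 2, 0, 3], 79), (11, [1, 6, 1, 6, 2, 1], 62), (26, [2, 1, 6, 1, 2], 54), (31, [4, 5, 1, 0, 1, 0], 44), (37, [2, 6, 1, 6, 2], 71), (43, [1, 6, 1, 6, 2, 1], 72), (47, [3, 2, 5, 4, 6, 1], 71), (52, [0, 6, 1, 6, 1, 2, 1, 0], 33), (54, [5, 1, 2, 0, 3, 5, 0], 39), (56, [3, 0, 2, 0, 3], 80), (58, [1, 4, 6, 3, 0, 6, 0], 62)]),
([0, 1, 3, 4, 11], [(8, [], 74), (9, [], 71), (10, [2, 1, 6, 1, 2], 71), (31, [1, 6, 0, 4, 0, 1], 47), (43, [1, 6, 1], 50), (44, [1, 0, 4, 0, 1], 71), (45, [3, 5, 4, 6, 4, 3], 71), (48, [1, 0, 4, 0, 1], 74), (56, [1, 6, 1], 47), (58, [1, 6, 0, 4, 0, 1], 50)]),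
([0, 1, 3, 5, 11], [(9, [], 71), (10, [], 63), (31, [1, 6, 0, 4, 0, 1], 71), (33, [1, 6, 0, 4, 0, 1], 63), (44, [1, 0, 4, 0, 1], 71), (45, [1, 0, 4, 0, 1], 63), (51, [1, 6, 1], 63), (56, [1, 6, 1], 71)]),
([1, 3, 4, 6, 11], [(8, [], 75), (9, [], 71), (10, [2, 1, 6, 1, 2], 70), (14, [], 53), (18, [5, 3, 1, 0, 4, 1], 41), (20, [5, 3, 1, 0, 4, 1], 39), (31, [0, 2, 0, 6, 0, 2, 0], 47), (43, [2, 5, 2], 53), (44, [4, 1, 0, 1], 40), (52, [2, 1, 6, 3, 1, 2], 70), (56, [0, 4, 2, 5, 0, 1, 2, 0], 39), (58, [2, 5, 2], 71), (59, [3, 2, 6, 1, 6], 25)]),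
([3, 4, 6, 7, 11], [(8, [], 75), (9, [], 70), (10, [2, 1, 6, 1, 2], 70), (19, [5, 2, 0, 2, 5, 0], 47), (20, [5, 2, 0, 2, 4, 5, 0], 47), (22, [1, 4, 5, 2, 0, 2, 0], 32), (31, [2, 6, 4, 5, 4, 2], 31), (37, [5, 2, 0, 2, 5, 0], 66), (43, [2, 6, 4, 5, 4, 2], 53), (47, [0, 1, 2, 5, 2, 0], 24), (52, [5, 2, 0, 2, 4, 5, 0], 66), (56, [2, 6, 4, 5, 4, 2], 46), (57, [5, 2, 0, 2, 4, 5, 0], 72), (58, [2, 6, 5, 4, 3, 2], 30), (59, [5, 2, 0, 2, 5, 0], 72)]),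
([0, 1, 4, 8, 11], [(3, [], 78), (9, [], 70), (10, [2, 1, 6, 1, 2], 70), (17, [1, 6, 1, 6, 1], 39), (31, [6, 5, 1, 2, 1, 3, 0], 30), (40, [2, 6, 1, 2], 39), (43, [0, 6, 1, 6, 0], 76), (48, [1, 6, 1, 6, 1], 36), (55, [6, 0, 3, 5, 3, 0], 34), (58, [2, 1, 3, 2], 33)]),
([1, 3, 4, 9, 11], [(0, [], 76), (6, [], 74), (8, [], 70), (10, [6, 0, 3, 1, 4, 2, 1, 0], 70), (14, [], 53), (20, [5, 1, 0, 4, 1], 43), (31, [2, 3, 5, 4, 2], 49), (43, [6, 0, 3, 1, 4, 2, 1, 0], 74), (44, [5, 3, 1, 4, 5, 0], 43), (52, [6, 0, 3, 1, 4, 2, 1, 0], 76), (56, [6, 0, 3, 1, 4, 2, 1, 0], 53), (58, [2, 3, 5, 3, 2], 49)]),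
([0, 1, 5, 9, 11], [(3, [], 76), (10, [], 65), (17, [4, 1, 0, 3, 0], 58), (31, [3, 1, 6], 46), (33, [2, 5, 3, 0, 1, 4], 68), (41, [3, 1, 6], 58), (44, [4, 1, 0, 3, 0], 46), (51, [0, 2, 4, 3, 2, 0], 65), (55, [2, 4, 5, 3, 0, 1], 68), (56, [0, 2, 4, 3, 2, 0], 76)]),
([0, 3, 5, 9, 11], [(1, [], 77), (10, [], 65), (28, [2, 6, 0, 6, 2], 65), (31, [1, 0, 6, 5, 4, 3, 0], 47), (33, [2, 6, 0, 6, 3, 2], 77), (44, [0, 6, 1, 6, 1, 2, 1, 0], 38), (51, [5, 3, 1, 2, 1, 3, 0], 47), (56, [2, 3, 2], 77), (57, [2, 6, 0, 6, 2], 77)]),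
([1, 4, 8, 9, 11], [(0, [], 74), (3, [], 73), (6, [], 72), (10, [2, 1, 6, 1, 2], 62), (14, [3, 5, 2, 4, 6, 0, 1, 0], 55), (17, [1, 6, 1, 6, 1], 74), (31, [3, 5, 2, 4, 6, 0, 1, 0], 35), (40, [3, 5, 4, 1, 3, 0, 1, 0], 71), (43, [0, 6, 1, 6, 0], 71), (52, [1, 6, 1, 6, 1], 73), (55, [1, 0, 1, 6, 5], 34), (58, [3, 5, 2, 4, 6, 0, 1, 0], 51)]),
([0, 3, 5, 10, 11], [(1, [], 71), (9, [], 67), (12, [], 62), (21, [4, 2, 3, 2, 1], 61), (31, [5, 4, 1, 0, 6, 2], 71), (45, [1, 0, 6, 2, 0, 1, 0], 67), (51, [2, 3, 5, 0], 61), (56, [2, 3, 2], 68)]),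
([1, 3, 5, 10, 11], [(0, [], 72), (6, [], 71), (9, [], 67), (18, [5, 2, 0, 4, 6, 1], 65), (31, [2, 4, 2], 71), (45, [2, 4, 1, 6, 5, 0], 65), (51, [2, 4, 2], 72), (52, [4, 3, 1, 6, 5, 0], 35), (56, [2, 4, 1, 6, 5, 0], 66), (59, [3, 1, 2, 6, 0, 1, 0], 32)]),
([1, 5, 9, 10, 11], [(0, [], 70), (3, [], 68), (6, [], 67), (16, [2, 3, 1, 6, 5, 0], 68), (17, [1, 6, 1, 6, 1], 70), (31, [2, 4, 2], 67), (35, [2, 4, 5, 3, 0, 1], 67), (41, [3, 5, 1, 3, 0, 6, 1, 0], 70), (51, [2, 4, 2], 70), (52, [1, 6, 1, 6, 1], 68), (55, [2, 4, 5, 3, 0, 1], 68), (56, [2, 3, 1, 6, 5, 0], 67)]),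
([3, 5, 9, 10, 11], [(0, [], 70), (1, [], 69), (6, [], 67), (31, [2, 4, 2], 67), (47, [6, 2, 0, 6, 3, 2, 0], 44), (51, [2, 4, 2], 70), (52, [0, 6, 1, 6, 1, 2, 1, 0], 44), (56, [2, 3, 2], 69)]),
([4, 8, 9, 10, 11], [(0, [], 67), (1, [2, 1, 6, 1, 2], 67), (3, [1, 0, 3, 0], 67), (6, [6, 4, 5, 4], 67), (7, [0, 6, 1, 6, 0], 67), (17, [1, 6, 1, 6, 1], 67), (31, [2, 0, 4, 1, 0, 2], 34), (37, [3, 5, 4, 1, 3, 0, 1, 0], 67), (40, [2, 6, 2], 67), (43, [2, 6, 1, 6, 2], 67), (47, [4, 5, 4, 2, 5, 2], 43), (52, [6, 0, 3, 1, 4, 2, 1, 0], 67), (55, [6, 2, 5, 2], 43), (58, [4, 1, 6, 1], 34)]),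
([3, 6, 8, 10, 12], [(11, [], 66), (18, [1, 2, 4, 6, 1, 0], 66), (24, [1, 3, 1, 2, 1, 0], 66), (37, [1, 0, 2, 0, 1], 66), (46, [3, 2, 6, 4, 1, 0], 66), (47, [0, 6, 5, 3, 0], 66), (51, [3, 2, 1, 0, 1, 3], 66), (58, [3, 0, 2, 0, 3], 66)]),
([1, 3, 4, 11, 14], [(6, [], 66), (8, [], 64), (9, [], 63), (18, [1, 6, 1], 64), (20, [1, 0, 4, 0, 1], 66), (31, [0, 2, 0, 6, 0, 2, 0], 63), (43, [1, 6, 1], 66), (44, [1, 0, 4, 0, 1], 63), (48, [1, 0, 4, 0, 1], 64), (52, [2, 3, 5, 3, 2], 64), (56, [1, 6, 1], 63), (58, [2, 3, 5, 3, 2], 66)]),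
([1, 3, 9, 11, 14], [(4, [], 64), (5, [], 63), (6, [], 62), (8, [], 58), (20, [0, 6, 1, 0], 60), (23, [4, 0, 6, 5, 2, 3], 38), (31, [2, 4, 6, 5, 2], 60), (33, [3, 5, 1, 3, 2, 4, 2], 57), (43, [6, 3, 2, 1, 0, 3], 53), (44, [1, 2, 6, 3, 0, 2, 1, 0], 61), (51, [2, 4, 5, 4, 2], 58), (52, [2, 4, 5, 4, 2], 63), (56, [2, 4, 5, 4, 2], 64), (58, [2, 3, 5, 3, 2], 61)]),
([1, 6, 9, 11, 14], [(3, [], 63), (4, [], 62), (5, [2, 0, 3, 0, 2], 63), (8, [1, 6, 1, 6, 1], 62), (16, [6, 1, 6, 1, 2, 1], 63), (20, [1, 6, 2, 5, 2], 45), (31, [2, 0, 3, 5, 3, 0], 45), (33, [4, 6, 4, 0, 6, 0], 45), (35, [6, 2, 1, 6, 2, 1], 62), (40, [3, 5, 4, 1, 3, 0, 1, 0], 63), (41, [2, 0, 3, 0, 2], 62), (42, [2, 6, 5, 2], 45), (43, [0, 6, 1, 6, 0], 63), (44, [3, 5, 1, 4, 6, 4, 1], 45), (51, [1, 6, 2, 0, 3, 0], 62), (52, [1,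 6, 1, 6, 1], 63), (56, [2, 4, 5, 4, 2], 62), (58, [5, 3, 1, 2, 5, 1], 45)]),
([3, 6, 9, 11, 14], [(1, [], 64), (4, [], 62), (5, [], 61), (8, [], 59), (20, [1, 2, 5, 2, 1], 46), (28, [0, 3, 1, 4], 55), (31, [6, 3, 0, 3, 5, 0], 46), (33, [1, 3, 5, 3, 1], 64), (43, [5, 1, 3, 2, 0, 1], 55), (44, [1, 3, 5, 3, 1], 61), (47, [1, 3, 5, 3, 1], 62), (51, [2, 4, 5, 4, 2], 59), (52, [2, 4, 5, 4, 2], 61), (56, [2, 4, 5, 4, 2], 62), (57, [4, 6, 5, 4, 2, 3], 62), (58, [4, 6, 5, 4, 2, 3], 61)]),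
([3, 5, 6, 9, 15], [(1, [], 58), (10, [], 55), (28, [2, 6, 0, 6, 2], 55), (31, [0, 1, 3, 2, 0, 2, 1, 0], 58), (33, [2, 6, 0, 6, 3, 2], 58), (44, [6, 1, 6, 0, 6, 0], 50), (46, [1, 2, 5, 2, 1], 55), (47, [0, 3, 1, 0, 4, 3, 2, 0], 55), (51, [1, 2, 5, 2, 1], 58), (52, [0, 1, 3, 2, 0, 2, 1, 0], 55), (54, [2, 0, 3, 0, 2], 55), (56, [2, 3, 2], 58), (57, [2, 6, 0, 6, 2], 58)]),
([3, 5, 9, 10, 15], [(0, [], 58), (1, [], 57), (6, [], 56), (26, [6, 5, 1, 3, 0, 6], 49), (31, [2, 4, 2], 56), (39, [4, 1, 0, 1, 3, 1], 49), (46, [5, 1, 0, 1, 4, 6], 49), (47, [5, 0, 1, 0, 4, 6, 1, 0], 45), (51, [2, 4, 2], 58), (52, [1, 4, 5, 0, 1], 45), (54, [2, 0, 6, 1, 6, 5], 49), (56, [2, 3, 2], 57)])]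

/-- Part 10 of the chain. -/
def chain10 : List (List Nat × List (Nat × List Nat × Nat)) := [
([1, 4, 8, 13, 17], [(9, [], 53), (18, [0, 3, 1, 6, 5, 3], 53), (24, [0, 3, 1, 6, 5], 46), (30, [6, 0, 6, 3], 53), (40, [2, 6, 1, 6, 2, 3], 46), (52, [6, 2, 4, 3, 0, 1], 46), (55, [1, 6, 5, 3, 1], 53), (58, [3, 5, 0, 4, 6, 4, 0], 46)]),
([5, 11, 12, 17, 20], [(18, [], 45), (22, [0, 6, 0], 45), (28, [2, 4, 2, 0, 4, 1], 46), (41, [6, 2, 1, 6, 1, 2, 0], 46), (49, [4, 0, 2, 3, 0, 1], 46), (51, [6, 2, 1, 6, 1, 2, 0], 44), (57, [6, 0, 6, 5], 44), (59, [5, 1, 0, 4, 6, 3, 0], 46)]),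
([2, 7, 19, 25, 37], []),
([0, 1, 3, 4], [(8, [], 44), (9, [], 40), (10, [2, 1, 6, 4, 0, 1, 0], 37), (11, [], 23), (24, [3, 0, 6, 1, 3, 1], 1), (26, [2, 1, 6, 1, 2], 22), (30, [1, 6, 5, 4, 0, 1, 0], 13), (31, [0, 4, 0, 1], 42), (43, [6, 3, 2, 0, 6, 3], 29), (44, [1, 0, 4, 0, 1], 40), (45, [0, 4, 3, 0], 37), (48, [1, 0, 4, 0, 1], 44), (54, [2, 0, 3, 0], 13), (56, [3, 0, 6, 0, 3], 42), (58, [2, 4, 2, 3, 1, 2, 0], 29)]),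
([0, 1, 3, 5], [(9, [], 40), (10, [0, 4, 3, 5], 37), (11, [], 23), (15, [1, 6, 2, 3, 5, 1, 0], 21), (24, [3, 0, 1, 0, 2, 0], 24), (26, [2, 4, 2, 5, 0], 11), (30, [0, 1, 6, 5, 2, 1], 16), (31, [1, 6, 0, 4, 0, 1], 40), (33, [6, 0, 2, 4, 3, 1], 37), (38, [3, 0, 1, 0, 2, 0], 20), (39, [3, 2, 0, 4, 5], 21), (44, [1, 0, 4, 0, 1], 40), (45, [5, 3, 1, 4, 6, 4, 0], 37), (46, [2, 5, 4, 2, 6, 5, 2, 0], 20), (51, [2, 0, 4, 2, 5], 37), (54, [3, 5, 3, 0, 1, 3], 16), (56, [1, 6, 1], 40)]),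
([1, 3, 4, 6], [(8, [], 45), (9, [5, 1, 4, 5, 3, 2, 0], 41), (10, [4, 3, 0, 2, 4, 1, 0], 32), (11, [], 23), (14, [5, 2, 4, 5, 4, 2, 0], 34), (18, [5, 3, 1, 0, 4, 1], 40), (20, [3, 0, 1, 4, 3, 2, 1, 0], 43), (24, [5, 3, 2, 0, 1], 44), (27, [6, 2, 4, 0], 36), (31, [1, 2, 5, 3, 0, 1, 0], 26), (43, [5, 4, 5, 4, 2, 0], 34), (44, [1, 2, 3, 2, 0, 1, 0], 37), (52, [2, 4, 3, 1, 2, 3], 32), (54, [5, 2, 3, 2, 0, 1], 44), (56, [3, 0, 6, 0, 3], 43), (58, [5, 3, 1, 0, 4, 1], 41), (59, [6, 2, 4, 0], 46)]),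
([1, 3, 5, 6], [(9, [], 41), (10, [], 32), (11, [5, 2, 0, 4, 6, 1], 32), (14, [5, 1, 2, 3, 2, 0, 1], 32), (15, [5, 0, 1, 3, 2, 4], 28), (18, [5, 1, 2, 3, 2, 0, 1], 41), (20, [3, 0, 3, 5, 4, 1, 0], 28), (24, [5, 0, 2, 4, 0, 1, 0], 40), (31, [0, 3, 5, 4, 2, 0], 40), (33, [3, 1, 2, 5, 3], 40), (38, [1, 6, 4, 0, 1, 2, 0], 19), (44, [6, 5, 3, 0, 1, 0], 37), (46, [5, 3, 0, 1], 37), (51, [6, 5, 4, 5, 4, 2], 33), (52, [0, 6, 5, 3, 0], 7), (54, [2, 0, 3, 0, 2], 32), (56, [6, 5, 4, 2, 5, 4, 2], 33), (59, [6, 2, 3, 0], 40)]),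
([0, 3, 4, 7], [(8, [], 46), (9, [], 41), (10, [], 32), (11, [2, 1, 6, 1, 2], 25), (19, [5, 2, 1, 3, 1], 11), (21, [1], 32), (25, [1], 41), (26, [2, 5, 1, 2, 3, 2, 0], 33), (30, [2, 1, 3, 1, 2], 27), (31, [2, 0, 4, 6, 4, 3, 0], 11), (37, [2, 1, 3, 2, 5, 0], 33), (43, [5, 2, 1, 6, 5, 1], 12), (45, [0, 2, 6, 4, 1, 3, 0], 22), (54, [1], 46), (56, [2, 4, 5, 4, 2, 1], 25), (57, [5, 4, 1, 2, 0, 1, 0], 5), (58, [5, 2, 1, 6, 5, 1], 22)]),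
([3, 4, 6, 7], [(8, [], 46), (9, [], 41), (10, [], 32), (11, [], 25), (19, [4, 6, 5, 1, 0, 1, 0], 12), (20, [3, 2, 5, 4, 6, 1], 23), (22, [2, 4, 0, 6, 0, 2, 0], 8), (27, [5, 4, 3, 0], 34), (31, [4, 5, 1, 0, 1, 0], 10), (37, [6, 1, 6, 4, 0, 4, 0], 20), (43, [5, 4, 3, 1, 6, 1, 0], 34), (47, [0, 6, 5, 3, 0], 25), (52, [0, 6, 5, 3, 0], 41), (54, [5, 4, 3, 0], 18), (56, [3, 0, 2, 0, 3], 31), (57, [6, 1, 6, 4, 0, 4, 0], 23), (58, [6, 5, 4, 2, 5, 4, 2], 20), (59, [2, 6, 0, 1, 0, 2], 31)]),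
([0, 1, 3, 8], [(4, [], 50), (9, [1, 0, 3, 5], 44), (10, [6, 2, 1, 4, 0, 1], 44), (11, [2, 1, 6, 1, 2], 50), (15, [0, 3, 5, 2, 0, 3, 1, 0], 32), (23, [1, 3, 0, 6, 4, 5], 27), (24, [3, 2, 6, 4, 2, 1, 0], 27), (30, [4, 0, 6, 1, 6, 0], 9), (31, [2, 5, 4, 5, 2], 50), (33, [5, 4, 6], 9), (39, [3, 2, 0, 4, 5], 27), (43, [6, 3, 2, 0, 6, 3], 44), (46, [5, 0], 39), (48, [0, 6, 4, 2, 0, 4, 1], 9), (51, [4, 1, 6, 5, 2, 1, 0], 32), (54, [5, 4, 2, 3, 0, 3], 32), (58, [0, 6, 4, 2, 0, 4, 1], 10)]),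
([0, 1, 4, 8], [(3, [], 51), (9, [], 42), (10, [3, 0, 1, 2, 6, 0], 48), (11, [], 26), (17, [4, 2, 6, 2], 26), (24, [5, 1, 0, 1, 0], 51), (30, [4, 6, 3, 0, 2, 4, 1, 0], 9), (31, [3, 0, 6, 0, 3], 26), (40, [5, 1, 0, 1, 0], 42), (43, [0, 6, 1, 6, 0], 48), (48, [1, 6, 1, 6, 1], 9), (54, [5, 4, 6, 5, 0], 18), (55, [5, 1, 0, 1, 0], 26), (58, [5, 4, 6, 5, 0], 10)]),
([1, 4, 6, 8], [(3, [], 51), (9, [], 41), (10, [3, 0, 2, 0, 3], 51), (11, [1, 6, 1, 6, 1], 41), (14, [0, 2, 0, 6, 0, 2, 0], 51), (18, [5, 1, 2, 3, 2, 0, 1], 41), (24, [1, 0, 1], 41), (27, [1, 0, 6, 1, 6, 1], 41), (31, [0, 2, 0, 6, 0, 2, 0], 41), (40, [3, 5, 4, 1, 3, 0, 1, 0], 51), (43, [0, 6, 1, 6, 0], 51), (52, [1, 6, 1, 6, 1], 51), (54, [6, 5, 0, 2, 3, 1], 41), (58, [2, 5, 2], 41)]),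
([0, 4, 7, 8], [(3, [], 51), (9, [4, 5, 2, 1, 3], 43), (10, [], 35), (11, [2, 6, 1, 2], 42), (17, [2, 4, 3, 0, 6, 5], 48), (21, [1, 3, 2, 5, 4, 6], 33), (25, [2, 0, 4, 6, 4, 3, 0], 25), (30, [2, 1, 3, 1, 2], 28), (31, [1, 6, 5, 2, 4], 24), (36, [4, 5, 2, 1, 3], 44), (37, [5, 3, 1, 2, 6, 4, 0], 48), (43, [0, 6, 1, 6, 0], 51), (53, [2, 4, 3, 5, 1, 3], 28), (54, [2, 0, 4, 6, 4, 3, 0], 20), (58, [5, 2, 1, 6, 5, 1], 24)]),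
([3, 4, 7, 8], [(0, [], 52), (6, [], 51), (9, [], 41), (10, [3, 0, 2, 0, 3], 37), (11, [2, 6, 1, 6, 2], 34), (13, [2, 3, 5, 1, 2, 0, 1, 0], 27), (21, [5, 3, 0, 2, 5, 0], 35), (22, [2, 5, 1, 0, 2, 3], 23), (25, [6, 5, 4, 2, 5, 4, 2], 27), (27, [1, 0, 3, 1, 6, 0], 47), (30, [0, 6, 5, 3, 0], 52), (31, [4, 6, 2, 3, 1, 0, 1, 0], 17), (37, [2, 6, 1, 6, 2], 46), (43, [2, 6, 1, 6, 2], 47), (47, [1, 0, 3, 1, 6, 0], 34), (52, [0, 6, 5, 3, 0], 41), (54, [2, 0, 4, 6, 4, 3, 0], 22), (58, [1, 0, 3, 1, 6, 0], 46)]),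
([0, 1, 3, 9], [(4, [], 51), (5, [], 50), (8, [1, 0, 3, 5], 49), (10, [2, 1, 6, 4, 0, 1, 0], 43), (11, [2, 1, 4, 0, 1, 0], 48), (15, [5, 4, 6, 5, 4, 0], 39), (23, [2, 6, 3, 0, 3, 1, 0], 40), (26, [3, 1, 6, 5, 2, 1, 0], 47), (31, [5, 4, 5, 3], 41), (33, [4, 1, 6, 4, 3, 2, 1], 40), (39, [4, 5, 0], 38), (43, [5, 4, 6, 1, 4, 1], 41), (44, [4, 1, 0, 1, 4], 49), (46, [0, 4, 3, 0], 50), (51, [5, 2, 4, 0, 4, 2], 38), (54, [5, 2, 3, 2, 0], 47), (56, [3, 0, 6, 0, 3], 43), (58, [1, 2, 0, 4, 6, 0], 48)]),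
([0, 1, 4, 9], [(3, [], 52), (8, [], 47), (10, [3, 0, 1, 2, 6, 0], 43), (11, [3, 1, 4, 0, 6, 2, 0], 48), (17, [4, 1, 2, 1], 47), (26, [3, 1, 0, 3, 5], 29), (31, [3, 1, 0, 3, 5], 51), (32, [4, 1, 2, 1], 52), (40, [2, 3, 5, 4, 2], 43), (41, [0, 4, 0, 2, 1], 26), (43, [0, 6, 1, 6, 0], 48), (44, [0, 4, 3, 0], 46), (54, [4, 0, 4, 0, 2], 26), (55, [5, 4, 2, 6, 5, 2, 0], 51), (56, [2, 3, 5, 4, 2], 46), (58, [0, 4, 3, 0], 30)]),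
([3, 7, 8, 9], [(0, [], 45), (4, [], 44), (6, [4, 1, 0, 1, 4], 45), (10, [6, 1, 4, 0, 6], 45), (11, [2, 6, 0, 6, 2], 45), (13, [2, 1, 6, 1, 2], 22), (15, [1, 3, 5, 3, 1], 45), (23, [2, 6, 0, 6, 2], 44), (25, [6, 0, 4, 1, 6], 44), (28, [1, 0, 2, 0, 1], 45), (31, [6, 3, 0, 3, 5, 0], 21), (37, [6, 0, 4, 1, 6], 45), (43, [2, 6, 1, 6, 2], 45), (46, [4, 1, 0, 1, 4], 44), (47, [1, 3, 5, 3, 1], 44), (51, [5, 3, 1, 2, 1, 3, 0], 21), (52, [1, 0, 2, 0, 1], 44), (54, [6, 1, 4, 0, 6], 44), (58, [2, 3, 2], 44)]),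
([0, 4, 7, 10], [(3, [], 42), (8, [], 40), (9, [], 39), (11, [1, 2, 1], 40), (17, [0, 6, 1, 6, 1, 2, 1, 0], 42), (19, [5, 2, 0, 6, 2, 1, 0], 34), (21, [2, 1, 6, 1, 2], 20), (26, [3, 2, 5, 4, 6], 41), (30, [3, 1, 4, 2, 0, 1, 0], 34), (31, [3, 1, 0, 3, 0], 19), (34, [2, 1, 6, 4, 1, 0, 1, 0], 41), (36, [5, 2, 0, 6, 2, 1, 0], 35), (37, [1, 2, 1], 42), (41, [2, 6, 4, 1, 0, 1, 0], 38), (43, [0, 6, 1, 6, 0], 42), (45, [5, 4, 5, 1, 2], 34), (53, [3, 0, 2, 0, 3, 1], 34), (54, [2, 1, 6, 4, 1, 0, 1, 0], 38), (56, [0, 4, 1, 2, 5, 3, 0], 35), (58, [5, 2, 4, 5], 19)]),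
([0, 1, 5, 11], [(3, [], 37), (9, [], 32), (10, [2, 4, 5, 3, 0, 1], 32), (17, [4, 0, 2, 3, 5, 2, 0], 29), (29, [4, 1, 6, 1, 6, 1], 29), (31, [1, 6, 0, 4, 0, 1], 31), (33, [1, 6, 0, 4, 0, 1], 29), (41, [2, 3, 1, 2, 6], 24), (44, [1, 0, 4, 0, 1], 32), (45, [2, 4, 2, 1, 3, 1, 0], 32), (51, [1, 6, 1], 29), (55, [2, 3, 0, 1, 0, 2, 0], 37), (56, [1, 6, 1], 31)]),
([3, 5, 10, 11], [(0, [], 30), (1, [], 29), (6, [5, 2, 0, 4, 6, 1], 29), (9, [], 27), (12, [6, 0, 4, 6, 4, 0], 30), (18, [5, 2, 0, 4, 6, 1], 27), (21, [0, 2, 5, 2, 0], 30), (31, [5, 4, 1, 0, 6, 2], 29), (45, [1, 0, 6, 2, 0, 1, 0], 27), (47, [0, 2, 5, 2, 0], 27), (51, [2, 4, 2], 30), (52, [0, 6, 1, 6, 1, 2, 1, 0], 18), (56, [2, 3, 2], 28), (59, [0, 2, 5, 2, 0], 29)]),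
([1, 9, 11, 14], [(3, [], 24), (4, [2, 3, 5, 3, 2], 24), (5, [2, 0, 3, 0, 2], 24), (6, [], 23), (8, [3, 1, 4, 5, 3, 0, 1, 0], 24), (16, [6, 1, 6, 1, 2, 1], 22), (20, [0, 6, 1, 0], 22), (23, [3, 1, 2, 1, 3], 24), (31, [3, 5, 4, 6], 22), (32, [2, 4, 3, 2, 6, 1], 24), (33, [3, 5, 1, 3, 2, 4, 2], 22), (35, [1, 6, 2, 4, 3, 2], 24), (40, [3, 5, 4, 1, 3, 0, 1, 0], 22), (41, [3, 0, 2, 6, 1, 0], 24), (42, [3, 1, 2, 1, 3], 23), (43, [0, 6, 1, 6, 0], 22), (44, [1, 2, 5, 0, 2, 1, 0], 23), (51, [2, 3, 0, 3, 2, 0], 24), (52, [1, 6, 1, 6, 1], 24), (55, [0, 1, 6, 2, 0, 3], 24), (56, [1, 2, 5, 0, 2, 1, 0], 24), (58, [2, 3, 5, 3, 2], 23)]),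
([11, 12, 17, 20], [(5, [], 19), (18, [2, 5, 4, 5, 2], 19), (22, [2, 6, 2], 19), (25, [3, 0, 2, 5, 3, 1], 19), (28, [2, 4, 2, 3, 0], 19), (41, [4, 0, 4, 6, 5, 2], 19), (49, [1, 6, 1, 2, 0], 19), (51, [1, 2, 5, 0, 2, 1, 0], 19), (57, [0, 2, 0, 6, 0, 2, 0], 19), (58, [6, 4, 1, 6, 2, 0, 1, 0], 18), (59, [2, 6, 4, 2, 3, 0], 19)]),
([0, 1, 3], [(4, [], 18), (5, [], 17), (8, [], 12), (9, [], 7), (10, [2, 1, 6, 1, 2], 7), (11, [2, 1, 6, 1, 2], 18), (15, [2, 6, 2, 1, 3, 0], 4), (23, [6, 2, 3, 5, 1, 0], 14), (24, [2, 6, 2, 1, 3, 0], 14), (26, [2, 1, 6, 1, 2], 17), (30, [0, 2, 6, 0, 4, 0], 13), (31, [2, 0, 4, 5], 16), (33, [6, 0, 2, 4, 3, 1], 13), (38, [6, 2, 3, 5, 1, 0], 9), (39, [6, 2, 3, 5, 1, 0], 4), (43, [1, 6, 1], 15), (44, [1, 0, 4, 0, 1], 7), (45, [3, 5, 4, 6, 4, 3], 7), (46, [2, 6, 2,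 1, 3, 0], 9), (48, [1, 0, 4, 0, 1], 12), (51, [5, 2, 4, 0, 4, 2], 13), (54, [5, 2, 3, 2, 0], 13), (56, [6, 0, 2, 4, 3, 1], 16), (58, [1, 6, 0, 4, 0, 1], 15)]),
([0, 1, 4], [(3, [], 19), (8, [], 12), (9, [], 7), (10, [3, 0, 1, 2, 6, 0], 9), (11, [1, 4, 2, 3, 1, 6, 2, 0], 18), (17, [0, 4, 5, 1, 0], 10), (24, [5, 1, 0, 1, 0], 19), (26, [2, 1, 6, 1, 2], 4), (29, [4, 2, 6, 2], 10), (30, [5, 2, 6, 1, 4, 1], 3), (31, [0, 4, 0, 1], 10), (32, [4, 1, 0, 4, 1, 0], 7), (40, [5, 1, 0, 1, 0], 7), (41, [3, 2, 1, 6, 2, 3], 4), (43, [0, 6, 1, 6, 0], 14), (44, [1, 0, 4, 0, 1], 7), (45, [4, 6, 4, 0, 4, 3, 0], 9), (48, [1, 0, 4, 0, 1], 12), (54, [2, 0, 3, 0], 3), (55, [0, 1, 6, 5, 4, 3], 18), (56, [3, 0, 6, 0, 3], 10), (58, [5, 4, 3, 5, 4, 5], 14)]),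
([0, 3, 4], [(1, [], 20), (7, [], 16), (8, [3, 0, 6, 0, 3], 20), (9, [0, 4, 3, 0], 20), (10, [2, 1, 6, 4, 1, 0, 1, 0], 16), (11, [2, 1, 3, 1, 2], 16), (19, [1, 0, 4, 0, 1], 16), (21, [6, 0, 2, 3, 1, 0], 16), (24, [6, 0, 4, 6, 4, 0], 2), (25, [2, 1, 6, 4, 1, 0, 1, 0], 20), (26, [0, 3, 0], 20), (30, [2, 1, 3, 1, 2], 20), (31, [0, 4, 0], 16), (37, [1, 0, 3, 0], 20), (43, [0, 3, 0], 16), (44, [6, 0, 2, 3, 1, 0], 20), (45, [0, 4, 3, 0], 16), (48, [1], 20), (54, [0, 4, 0], 20), (56, [3, 0, 6, 0, 3], 16), (57, [1, 0, 2, 0, 3, 1], 2), (58, [1, 0, 4, 3, 0, 1], 16)]),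
([1, 3, 4], [(0, [], 21), (6, [], 19), (8, [0, 4, 2, 6], 19), (9, [0, 4, 3, 0], 9), (10, [2, 5, 4, 5, 4, 2], 18), (11, [2, 1, 6, 3, 1, 2], 17), (13, [6, 2, 4, 3, 0, 1], 9), (14, [6, 3, 1, 2, 5, 1], 8), (18, [2, 3, 5, 2, 0, 1, 0], 10), (20, [1, 0, 4, 0, 1], 19), (24, [5, 3, 2, 0], 17), (26, [2, 0, 3, 0], 6), (27, [5, 2, 6, 0, 4], 9), (30, [6, 2, 4, 0], 11), (31, [0, 4, 0, 1], 11), (43, [3, 5, 3, 1, 0, 2, 1], 10), (44, [2, 1, 6, 4, 0, 1, 0], 9), (45, [2, 5, 2], 18), (48, [6, 1, 3, 1, 2, 0], 19), (52, [6, 0, 3, 1, 4, 2, 1, 0], 10), (54, [5, 2, 3, 2, 0, 1], 11), (56, [3, 0, 6, 0, 3], 11), (58, [2, 6, 1, 3, 2, 4, 1, 0], 10), (59, [6, 1, 3, 1, 2, 0], 21)]),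
([1, 4, 6], [(3, [], 20), (8, [], 14), (9, [2, 1, 6, 2], 13), (10, [1, 2, 4, 6, 1, 0], 20), (11, [1, 2, 3, 1, 2, 1, 0], 16), (14, [0, 2, 0, 6, 0, 2, 0], 20), (18, [4, 1, 6, 5, 2, 0, 1, 0], 16), (20, [1, 4, 6, 0, 6, 0], 15), (24, [3, 1, 2, 3, 0, 2], 13), (27, [5, 2, 4, 5, 4, 2, 0], 13), (29, [5, 4, 0, 2, 3], 15), (31, [5, 1, 0, 2, 1, 6, 0], 13), (40, [4, 5, 0, 4], 20), (41, [0, 2, 4, 5, 3, 0, 1, 0], 15), (43, [0, 6, 1, 6, 0], 20), (44, [5, 0, 4, 6, 4, 0], 15), (52, [6, 5, 0, 2, 3, 1], 20), (54, [5, 2, 3, 2, 0, 1], 13), (56, [3, 0, 2, 0, 3], 15), (58, [2, 1, 6, 3, 2], 13), (59, [1, 2, 3, 1, 2, 1, 0], 15)]),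
([3, 4, 7], [(0, [], 19), (6, [], 18), (8, [], 13), (9, [2, 6, 1, 6, 2], 13), (10, [2, 1, 6, 4, 1, 0, 1, 0], 9), (11, [3, 2, 6, 2, 3, 1], 9), (13, [0, 3, 5, 1, 3, 0], 13), (19, [1, 4, 5, 0, 2, 4, 1, 0], 6), (20, [1, 0, 6, 1, 3, 0], 19), (21, [5, 3, 0, 2, 5, 0], 9), (22, [1], 18), (25, [0, 6, 1, 6, 3, 0], 13), (26, [0, 6, 1, 6, 3, 0], 18), (27, [1, 0, 3, 1, 6, 0], 19), (30, [0, 6, 5, 3, 0], 19), (31, [4, 6, 2, 3, 1, 0, 1, 0], 6), (37, [2, 6, 1, 6, 2], 18), (43, [2, 6, 1, 6, 2], 19), (45, [0, 3, 5, 1, 3, 0], 18), (47, [6, 2, 1, 6, 4], 9), (52, [2, 3, 5, 3, 2], 13), (54, [1], 13), (56, [3, 0, 2, 0, 3], 9), (57, [2, 3, 5, 3, 2], 19), (58, [2, 3, 5, 3, 2], 18), (59, [2, 6, 0, 1, 0, 2], 9)]),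
([0, 5, 11], [(1, [], 9), (3, [1, 6, 1], 9), (9, [0, 2, 4, 3, 2, 0], 9), (10, [4, 1, 6, 1, 6, 1], 9), (12, [2, 1, 0, 6, 4, 0], 9), (17, [4, 0, 4, 2, 6, 0, 1], 9), (21, [4, 1, 6, 0, 6, 0], 9), (28, [1, 3, 2, 0, 4, 0], 9), (29, [4, 1, 6], 9), (31, [0, 6, 0], 9), (33, [2, 6, 1, 0, 6, 2, 0], 9), (41, [4, 6, 1, 6, 4], 9), (44, [0, 6, 2, 4, 2, 0], 9), (45, [3, 5, 2, 1, 4, 1], 9), (51, [6, 1, 4], 9), (55, [3, 2, 6, 2, 3], 9), (56, [2, 3, 2], 9), (57, [6, 1, 4, 0, 6, 0], 9)]),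
([0, 1], [(3, [], 6), (4, [], 5), (5, [2, 5, 4, 2, 6, 5, 2, 0], 5), (8, [2, 1, 3, 0, 6, 5, 1, 0], 2), (9, [4, 6, 4, 1, 0, 1, 0], 3), (10, [2, 1, 3, 0, 6, 5, 1, 0], 3), (11, [2, 1, 6, 1, 2], 5), (15, [2, 0, 6, 0, 2], 6), (17, [3], 5), (23, [3, 2, 6, 1, 2, 3], 3), (24, [5, 1, 0, 1, 0], 3), (26, [2, 3, 0, 1, 0, 2, 0], 5), (29, [2, 0, 6, 0, 2], 5), (30, [5, 4, 2, 5, 0, 3], 5), (31, [4, 5, 3, 0, 2, 5, 1, 0], 2), (32, [5, 4, 6, 4], 5), (33, [1, 4, 3, 5, 3, 0], 5), (38, [4, 1, 0, 4, 1, 0], 2), (39, [3], 6), (40, [3, 2, 1, 6, 1, 2], 5), (41, [2], 0), (43, [0, 4, 1, 0, 2, 0], 6), (44, [2, 6, 1, 2, 3], 3), (45, [3, 5, 1, 0, 1, 0], 3), (46, [5, 1, 0, 1, 0], 2), (48, [6, 0, 6, 1, 4, 0], 2), (51, [0, 4, 1, 0, 2, 0], 5), (54, [4, 6, 1, 2, 1, 3, 1, 0], 5), (55, [2, 3, 0, 1, 0, 2, 0], 6), (56, [3,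 5, 1, 0, 1, 0], 2), (58, [1, 4, 3, 5, 3, 0], 6)])]

/-- Part 11 of the chain. -/
def chain11 : List (List Nat × List (Nat × List Nat × Nat)) := [
([0, 3], [(1, [], 7), (4, [], 5), (5, [3, 0, 1, 0, 2, 0], 6), (7, [5, 2, 1, 6, 5, 1], 4), (8, [3, 0, 6, 0, 3], 7), (9, [0, 4, 3, 0], 7), (10, [1, 2, 0, 3, 0], 4), (11, [2, 1, 6, 1, 2], 4), (12, [1, 4, 6, 5, 3, 1, 0], 6), (15, [4, 5, 4, 0], 2), (19, [4, 0, 2, 4, 3, 0], 4), (21, [2, 0, 3, 0], 4), (23, [2, 6, 2, 1, 0], 2), (24, [4, 5, 4, 0], 5), (25, [2, 1, 6, 4, 1, 0, 1, 0], 7), (26, [0, 3, 0], 7), (28, [2, 6, 4, 0, 6, 4], 6), (30, [2, 1, 3, 1, 2], 7), (31, [4, 1, 0, 6, 5, 2, 1, 0], 4), (33, [1, 4, 5, 0, 1], 2), (37, [1, 0, 3, 0], 7), (38, [4, 5, 3, 0], 6), (39, [4, 5, 0], 2), (43, [4, 5, 0], 4), (44, [6, 0, 2, 3, 1, 0], 7), (45, [2, 0, 4, 6,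 4, 3, 0], 4), (46, [4, 5, 4, 3, 0], 6), (48, [1], 7), (51, [1, 0, 1, 4, 0, 4, 0], 2), (54, [0, 4, 0], 7), (56, [2, 4, 5, 4, 2, 1], 4), (57, [1, 4, 6, 5, 3, 1, 0], 5), (58, [4, 5, 4, 0], 4)]),
([0], [(1, [], 1), (3, [], 0), (4, [5, 4, 2, 5, 4, 2, 0], 0), (5, [2], 1), (7, [1, 2, 0, 4, 6, 0], 1), (8, [3, 0, 6, 0, 3], 1), (9, [2, 3, 2], 0), (10, [1, 0, 4, 2, 0, 1, 0], 0), (11, [3, 1, 2, 1, 3], 1), (12, [2, 1, 0, 6, 4, 0], 1), (15, [2, 0, 6, 0, 2], 0), (17, [4, 6, 1, 3, 5, 4, 0], 0), (19, [1, 0, 6, 0], 1), (21, [6, 3, 1, 6, 4, 2, 0], 0), (23, [3, 1, 2, 1, 3], 0), (24, [4, 5, 4, 0], 0), (25, [0, 4, 6, 4, 0], 0), (26, [2], 0), (28, [1, 3, 2, 0, 4, 0], 1), (29, [1, 6, 2, 1, 0], 0), (30, [2, 1, 3, 1, 2], 1), (31, [0, 6, 0], 1), (32, [0, 4, 6, 4, 0], 1), (33, [1, 3, 1], 0), (34, [4, 0, 6, 2,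 5], 0), (36, [3, 2, 0, 4, 6, 0], 1), (37, [1, 2, 1], 0), (38, [1, 3, 1], 1), (39, [3], 0), (40, [1, 2, 1], 1), (41, [4, 6, 1, 6, 4], 1), (43, [0, 3, 5, 4, 3], 0), (44, [0, 6, 0], 0), (45, [1, 0, 2, 0, 1, 0], 0), (46, [3, 2, 0, 4, 0], 1), (48, [1], 1), (50, [2, 3, 2, 1, 3, 1], 1), (51, [3, 2, 0, 4, 0], 0), (53, [0, 6, 1, 4, 1], 0), (54, [0, 4, 0], 1), (55, [2, 4, 5, 4, 0], 0), (56, [2, 3, 2], 1), (57, [4, 6, 1, 6, 4], 0), (58, [1, 3, 2, 6, 2, 1, 0], 0)]),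
([], [(0, [], 0), (1, [2, 1, 6, 1, 2], 0), (2, [1, 4, 2, 5, 0, 2, 1, 0], 0), (3, [0, 3, 0], 0), (4, [5, 1, 0, 1, 0], 0), (5, [1, 6, 1], 0), (6, [4, 5, 3, 0, 2, 5, 1, 0], 0), (7, [0, 6, 1, 6, 0], 0), (8, [2, 5, 4, 5, 2], 0), (9, [4], 0), (10, [1, 2, 5, 0, 2, 1, 0], 0), (11, [3, 2, 6, 2, 3], 0), (12, [6], 0), (13, [5, 4, 6, 5, 2, 1], 0), (14, [5, 4, 2, 5, 3, 1], 0), (15, [1, 3, 5, 3, 1], 0), (16, [1, 6, 4, 3, 5, 1], 0), (17, [1, 6, 1, 6, 1], 0), (18, [5, 1, 4, 2, 5, 1], 0), (19, [6, 5, 3], 0), (20, [4, 6, 2, 1, 3, 2], 0), (21, [0, 2, 5, 2, 0], 0), (22, [1, 6, 5, 4, 3, 1], 0), (23, [3, 5, 3], 0), (24, [4, 6, 5, 4, 3], 0), (25, [1, 4, 1], 0), (26, [2, 0, 3, 0, 2], 0), (27, [6, 0, 3, 2, 1, 0], 0), (28, [1, 0, 2, 0, 1], 0), (29, [4, 0, 6, 5, 2, 3, 0], 0), (30, [0, 6, 5, 3, 0], 0), (31, [1,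 6, 5, 3, 1], 0), (32, [0, 1, 0], 0), (33, [2, 5, 2], 0), (34, [6, 1, 6], 0), (35, [4, 6, 0, 1, 3, 0], 0), (36, [5, 4, 5], 0), (37, [6, 1, 2, 1, 0, 3, 0], 0), (38, [0, 3, 5, 3, 0], 0), (39, [1, 2, 5, 2, 1], 0), (40, [2, 6, 2], 0), (41, [5, 1, 4, 5, 1], 0), (42, [5, 1, 2, 4, 5, 1], 0), (43, [2, 6, 1, 6, 2], 0), (44, [5], 0), (45, [4, 6, 4], 0), (46, [0, 2, 0], 0), (47, [4, 3, 2, 5, 4, 1], 0), (48, [2, 4, 5, 4, 2], 0), (49, [6, 4, 3, 5, 1, 2], 0), (50, [4, 5, 4], 0), (51, [2, 4, 2], 0), (52, [5, 1, 4, 6, 5, 1], 0), (53, [0, 1, 3, 1, 0], 0), (54, [4, 0, 2, 3, 0], 0), (55, [0, 2, 0, 6, 0, 2, 0], 0), (56, [3, 0, 2, 0, 3], 0), (57, [2, 3, 5, 3, 2], 0), (58, [1, 4, 6, 4, 1], 0), (59, [4, 6, 0, 2, 1, 0], 0)])]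

/-- The chain. -/
def chain : List (List Nat × List (Nat × List Nat × Nat)) :=
  chain0 ++ chain1 ++ chain2 ++ chain3 ++ chain4 ++ chain5 ++ chain6 ++ chain7 ++ chain8 ++ chain9 ++ chain10 ++ chain11

end Pool.Agent.OrthoChi
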