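import Mathlib

/-!
# A colouring of the orthogonality graph of the unit sphere with `2 ^ (d - 1)` colours

For a nonzero vector `x` extend its coordinates negacyclically by `x (i + d) = - x i` and let
`s i` be the sign of the first nonzero entry at position `≥ i`. The colour of `x` is the sequence
`s 0, ..., s (d - 1)` up to a global sign.
-/

namespace Pool.Agent.OrthoChi

/-- The sequence of signs, computed from the end: the value at `k` belongs to position `d - k`. -/
noncomputable def sq (x : ℕ → ℝ) (d : ℕ) (e : Bool) : ℕ → Bool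
  | 0 => e
  | k + 1 => if x (d - (k + 1)) = 0 then sq x d e k else decide (0 < x (d - (k + 1)))

theorem sq_indep (x : ℕ → ℝ) (d : ℕ) (e e' : Bool) (k : ℕ)
    (h : ∃ i, d - k ≤ i ∧ i < d ∧ x i ≠ 0) (hk : k ≤ d) : sq x d e k = sq x d e' k := by
  induction k with
  | zero => obtain ⟨i, h1, h2, _⟩ := h; omega
  | succ k ih =>
    simp only [sq]
    by_cases h0 : x (d - (k + 1)) = 0
    · rw [if_pos h0, if_pos h0]
      apply ih _ (by omega)
      obtain ⟨i, h1, h2, h3⟩ := h
      refine ⟨i, ?_, h2, h3⟩
      by_contra hcon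
      have : i = d - (k + 1) := by omega
      exact h3 (this ▸ h0)
    · rw [if_neg h0, if_neg h0]

/-- The sign of the first nonzero coordinate. -/
noncomputable def s0 (x : ℕ → ℝ) (d : ℕ) : Bool := sq x d false d

/-- The normalised sign sequence. -/
noncomputable def tq (x : ℕ → ℝ) (d k : ℕ) : Bool := xor (sq x d (!(s0 x d)) k) (s0 x d)

theorem tq_zero (x : ℕ → ℝ) (d : ℕ) : tq x d 0 = true := by
  unfold tq sq
  cases s0 x d <;> rfl

theorem tq_last (x : ℕ → ℝ) (d : ℕ) (h : ∃ i, i < d ∧ x i ≠ 0) : tq x d d = false := by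
  unfold tq
  have : sq x d (!(s0 x d)) d = s0 x d := by
    unfold s0
    apply sq_indep
    · obtain ⟨i, h1, h2⟩ := h
      exact ⟨i, by omega, h1, h2⟩
    · exact le_rfl
  rw [this]
  cases s0 x d <;> rfl

theorem tq_ne (x : ℕ → ℝ) (d k : ℕ) (h : tq x d k ≠ tq x d (k + 1)) : x (d - (k + 1)) ≠ 0 := by
  intro h0
  apply h
  unfold tq
  simp only [sq, if_pos h0]

theorem tq_sign (x : ℕ → ℝ) (d k : ℕ) (h : x (d - (k + 1)) ≠ 0) :
    decide (0 < x (d - (k + 1))) = xor (tq x d (k + 1)) (s0 x d) := by
  unfold tq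
  simp only [sq, if_neg h]
  cases s0 x d <;> simp

/-- Vectors with the same normalised sign sequence are not orthogonal. -/
theorem sum_ne_zero (x y : ℕ → ℝ) (d : ℕ) (hx : ∃ i, i < d ∧ x i ≠ 0) (hy : ∃ i, i < d ∧ y i ≠ 0)
    (h : ∀ k, 1 ≤ k → k < d → tq x d k = tq y d k) : ∑ i ∈ Finset.range d, x i * y i ≠ 0 := by
  have hall : ∀ k, k ≤ d → tq x d k = tq y d k := by
    intro k hk
    rcases Nat.eq_zero_or_pos k with h0 | h0
    · rw [h0, tq_zero, tq_zero]
    · rcases Nat.lt_or_ge k d with h1 | h1
      · exact h k h0 h1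
      · have : k = d := by omega
        rw [this, tq_last x d hx, tq_last y d hy]
  -- a jump
  have hjump : ∃ k, k < d ∧ tq x d k ≠ tq x d (k + 1) := by
    by_contra hcon
    push Not at hcon
    have : ∀ k, k ≤ d → tq x d k = true := by
      intro k
      induction k with
      | zero => intro _; exact tq_zero x d
      | succ k ih =>
        intro hk
        rw [← hcon k (by omega)]
        exact ih (by omega)
    have h1 := this d le_rfl
    rw [tq_last x d hx] at h1
    exact absurd h1 (by simp)
  obtain ⟨k, hk, hne⟩ := hjump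
  have hxk : x (d - (k + 1)) ≠ 0 := tq_ne x d k hne
  have hyk : y (d - (k + 1)) ≠ 0 := by
    apply tq_ne y d k
    rw [← hall k (by omega), ← hall (k + 1) (by omega)]
    exact hne
  have hmem : d - (k + 1) ∈ Finset.range d := Finset.mem_range.2 (by omega)
  have hterm : ∀ i ∈ Finset.range d, x i ≠ 0 → y i ≠ 0 →
      (decide (0 < x i) = decide (0 < y i) ↔ s0 x d = s0 y d) := by
    intro i hi hxi hyi
    rw [Finset.mem_range] at hi
    have e : i = d - ((d - 1 - i) + 1) := by omega
    have h1 := tq_sign x d (d - 1 - i) (by rw [← e]; exact hxi)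
    have h2 := tq_sign y d (d - 1 - i) (by rw [← e]; exact hyi)
    rw [← e] at h1 h2
    rw [h1, h2, hall _ (by omega)]
    cases tq y d (d - 1 - i + 1) <;> cases s0 x d <;> cases s0 y d <;> simp
  by_cases hs : s0 x d = s0 y d
  · apply ne_of_gt
    have hnn : ∀ i ∈ Finset.range d, 0 ≤ x i * y i := by
      intro i hi
      by_cases hxi : x i = 0
      · rw [hxi, zero_mul]
      by_cases hyi : y i = 0
      · rw [hyi, mul_zero]
      have h1 := (hterm i hi hxi hyi).2 hs
      rcases lt_or_gt_of_ne hxi with h2 | h2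
      · have h3 : ¬ (0 < x i) := not_lt.2 h2.le
        rw [decide_eq_false h3] at h1
        have h4 : ¬ (0 < y i) := by simpa using h1.symm
        exact mul_nonneg_of_nonpos_of_nonpos h2.le (not_lt.1 h4)
      · rw [decide_eq_true h2] at h1
        have h4 : 0 < y i := by simpa using h1.symm
        exact (mul_pos h2 h4).le
    apply Finset.sum_pos' hnn
    exact ⟨_, hmem, lt_of_le_of_ne (hnn _ hmem) (Ne.symm (mul_ne_zero hxk hyk))⟩
  · apply ne_of_lt
    have hnn : ∀ i ∈ Finset.range d, x i * y i ≤ 0 := by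
      intro i hi
      by_cases hxi : x i = 0
      · rw [hxi, zero_mul]
      by_cases hyi : y i = 0
      · rw [hyi, mul_zero]
      have h1 : ¬ (decide (0 < x i) = decide (0 < y i)) := fun hc => hs ((hterm i hi hxi hyi).1 hc)
      rcases lt_or_gt_of_ne hxi with h2 | h2
      · have h3 : ¬ (0 < x i) := not_lt.2 h2.le
        rw [decide_eq_false h3] at h1
        have h4 : 0 < y i := by
          by_contra h5
          rw [decide_eq_false h5] at h1
          exact h1 rfl
        exact (mul_neg_of_neg_of_pos h2 h4).le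
      · rw [decide_eq_true h2] at h1
        have h4 : ¬ (0 < y i) := by
          intro h5
          rw [decide_eq_true h5] at h1
          exact h1 rfl
        exact mul_nonpos_of_nonneg_of_nonpos h2.le (not_lt.1 h4)
    apply Finset.sum_neg' hnn
    exact ⟨_, hmem, lt_of_le_of_ne (hnn _ hmem) (mul_ne_zero hxk hyk)⟩

end Pool.Agent.OrthoChi
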